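import Mathlib

set_option autoImplicit false

/-! Vector configurations modulo a subspace: circuits, paths, skew sets, vertices. -/

namespace Pool.Agent.Vertigan

open Finset
open scoped Classical

noncomputable section

variable {α V : Type*} [AddCommGroup V] [Module ℝ V]

def sp (v : α → V) (U : Submodule ℝ V) (S : Finset α) : Submodule ℝ V :=
  U ⊔ Submodule.span ℝ (v '' (S : Set α))

def lc (v : α → V) (c : α → ℝ) (S : Finset α) : V := ∑ e ∈ S, c e • v e

def Ind (v : α → V) (U : Submodule ℝ V) (S : Finset α) : Prop :=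
  ∀ c : α → ℝ, lc v c S ∈ U → ∀ e ∈ S, c e = 0

def Circ (v : α → V) (U : Submodule ℝ V) (C : Finset α) : Prop :=
  C.Nonempty ∧ (∃ c : α → ℝ, (∀ e ∈ C, c e ≠ 0) ∧ lc v c C ∈ U) ∧
    ∀ c : α → ℝ, lc v c C ∈ U → ∀ x ∈ C, c x = 0 → ∀ e ∈ C, c e = 0

def Path (v : α → V) (U : Submodule ℝ V) (a : V) (J : Finset α) : Prop :=
  Ind v U J ∧ ∃ c : α → ℝ, (∀ e ∈ J, c e ≠ 0) ∧ lc v c J - a ∈ U

def Skew (v : α → V) (U : Submodule ℝ V) (A B : Finset α) : Prop :=
  ∀ x, x ∈ sp v U A → x ∈ sp v U B → x ∈ U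

def Conn (v : α → V) (U : Submodule ℝ V) (E : Finset α) : Prop :=
  (∀ e ∈ E, v e ∉ U) ∧ ∀ A ⊆ E, Skew v U A (E \ A) → A = ∅ ∨ A = E

def Vert (v : α → V) (U : Submodule ℝ V) (E : Finset α) (u : V →ₗ[ℝ] ℝ) : Prop :=
  (∀ x ∈ U, u x = 0) ∧ (∃ e ∈ E, u (v e) ≠ 0) ∧
    ∀ x ∈ sp v U E, u x = 0 → x ∈ sp v U (E.filter fun e => u (v e) = 0)

variable {v : α → V} {U : Submodule ℝ V}

lemma le_sp (S : Finset α) : U ≤ sp v U S := le_sup_left

lemma mem_sp_of_mem_U {S : Finset α} {x : V} (h : x ∈ U) : x ∈ sp v U S := le_sp S h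

lemma mem_sp_of_mem {S : Finset α} {e : α} (h : e ∈ S) : v e ∈ sp v U S :=
  Submodule.mem_sup_right (Submodule.subset_span ⟨e, h, rfl⟩)

lemma lc_mem_sp (c : α → ℝ) (S : Finset α) : lc v c S ∈ sp v U S :=
  Submodule.sum_mem _ fun _ he => Submodule.smul_mem _ _ (mem_sp_of_mem he)

lemma mem_sp {S : Finset α} {x : V} : x ∈ sp v U S ↔ ∃ c : α → ℝ, lc v c S - x ∈ U := by
  constructor
  · intro h
    obtain ⟨a, ha, b, hb, rfl⟩ := Submodule.mem_sup.1 h
    obtain ⟨c, rfl⟩ := (Submodule.mem_span_image_finset_iff_exists_fun' ℝ).1 hb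
    refine ⟨c, ?_⟩
    have : lc v c S - (a + ∑ i ∈ S, c i • v i) = -a := by unfold lc; abel
    rw [this]; exact U.neg_mem ha
  · rintro ⟨c, hc⟩
    have : x = lc v c S - (lc v c S - x) := by abel
    rw [this]
    exact Submodule.sub_mem _ (lc_mem_sp c S) (mem_sp_of_mem_U hc)

lemma sp_le {S : Finset α} {N : Submodule ℝ V} (hU : U ≤ N) (hS : ∀ e ∈ S, v e ∈ N) :
    sp v U S ≤ N :=
  sup_le hU (Submodule.span_le.2 (by rintro _ ⟨e, he, rfl⟩; exact hS e he))

lemma sp_mono {U' : Submodule ℝ V} {S T : Finset α} (hU : U ≤ U') (h : S ⊆ T) :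
    sp v U S ≤ sp v U' T :=
  sp_le (hU.trans (le_sp T)) fun _ he => mem_sp_of_mem (h he)

lemma sp_mono' {S T : Finset α} (h : S ⊆ T) : sp v U S ≤ sp v U T := sp_mono le_rfl h

lemma sp_empty : sp v U ∅ = U := by simp [sp]

lemma mem_sp_single {e : α} {x : V} : x ∈ sp v U {e} ↔ ∃ t : ℝ, t • v e - x ∈ U := by
  rw [mem_sp]
  constructor
  · rintro ⟨c, hc⟩; exact ⟨c e, by simpa [lc] using hc⟩
  · rintro ⟨t, ht⟩; exact ⟨fun _ => t, by simpa [lc] using ht⟩

lemma mem_sp_union {A B : Finset α} {x : V} (h : x ∈ sp v U (A ∪ B)) :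
    ∃ a ∈ sp v U A, ∃ b ∈ sp v U B, a + b = x := by
  have : sp v U (A ∪ B) ≤ sp v U A ⊔ sp v U B := by
    refine sp_le ((le_sp A).trans le_sup_left) fun e he => ?_
    rcases mem_union.1 he with h | h
    · exact Submodule.mem_sup_left (mem_sp_of_mem h)
    · exact Submodule.mem_sup_right (mem_sp_of_mem h)
  exact Submodule.mem_sup.1 (this h)

lemma sp_sp (A B : Finset α) : sp v (sp v U A) B = sp v U (A ∪ B) := by
  apply le_antisymm
  · exact sp_le (sp_mono' subset_union_left) fun e he => mem_sp_of_mem (mem_union_right _ he)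
  · refine sp_le ((le_sp A).trans (le_sp B)) fun e he => ?_
    rcases mem_union.1 he with h | h
    · exact mem_sp_of_mem_U (mem_sp_of_mem h)
    · exact mem_sp_of_mem h

lemma map_sp_zero {S : Finset α} {u : V →ₗ[ℝ] ℝ} (hU : ∀ x ∈ U, u x = 0)
    (hS : ∀ e ∈ S, u (v e) = 0) {x : V} (hx : x ∈ sp v U S) : u x = 0 := by
  have : sp v U S ≤ LinearMap.ker u := sp_le (fun x hx => hU x hx) hS
  exact this hx

/-! linear combinations -/

lemma lc_congr {c c' : α → ℝ} {S : Finset α} (h : ∀ e ∈ S, c e = c' e) : lc v c S = lc v c' S :=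
  sum_congr rfl fun e he => by rw [h e he]

lemma lc_subset {c : α → ℝ} {S T : Finset α} (h : S ⊆ T) (hz : ∀ e ∈ T, e ∉ S → c e = 0) :
    lc v c T = lc v c S :=
  (sum_subset h fun e he hn => by rw [hz e he hn, zero_smul]).symm

lemma lc_union {c : α → ℝ} {S T : Finset α} (h : Disjoint S T) :
    lc v c (S ∪ T) = lc v c S + lc v c T := sum_union h

lemma lc_lin (c c' : α → ℝ) (s t : ℝ) (S : Finset α) :
    lc v (fun e => s * c e + t * c' e) S = s • lc v c S + t • lc v c' S := by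
  simp only [lc, add_smul, mul_smul, sum_add_distrib, smul_sum]

lemma lc_sub (c c' : α → ℝ) (t : ℝ) (S : Finset α) :
    lc v (fun e => c e - t * c' e) S = lc v c S - t • lc v c' S := by
  simp only [lc, sub_smul, mul_smul, sum_sub_distrib, smul_sum]

lemma lc_smul (c : α → ℝ) (t : ℝ) (S : Finset α) :
    lc v (fun e => t * c e) S = t • lc v c S := by
  simp only [lc, mul_smul, smul_sum]

lemma lc_zero {c : α → ℝ} {S : Finset α} (h : ∀ e ∈ S, c e = 0) : lc v c S = 0 :=
  sum_eq_zero fun e he => by rw [h e he, zero_smul]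

lemma lc_ext (c : α → ℝ) {S T : Finset α} (h : S ⊆ T) :
    lc v (fun e => if e ∈ S then c e else 0) T = lc v c S := by
  rw [lc_subset h (fun e _ hn => by simp [hn])]
  exact lc_congr fun e he => by simp [he]

lemma lc_split (c : α → ℝ) (S A : Finset α) : lc v c S = lc v c (S ∩ A) + lc v c (S \ A) := by
  unfold lc; rw [sum_inter_add_sum_sdiff]

lemma lc_single (c : α → ℝ) (e : α) : lc v c {e} = c e • v e := by simp [lc]

lemma map_lc (u : V →ₗ[ℝ] ℝ) (c : α → ℝ) (S : Finset α) :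
    u (lc v c S) = ∑ e ∈ S, c e * u (v e) := by
  simp [lc, map_sum]

/-! independence and circuits -/

lemma Ind.mono {S T : Finset α} (h : Ind v U T) (hs : S ⊆ T) : Ind v U S := by
  intro c hc e he
  have := h (fun e => if e ∈ S then c e else 0) (by rwa [lc_ext c hs]) e (hs he)
  simpa [he] using this

lemma Circ.ind {C S : Finset α} (h : Circ v U C) (hs : S ⊆ C) {x : α} (hx : x ∈ C) (hn : x ∉ S) :
    Ind v U S := by
  intro c hc e he
  have := h.2.2 (fun e => if e ∈ S then c e else 0) (by rwa [lc_ext c hs]) x hx (by simp [hn]) e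
    (hs he)
  simpa [he] using this

lemma Circ.not_ind {C : Finset α} (h : Circ v U C) : ¬ Ind v U C := by
  obtain ⟨⟨x, hx⟩, ⟨c, hc, hcU⟩, -⟩ := h
  exact fun hi => hc x hx (hi c hcU x hx)

lemma Circ.eq_of_subset {C C' : Finset α} (h : Circ v U C) (h' : Circ v U C') (hs : C' ⊆ C) :
    C' = C := by
  by_contra hne
  obtain ⟨x, hx, hn⟩ := exists_of_ssubset (lt_of_le_of_ne hs hne)
  exact h'.not_ind (h.ind hs hx hn)

/-- relations on a circuit are proportional -/
lemma Circ.prop {C : Finset α} (h : Circ v U C) {c c' : α → ℝ} (hc : ∀ e ∈ C, c e ≠ 0)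
    (hcU : lc v c C ∈ U) (hc' : lc v c' C ∈ U) : ∃ t : ℝ, ∀ e ∈ C, c' e = t * c e := by
  obtain ⟨x, hx⟩ := h.1
  refine ⟨c' x / c x, fun e he => ?_⟩
  have := h.2.2 (fun e => c' e - c' x / c x * c e)
    (by rw [lc_sub]; exact U.sub_mem hc' (U.smul_mem _ hcU)) x hx
    (by have := hc x hx; field_simp; ring) e he
  linarith

lemma circ_of_prop {C : Finset α} (hne : C.Nonempty) {c : α → ℝ} (hc : ∀ e ∈ C, c e ≠ 0)
    (hcU : lc v c C ∈ U) (h : ∀ c' : α → ℝ, lc v c' C ∈ U → ∃ t : ℝ, ∀ e ∈ C, c' e = t * c e) :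
    Circ v U C := by
  refine ⟨hne, ⟨c, hc, hcU⟩, fun c' hc' x hx h0 e he => ?_⟩
  obtain ⟨t, ht⟩ := h c' hc'
  have : t = 0 := by
    have := ht x hx
    rw [h0] at this
    exact (mul_eq_zero.1 this.symm).resolve_right (hc x hx)
  rw [ht e he, this, zero_mul]

/-- extraction of a circuit from a relation -/
lemma exists_circ {W : Type*} [AddCommGroup W] [Module ℝ W] (ψ : (α → ℝ) →ₗ[ℝ] W)
    (N : Submodule ℝ W) (S : Finset α) (c : α → ℝ) (hS : ∀ e, e ∉ S → c e = 0)
    (hc : lc v c S ∈ U) (hψ : ψ c ∉ N) :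
    ∃ C ⊆ S, Circ v U C ∧ ∃ c' : α → ℝ, (∀ e, e ∉ C → c' e = 0) ∧ (∀ e ∈ C, c' e ≠ 0) ∧
      lc v c' C ∈ U ∧ ψ c' ∉ N := by
  induction' hn : S.card using Nat.strong_induction_on with n ih generalizing S c
  by_cases h1 : ∃ x ∈ S, c x = 0
  · obtain ⟨x, hx, h0⟩ := h1
    obtain ⟨C, hC, hr⟩ := ih _ (by rw [← hn]; exact card_erase_lt_of_mem hx) (S.erase x) c
      (fun e he => by
        by_cases hex : e = x
        · rw [hex, h0]
        · exact hS e fun h => he (mem_erase.2 ⟨hex, h⟩))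
      (by
        rw [← lc_subset (erase_subset x S) (fun e he hn => by
          have : e = x := by by_contra h; exact hn (mem_erase.2 ⟨h, he⟩)
          rw [this, h0])]
        exact hc) hψ rfl
    exact ⟨C, hC.trans (erase_subset x S), hr⟩
  push Not at h1
  have hne : S.Nonempty := by
    by_contra h
    rw [not_nonempty_iff_eq_empty] at h
    have : c = 0 := by ext e; exact hS e (by simp [h])
    exact hψ (by rw [this, map_zero]; exact N.zero_mem)
  by_cases h2 : Circ v U S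
  · exact ⟨S, Subset.refl _, h2, c, hS, h1, hc, hψ⟩
  have : ∃ c' : α → ℝ, lc v c' S ∈ U ∧ (∃ x ∈ S, c' x = 0) ∧ ∃ e ∈ S, c' e ≠ 0 := by
    by_contra h
    push Not at h
    exact h2 ⟨hne, ⟨c, h1, hc⟩, fun c' hc' x hx h0 => h c' hc' ⟨x, hx, h0⟩⟩
  obtain ⟨c', hc', ⟨x, hx, hx0⟩, y, hy, hy0⟩ := this
  set d : α → ℝ := fun e => if e ∈ S then c' e else 0 with hd
  have hdS : lc v d S ∈ U := by rw [hd, lc_ext c' (Subset.refl S)]; exact hc'
  have key : ∀ (z : α) (g : α → ℝ), z ∈ S → g z = 0 → (∀ e, e ∉ S → g e = 0) → lc v g S ∈ U →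
      ψ g ∉ N → ∃ C ⊆ S, Circ v U C ∧ ∃ c' : α → ℝ, (∀ e, e ∉ C → c' e = 0) ∧
        (∀ e ∈ C, c' e ≠ 0) ∧ lc v c' C ∈ U ∧ ψ c' ∉ N := by
    intro z g hz hg0 hgS hgU hgψ
    obtain ⟨C, hC, hr⟩ := ih _ (by rw [← hn]; exact card_erase_lt_of_mem hz) (S.erase z) g
      (fun e he => by
        by_cases hex : e = z
        · rw [hex, hg0]
        · exact hgS e fun h => he (mem_erase.2 ⟨hex, h⟩))
      (by
        rw [← lc_subset (erase_subset z S) (fun e he hn => by
          have : e = z := by by_contra h; exact hn (mem_erase.2 ⟨h, he⟩)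
          rw [this, hg0])]
        exact hgU) hgψ rfl
    exact ⟨C, hC.trans (erase_subset z S), hr⟩
  by_cases h3 : ψ d ∈ N
  · refine key y (fun e => c e - c y / c' y * d e) hy ?_ ?_ ?_ ?_
    · simp only [hd, hy, if_true]; field_simp; ring
    · intro e he; simp [hd, he, hS e he]
    · rw [lc_sub]; exact U.sub_mem hc (U.smul_mem _ hdS)
    · intro hN
      have : (fun e => c e - c y / c' y * d e) = c - (c y / c' y) • d := by ext e; simp
      rw [this, map_sub, map_smul] at hN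
      apply hψ
      have := N.add_mem hN (N.smul_mem (c y / c' y) h3)
      simpa using this
  · exact key x d hx (by simp [hd, hx, hx0]) (fun e he => by simp [hd, he]) hdS h3

lemma exists_circ_mem {S : Finset α} {c : α → ℝ} (hc : lc v c S ∈ U) {x : α} (hx : x ∈ S)
    (h0 : c x ≠ 0) : ∃ C ⊆ S, Circ v U C ∧ x ∈ C := by
  obtain ⟨C, hC, h1, c', h2, -, -, h5⟩ := exists_circ (v := v) (U := U)
    (LinearMap.proj x : (α → ℝ) →ₗ[ℝ] ℝ) ⊥ S (fun e => if e ∈ S then c e else 0)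
    (fun e he => by simp [he]) (by rwa [lc_ext c (Subset.refl S)]) (by simpa [hx] using h0)
  refine ⟨C, hC, h1, ?_⟩
  by_contra h
  exact h5 (by simpa using h2 x h)

def lcMap (v : α → V) (S : Finset α) : (α → ℝ) →ₗ[ℝ] V where
  toFun c := lc v c S
  map_add' c c' := by simp [lc, add_smul, sum_add_distrib]
  map_smul' t c := by simp [lc, mul_smul, smul_sum]

lemma exists_circ_cross {A B : Finset α} (hd : Disjoint A B) (h : ¬ Skew v U A B) :
    ∃ C ⊆ A ∪ B, Circ v U C ∧ (∃ x ∈ C, x ∈ A) ∧ ∃ y ∈ C, y ∈ B := by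
  unfold Skew at h
  push Not at h
  obtain ⟨x, hA, hB, hx⟩ := h
  obtain ⟨a, ha⟩ := mem_sp.1 hA
  obtain ⟨b, hb⟩ := mem_sp.1 hB
  set c : α → ℝ := fun e => if e ∈ A then a e else if e ∈ B then - b e else 0 with hc
  have h1 : lc v c A = lc v a A := lc_congr fun e he => by simp [hc, he]
  have h2 : lc v c B = - lc v b B := by
    rw [← neg_one_smul ℝ, ← lc_smul]
    exact lc_congr fun e he => by simp [hc, he, disjoint_right.1 hd he]
  obtain ⟨C, hC, hcirc, c', h3, h4, h5, h6⟩ := exists_circ (v := v) (U := U) (lcMap v A) U (A ∪ B) c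
    (fun e he => by
      rw [mem_union, not_or] at he
      simp [hc, he.1, he.2])
    (by
      rw [lc_union hd, h1, h2]
      have := U.sub_mem ha hb
      convert this using 1; abel)
    (by
      intro hN
      change lc v c A ∈ U at hN
      rw [h1] at hN
      have := U.sub_mem hN ha
      exact hx (by simpa using this))
  change lc v c' A ∉ U at h6
  refine ⟨C, hC, hcirc, ?_, ?_⟩
  · by_contra h
    push Not at h
    exact h6 (by rw [lc_zero fun e he => h3 e fun hh => h e hh he]; exact U.zero_mem)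
  · by_contra h
    push Not at h
    have hCA : C ⊆ A := fun e he => (mem_union.1 (hC he)).resolve_right (h e he)
    exact h6 (by rw [lc_subset hCA fun e _ hn => h3 e hn]; exact h5)

/-- orthogonality -/
lemma Circ.ortho {C : Finset α} (h : Circ v U C) {u : V →ₗ[ℝ] ℝ} (hU : ∀ x ∈ U, u x = 0) {x : α}
    (hx : x ∈ C) (h0 : u (v x) ≠ 0) : ∃ y ∈ C, y ≠ x ∧ u (v y) ≠ 0 := by
  obtain ⟨-, ⟨c, hc, hcU⟩, -⟩ := h
  by_contra hn
  push Not at hn
  have := hU _ hcU
  rw [map_lc, sum_eq_single_of_mem x hx (fun y hy hne => by rw [hn y hy hne, mul_zero])] at this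
  exact mul_ne_zero (hc x hx) h0 this

/-! skew sets -/

lemma Skew.symm {A B : Finset α} (h : Skew v U A B) : Skew v U B A := fun x a b => h x b a

lemma Skew.mono {A B A' B' : Finset α} (h : Skew v U A B) (hA : A' ⊆ A) (hB : B' ⊆ B) :
    Skew v U A' B' := fun x a b => h x (sp_mono' hA a) (sp_mono' hB b)

lemma Skew.of_le {A B B' : Finset α} (h : Skew v U A B) (hB : sp v U B' ≤ sp v U B) :
    Skew v U A B' := fun x a b => h x a (hB b)

lemma Skew.add {A B : Finset α} (h : Skew v U A B) {a b : V} (ha : a ∈ sp v U A)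
    (hb : b ∈ sp v U B) (hab : a + b ∈ U) : a ∈ U ∧ b ∈ U := by
  have h1 : a ∈ U := h a ha (by
    have : a = (a + b) - b := by abel
    rw [this]; exact Submodule.sub_mem _ (mem_sp_of_mem_U hab) hb)
  exact ⟨h1, by simpa using U.sub_mem hab h1⟩

lemma Skew.assoc {A B C : Finset α} (h1 : Skew v U A B) (h2 : Skew v U (A ∪ B) C) :
    Skew v U A (B ∪ C) := by
  intro x hA hBC
  obtain ⟨b, hb, c, hc, rfl⟩ := mem_sp_union hBC
  have hcU : c ∈ U := h2 c (by
    have : c = (b + c) - b := by abel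
    rw [this]
    exact Submodule.sub_mem _ (sp_mono' subset_union_left hA) (sp_mono' subset_union_right hb)) hc
  have hbU : b ∈ U := h1 b (by
    have : b = (b + c) - c := by abel
    rw [this]
    exact Submodule.sub_mem _ hA (mem_sp_of_mem_U hcU)) hb
  exact U.add_mem hbU hcU

lemma Circ.conn {C : Finset α} (h : Circ v U C) {A : Finset α} (hA : A ⊆ C)
    (hs : Skew v U A (C \ A)) : A = ∅ ∨ A = C := by
  by_contra hn
  push Not at hn
  obtain ⟨⟨x, hx⟩, hne⟩ := hn
  obtain ⟨y, hy, hyA⟩ := exists_of_ssubset (lt_of_le_of_ne hA hne)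
  obtain ⟨c, hc, hcU⟩ := h.2.1
  rw [lc_split c C A, inter_eq_right.2 hA] at hcU
  have := (hs.add (lc_mem_sp _ _) (lc_mem_sp _ _) hcU).1
  exact hc x (hA hx) (h.ind hA hy hyA c this x hx)

/-- a connected set inside a skew union lies on one side -/
lemma side_of_skew {F A B : Finset α} (hF : ∀ X ⊆ F, Skew v U X (F \ X) → X = ∅ ∨ X = F)
    (hs : Skew v U A B) (hsub : F ⊆ A ∪ B) : F ⊆ A ∨ F ⊆ B := by
  have h1 : F \ (F ∩ A) ⊆ B := by
    intro e he
    rw [mem_sdiff, mem_inter] at he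
    exact (mem_union.1 (hsub he.1)).resolve_left fun h => he.2 ⟨he.1, h⟩
  rcases hF (F ∩ A) inter_subset_left (hs.mono inter_subset_right h1) with h | h
  · right; rw [h, sdiff_empty] at h1; exact h1
  · left; exact inter_eq_left.1 h

/-- the component of `L` that contains a connected set `F` -/
lemma exists_component {F L : Finset α} (hFL : F ⊆ L)
    (hF : ∀ X ⊆ F, Skew v U X (F \ X) → X = ∅ ∨ X = F) (hFF : ¬ Skew v U F F) :
    ∃ K, F ⊆ K ∧ K ⊆ L ∧ Skew v U K (L \ K) ∧ Conn v U K := by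
  obtain ⟨K, hK, hmin⟩ := exists_min_image
    (L.powerset.filter fun K => F ⊆ K ∧ Skew v U K (L \ K)) card
    ⟨L, by
      simp only [mem_filter, mem_powerset, Subset.refl, hFL, true_and, sdiff_self]
      intro x _ hx
      rwa [show (⊥ : Finset α) = ∅ from rfl, sp_empty] at hx⟩
  simp only [mem_filter, mem_powerset] at hK hmin
  obtain ⟨hKL, hFK, hs⟩ := hK
  have step : ∀ A ⊆ K, F ⊆ A → Skew v U A (K \ A) → A = K := by
    intro A hA hFA hsA
    have h1 : Skew v U A (L \ A) := by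
      have := hsA.assoc (C := L \ K) (by rwa [union_sdiff_of_subset hA])
      refine this.mono (Subset.refl _) fun e he => ?_
      rw [mem_sdiff] at he
      by_cases hk : e ∈ K
      · exact mem_union_left _ (mem_sdiff.2 ⟨hk, he.2⟩)
      · exact mem_union_right _ (mem_sdiff.2 ⟨he.1, hk⟩)
    exact eq_of_subset_of_card_le hA (hmin A ⟨hA.trans hKL, hFA, h1⟩)
  have hc : ∀ A ⊆ K, Skew v U A (K \ A) → A = ∅ ∨ A = K := by
    intro A hA hsA
    rcases side_of_skew hF hsA (by rw [union_sdiff_of_subset hA]; exact hFK) with h | h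
    · exact Or.inr (step A hA h hsA)
    · left
      have := step (K \ A) sdiff_subset h (by rw [Finset.sdiff_sdiff_eq_self hA]; exact hsA.symm)
      rw [Finset.sdiff_eq_self_iff_disjoint] at this
      exact disjoint_self_iff_empty A |>.1 (this.mono_left hA)
  refine ⟨K, hFK, hKL, hs, fun e he heU => ?_, hc⟩
  have hle : sp v U {e} ≤ U := sp_le le_rfl (by simpa using heU)
  rcases hc {e} (by simpa using he) (fun x hx _ => hle hx) with h | h
  · simp at h
  · exact hFF fun x hx _ => hle (sp_mono' (h ▸ hFK) hx)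

/-! vertices -/

lemma Vert.mono {U' : Submodule ℝ V} {K K' T : Finset α} {u : V →ₗ[ℝ] ℝ} (h : Vert v U' K' u)
    (hU : U ≤ U') (hK : K' ⊆ K) (hsp : sp v U K ≤ sp v U' K') (hT : T ⊆ K)
    (hT1 : U' ≤ sp v U T) (hT2 : ∀ e ∈ T, v e ∈ U') : Vert v U K u := by
  obtain ⟨h1, ⟨e, he, h2⟩, h3⟩ := h
  refine ⟨fun x hx => h1 x (hU hx), ⟨e, hK he, h2⟩, fun x hx h0 => ?_⟩
  refine sp_le (hT1.trans (sp_mono' fun e he => ?_)) (fun e he => mem_sp_of_mem ?_)
    (h3 x (hsp hx) h0)
  · exact mem_filter.2 ⟨hT he, h1 _ (hT2 e he)⟩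
  · exact mem_filter.2 ⟨hK (mem_filter.1 he).1, (mem_filter.1 he).2⟩

lemma Vert.smul {E : Finset α} {u : V →ₗ[ℝ] ℝ} (h : Vert v U E u) {t : ℝ} (ht : t ≠ 0) :
    Vert v U E (t • u) := by
  obtain ⟨h1, ⟨e, he, h2⟩, h3⟩ := h
  refine ⟨fun x hx => by simp [h1 x hx], ⟨e, he, by simp [ht, h2]⟩, fun x hx h0 => ?_⟩
  have : (E.filter fun e => (t • u) (v e) = 0) = E.filter fun e => u (v e) = 0 := by
    ext e; simp [ht]
  rw [this]
  exact h3 x hx (by simpa [ht] using h0)

lemma exists_vert {E S : Finset α} (hS : S ⊆ E) {p : α} (hp : p ∈ E) (h : v p ∉ sp v U S) :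
    ∃ u, Vert v U E u ∧ u (v p) ≠ 0 ∧ ∀ e ∈ S, u (v e) = 0 := by
  obtain ⟨T, hT, hmax⟩ := exists_max_image
    (E.powerset.filter fun T => S ⊆ T ∧ v p ∉ sp v U T) card ⟨S, by simp [hS, h]⟩
  simp only [mem_filter, mem_powerset] at hT hmax
  obtain ⟨hTE, hST, hpT⟩ := hT
  obtain ⟨u, hu, hu0⟩ := Submodule.exists_dual_map_eq_bot_of_notMem hpT inferInstance
  have hz : ∀ x ∈ sp v U T, u x = 0 := fun x hx => by
    have : u x ∈ (sp v U T).map u := Submodule.mem_map_of_mem hx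
    rwa [hu0, Submodule.mem_bot] at this
  have hE : sp v U E ≤ sp v U (T ∪ {p}) := by
    refine sp_le (le_sp _) fun e he => ?_
    by_cases heT : e ∈ T
    · exact mem_sp_of_mem (mem_union_left _ heT)
    have h1 : v p ∈ sp v U (T ∪ {e}) := by
      by_contra hn
      have := hmax (T ∪ {e}) ⟨union_subset hTE (by simpa using he),
        hST.trans subset_union_left, hn⟩
      rw [card_union_of_disjoint (by simpa using heT), card_singleton] at this
      omega
    obtain ⟨a, ha, b, hb, hab⟩ := mem_sp_union h1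
    obtain ⟨t, ht⟩ := mem_sp_single.1 hb
    have ht0 : t ≠ 0 := by
      rintro rfl
      apply hpT
      rw [← hab]
      exact Submodule.add_mem _ ha (mem_sp_of_mem_U (by simpa using ht))
    have : v e = t⁻¹ • ((t • v e - b) + v p - a) := by
      rw [← hab, show t • v e - b + (a + b) - a = t • v e by abel, smul_smul,
        inv_mul_cancel₀ ht0, one_smul]
    rw [this]
    exact Submodule.smul_mem _ _ (Submodule.sub_mem _ (Submodule.add_mem _ (mem_sp_of_mem_U ht)
      (mem_sp_of_mem (by simp))) (sp_mono' subset_union_left ha))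
  refine ⟨u, ⟨fun x hx => hz x (mem_sp_of_mem_U hx), ⟨p, hp, hu⟩, fun x hx h0 => ?_⟩, hu,
    fun e he => hz _ (mem_sp_of_mem (hST he))⟩
  obtain ⟨a, ha, b, hb, rfl⟩ := mem_sp_union (hE hx)
  obtain ⟨t, ht⟩ := mem_sp_single.1 hb
  have h1 := hz _ (mem_sp_of_mem_U ht)
  rw [map_add, hz a ha, zero_add] at h0
  rw [map_sub, h0, map_smul, sub_zero, smul_eq_mul] at h1
  have ht0 : t = 0 := (mul_eq_zero.1 h1).resolve_right hu
  subst ht0
  refine Submodule.add_mem _ (sp_mono' (fun e he => ?_) ha) (mem_sp_of_mem_U (by simpa using ht))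
  exact mem_filter.2 ⟨hTE he, hz _ (mem_sp_of_mem he)⟩

end

end Pool.Agent.Vertigan
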