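import Pool.Agent.P.MP_b00834_co.Tutte

set_option autoImplicit false

/-! A vertex that meets every member of a family of pairwise non-skew connected sets. -/

namespace Pool.Agent.Vertigan

open Finset
open scoped Classical

noncomputable section

variable {α V : Type*} [AddCommGroup V] [Module ℝ V] {v : α → V} {U : Submodule ℝ V}

lemma Ind.notMem_sp {T : Finset α} (h : Ind v U T) {x : α} (hx : x ∈ T) :
    v x ∉ sp v U (T.erase x) := by
  intro hm
  obtain ⟨c, hc⟩ := mem_sp.1 hm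
  have hup : ∀ f ∈ T.erase x, Function.update c x (-1) f = c f := fun f hf =>
    Function.update_of_ne (ne_of_mem_erase hf) _ _
  have := h (Function.update c x (-1)) (by
    rw [← insert_erase hx, lc_insert (notMem_erase x T), lc_congr hup, Function.update_self]
    convert hc using 1
    rw [neg_smul, one_smul]; abel) x hx
  simp at this

lemma Circ.mem_sp_erase {C : Finset α} (h : Circ v U C) {x : α} (hx : x ∈ C) :
    v x ∈ sp v U (C.erase x) := by
  obtain ⟨c, hc, hcU⟩ := h.2.1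
  rw [← insert_erase hx, lc_insert (notMem_erase x C)] at hcU
  refine mem_of_smul_sub (hc x hx) (x := - lc v c (C.erase x)) ?_
    (Submodule.neg_mem _ (lc_mem_sp _ _))
  rw [sub_neg_eq_add]
  exact mem_sp_of_mem_U hcU

lemma exists_vert_all {K : Finset α} (h : Conn v U K) (hK : K.Nonempty) (y : V) (Z : Set V)
    (hZ : ∀ z ∈ Z, z ∈ sp v U K ∧ z ∉ U)
    (hy : ∀ u, Vert v U K u → u y ≠ 0 ∧ ∀ z ∈ Z, 0 ≤ u z * u y) :
    ∃ u, Vert v U K u ∧ ∀ z ∈ Z, u z ≠ 0 := by
  induction' hn : K.card using Nat.strong_induction_on with n ih generalizing K U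
  by_cases h1 : ∃ e ∈ K, (K.erase e).Nonempty ∧ ∀ z ∈ Z, z ∉ sp v U {e}
  · obtain ⟨e, he, hne, hz⟩ := h1
    obtain ⟨U', h2, h3, h4, -, h5⟩ := removal h he hne
    obtain ⟨u, hu, hu'⟩ := ih _ (by rw [← hn]; exact card_erase_lt_of_mem he) h2 hne
      (fun z hz' => ⟨h4 (hZ z hz').1, fun hh => hz z hz' (h3 hh)⟩) (fun u hu => hy u (h5 u hu)) rfl
    exact ⟨u, h5 u hu, hu'⟩
  obtain ⟨e0, he0⟩ := hK
  have rank1 : ∀ e ∈ K, v e ∈ sp v U {e0} := by
    intro e he
    by_cases hee : e = e0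
    · rw [hee]; exact mem_sp_of_mem (mem_singleton_self _)
    have h2 : ∀ x ∈ K, ∃ t : ℝ, t ≠ 0 ∧ ∀ u, Vert v U K u → 0 ≤ t * (u (v x) * u y) := by
      intro x hx
      have hne : (K.erase x).Nonempty := by
        by_cases hxe : x = e
        · exact ⟨e0, mem_erase.2 ⟨fun hh => hee (hxe.symm.trans hh.symm), he0⟩⟩
        · exact ⟨e, mem_erase.2 ⟨fun hh => hxe hh.symm, he⟩⟩
      have : ∃ z ∈ Z, z ∈ sp v U {x} := by
        by_contra hn
        push Not at hn
        exact h1 ⟨x, hx, hne, hn⟩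
      obtain ⟨z, hz, hzx⟩ := this
      obtain ⟨t, ht⟩ := mem_sp_single.1 hzx
      refine ⟨t, ?_, fun u hu => ?_⟩
      · rintro rfl
        exact (hZ z hz).2 (mem_of_zero_smul_sub ht)
      · have h3 := hu.1 _ ht
        rw [map_sub, map_smul, smul_eq_mul, sub_eq_zero] at h3
        rw [← mul_assoc, h3]
        exact (hy u hu).2 z hz
    choose! σ hσ using h2
    obtain ⟨C, hC, hc, heC, he0C⟩ := h.two he he0 hee
    obtain ⟨c, hc0, hcU⟩ := hc.2.1
    have key : ∀ x ∈ C, ∀ x' ∈ C, x ≠ x' → ¬ 0 < (c x * σ x) * (c x' * σ x') := by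
      intro x hx x' hx' hxx hpos
      have hi : Ind v U (C.erase x') := hc.ind (erase_subset _ _) hx' (notMem_erase _ _)
      have hxe : x ∈ C.erase x' := mem_erase.2 ⟨hxx, hx⟩
      obtain ⟨u, hu, hux, hu0⟩ := exists_vert (v := v) (U := U)
        (((erase_subset x _).trans (erase_subset x' C)).trans hC) (hC hx) (hi.notMem_sp hxe)
      have h3 := hu.1 _ hcU
      rw [map_lc, ← add_sum_erase _ _ hx', ← add_sum_erase _ _ hxe,
        sum_eq_zero (fun f hf => by rw [hu0 f hf, mul_zero]), add_zero] at h3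
      obtain ⟨hs, hA⟩ := hσ x (hC hx)
      obtain ⟨hs', hB⟩ := hσ x' (hC hx')
      have hA := hA u hu
      have hB := hB u hu
      have hy0 := (hy u hu).1
      set A := u (v x) * u y with hAd
      set B := u (v x') * u y with hBd
      have h4 : c x' * B + c x * A = 0 := by
        rw [hAd, hBd, ← mul_assoc, ← mul_assoc, ← add_mul, h3, zero_mul]
      have hA' : 0 < σ x * A := lt_of_le_of_ne hA (mul_ne_zero hs (mul_ne_zero hux hy0)).symm
      have h5 : 0 < (c x * σ x) ^ 2 * (σ x * A) * σ x' ^ 2 :=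
        mul_pos (mul_pos (sq_pos_of_ne_zero (mul_ne_zero (hc0 x hx) hs)) hA') (sq_pos_of_ne_zero hs')
      have h6 : 0 ≤ (c x * σ x) * (c x' * σ x') * (σ x' * B) * σ x ^ 2 :=
        mul_nonneg (mul_nonneg hpos.le hB) (sq_nonneg _)
      have h7 : (c x * σ x) ^ 2 * (σ x * A) * σ x' ^ 2 +
          (c x * σ x) * (c x' * σ x') * (σ x' * B) * σ x ^ 2 =
          (c x * σ x) * σ x ^ 2 * σ x' ^ 2 * (c x' * B + c x * A) := by ring
      rw [h4, mul_zero] at h7
      linarith
    have hsub : C.erase e ⊆ {e0} := by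
      intro g hg
      obtain ⟨hge, hg⟩ := mem_erase.1 hg
      by_contra hg0
      rw [mem_singleton] at hg0
      have n1 := mul_ne_zero (hc0 e heC) (hσ e (hC heC)).1
      have n2 := mul_ne_zero (hc0 e0 he0C) (hσ e0 (hC he0C)).1
      have n3 := mul_ne_zero (hc0 g hg) (hσ g (hC hg)).1
      have k1 := key e heC e0 he0C hee
      have k2 := key g hg e heC hge
      have k3 := key g hg e0 he0C hg0
      rcases n1.lt_or_gt with p1 | p1 <;> rcases n2.lt_or_gt with p2 | p2 <;>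
        rcases n3.lt_or_gt with p3 | p3
      all_goals first
        | exact k1 (mul_pos p1 p2) | exact k1 (mul_pos_of_neg_of_neg p1 p2)
        | exact k2 (mul_pos p3 p1) | exact k2 (mul_pos_of_neg_of_neg p3 p1)
        | exact k3 (mul_pos p3 p2) | exact k3 (mul_pos_of_neg_of_neg p3 p2)
    exact sp_mono' hsub (hc.mem_sp_erase heC)
  obtain ⟨u, hu, hu0, -⟩ := exists_vert (v := v) (U := U) (empty_subset K) he0
    (by rw [sp_empty]; exact h.1 e0 he0)
  refine ⟨u, hu, fun z hz => ?_⟩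
  obtain ⟨t, ht⟩ := mem_sp_single.1 (sp_le (le_sp _) rank1 (hZ z hz).1)
  have h3 := hu.1 _ ht
  rw [map_sub, map_smul, smul_eq_mul, sub_eq_zero] at h3
  rw [← h3]
  refine mul_ne_zero ?_ hu0
  rintro rfl
  exact (hZ z hz).2 (mem_of_zero_smul_sub ht)

lemma exists_generic (E : Finset α) : ∃ y ∈ sp v U E, ∀ u, Vert v U E u → u y ≠ 0 := by
  obtain ⟨⟨y, hy⟩, h⟩ := Submodule.exists_forall_notMem_of_forall_ne_top
    (ι := {T : E.powerset // ¬ sp v U E ≤ sp v U T.1})
    (fun T => (sp v U T.1.1).comap (sp v U E).subtype)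
    (fun T hT => T.2 (Submodule.comap_subtype_eq_top.1 hT))
  refine ⟨y, hy, fun u hu h0 => ?_⟩
  refine h ⟨⟨E.filter fun e => u (v e) = 0, mem_powerset.2 (filter_subset _ _)⟩, fun hle => ?_⟩
    (hu.2.2 y hy h0)
  obtain ⟨e, he, he0⟩ := hu.2.1
  exact he0 (map_sp_zero hu.1 (fun f hf => (mem_filter.1 hf).2) (hle (mem_sp_of_mem he)))

lemma Conn.of_skew {K R : Finset α} (h : Conn v U K) (hs : Skew v U K R) :
    Conn v (sp v U R) K := by
  refine ⟨fun e he hm => h.1 e he (hs _ (mem_sp_of_mem he) hm), fun A hA hs' => h.2 A hA ?_⟩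
  intro x hx hx'
  exact hs x (sp_mono' hA hx) (hs' x (sp_mono (le_sp _) (Subset.refl _) hx)
    (sp_mono (le_sp _) (Subset.refl _) hx'))

/-- among normalised vertices with a property, one minimises a value -/
lemma exists_min_vert {K : Finset α} {y x : V} (hy : y ∈ sp v U K) (hx : x ∈ sp v U K) (ε : ℝ)
    (P : (V →ₗ[ℝ] ℝ) → Prop) (hP : ∀ u, P u → Vert v U K u ∧ u y = 1) (hne : ∃ u, P u) :
    ∃ u, P u ∧ ∀ u', P u' → ε * u x ≤ ε * u' x := by
  have same : ∀ u u', P u → P u' →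
      (K.filter fun e => u (v e) = 0) = (K.filter fun e => u' (v e) = 0) → u x = u' x := by
    intro u u' hu hu' he
    obtain ⟨h1, h2⟩ := hP u hu
    obtain ⟨h3, h4⟩ := hP u' hu'
    have h5 := h1.2.2 (x - u x • y) (Submodule.sub_mem _ hx (Submodule.smul_mem _ _ hy))
      (by simp [h2])
    rw [he] at h5
    have h6 := map_sp_zero h3.1 (fun f hf => (mem_filter.1 hf).2) h5
    rw [map_sub, map_smul, h4, smul_eq_mul, mul_one, sub_eq_zero] at h6
    exact h6.symm
  have hfin : Set.Finite ((fun u : V →ₗ[ℝ] ℝ => u x) '' {u | P u}) := by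
    refine Set.Finite.subset (Set.Finite.image (fun T : Finset α =>
      if h : ∃ u, P u ∧ (K.filter fun e => u (v e) = 0) = T then h.choose x else 0)
      K.powerset.finite_toSet) ?_
    rintro _ ⟨u, hu, rfl⟩
    have h : ∃ u', P u' ∧ (K.filter fun e => u' (v e) = 0) = K.filter fun e => u (v e) = 0 :=
      ⟨u, hu, rfl⟩
    refine ⟨K.filter fun e => u (v e) = 0, mem_coe.2 (mem_powerset.2 (filter_subset _ _)), ?_⟩
    simp only [dif_pos h]
    exact same _ _ h.choose_spec.1 hu h.choose_spec.2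
  obtain ⟨u0, hu0⟩ := hne
  obtain ⟨_, ⟨u, hu, rfl⟩, hmin⟩ := Set.exists_min_image _ (fun r => ε * r) hfin ⟨_, u0, hu0, rfl⟩
  exact ⟨u, hu, fun u' hu' => hmin _ ⟨u', hu', rfl⟩⟩

lemma mem_sp_of_insert {S : Finset α} {f : α} {u : V →ₗ[ℝ] ℝ} (hU : ∀ x ∈ U, u x = 0)
    (hS : ∀ e ∈ S, u (v e) = 0) (hf : u (v f) ≠ 0) {x : V} (hx : x ∈ sp v U (S ∪ {f}))
    (h0 : u x = 0) : x ∈ sp v U S := by
  obtain ⟨a, ha, b, hb, rfl⟩ := mem_sp_union hx
  obtain ⟨t, ht⟩ := mem_sp_single.1 hb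
  have h1 := hU _ ht
  rw [map_add, map_sp_zero hU hS ha, zero_add] at h0
  rw [map_sub, h0, map_smul, sub_zero, smul_eq_mul] at h1
  have ht0 : t = 0 := (mul_eq_zero.1 h1).resolve_right hf
  subst ht0
  exact Submodule.add_mem _ ha (mem_sp_of_mem_U (mem_of_zero_smul_sub ht))

lemma Vert.sp_le_insert {K : Finset α} {u : V →ₗ[ℝ] ℝ} (h : Vert v U K u) {f : α} (hf : f ∈ K)
    (h0 : u (v f) ≠ 0) : sp v U K ≤ sp v U ((K.filter fun e => u (v e) = 0) ∪ {f}) := by
  intro x hx
  have h1 := h.2.2 (x - (u x / u (v f)) • v f)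
    (Submodule.sub_mem _ hx (Submodule.smul_mem _ _ (mem_sp_of_mem hf)))
    (by rw [map_sub, map_smul, smul_eq_mul, div_mul_cancel₀ _ h0, sub_self])
  rw [show x = (x - (u x / u (v f)) • v f) + (u x / u (v f)) • v f by abel]
  exact Submodule.add_mem _ (sp_mono' subset_union_left h1)
    (Submodule.smul_mem _ _ (mem_sp_of_mem (by simp)))

lemma bramble_step {E : Finset α} (𝓕 : Set (Finset α)) (hF : ∀ F ∈ 𝓕, F ⊆ E)
    (hc : ∀ F ∈ 𝓕, ∀ X ⊆ F, Skew v U X (F \ X) → X = ∅ ∨ X = F)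
    (hs : ∀ F ∈ 𝓕, ∀ F' ∈ 𝓕, ¬ Skew v U F F')
    (hno : ∀ u, Vert v U E u → ∃ F ∈ 𝓕, ∀ e ∈ F, u (v e) = 0)
    {y : V} (hy : y ∈ sp v U E) (hy0 : ∀ u, Vert v U E u → u y ≠ 0)
    (K R : Finset α) (σ : α → ℝ) (hK : K ⊆ E) (hR : R ⊆ E) (hKR : Skew v U K R)
    (hsp : sp v U E ≤ sp v (sp v U R) K) (hcK : Conn v U K) (hF0 : ∃ F ∈ 𝓕, F ⊆ K)
    (hσ : ∀ e, σ e ≠ 0)
    (hsg : ∀ u, Vert v (sp v U R) K u → ∀ e ∈ E, e ∉ K → 0 ≤ σ e * u (v e) * u y) : False := by
  induction' hn : K.card using Nat.strong_induction_on with n ih generalizing K R σ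
  obtain ⟨F0, hF0, hF0K⟩ := hF0
  set N := sp v U R with hN
  have lift : ∀ u, Vert v N K u → Vert v U E u := fun u hu =>
    hu.mono (T := R) (le_sp _) hK hsp hR le_rfl fun e he => mem_sp_of_mem he
  have hKne : K.Nonempty := by
    by_contra hne
    rw [not_nonempty_iff_eq_empty] at hne
    refine hs F0 hF0 F0 hF0 fun x hx _ => ?_
    have := sp_mono' hF0K hx
    rwa [hne, sp_empty] at this
  obtain ⟨w, hw, hw'⟩ := exists_vert_all (hcK.of_skew hKR) hKne y
    {z | ∃ e ∈ E, e ∉ K ∧ v e ∉ N ∧ z = σ e • v e}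
    (by
      rintro _ ⟨e, he, -, heN, rfl⟩
      exact ⟨Submodule.smul_mem _ _ (hsp (mem_sp_of_mem he)),
        fun hh => heN (mem_of_smul_sub (hσ e) (x := 0) (by simpa using hh) N.zero_mem)⟩)
    (fun u hu => ⟨hy0 u (lift u hu), by
      rintro _ ⟨e, he, heK, -, rfl⟩
      rw [map_smul, smul_eq_mul]
      exact hsg u hu e he heK⟩)
  obtain ⟨f, hf, hf0⟩ := hw.2.1
  have hwy := hy0 w (lift w hw)
  set ε : ℝ := (w y)⁻¹ * w (v f) with hε
  have hε0 : ε ≠ 0 := mul_ne_zero (inv_ne_zero hwy) hf0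
  obtain ⟨u0, ⟨hu0, hu0y, hu0s, hu0f⟩, hmin⟩ := exists_min_vert (v := v) (U := N) (hsp hy)
    (mem_sp_of_mem hf) ε
    (fun u => Vert v N K u ∧ u y = 1 ∧ (∀ e ∈ E, e ∉ K → v e ∉ N → 0 < σ e * u (v e)) ∧
      0 < ε * u (v f)) (fun u hu => ⟨hu.1, hu.2.1⟩)
    ⟨(w y)⁻¹ • w, hw.smul (inv_ne_zero hwy), by simp [hwy], fun e he heK heN => by
      have h1 := hsg w hw e he heK
      have h2 := hw' _ ⟨e, he, heK, heN, rfl⟩
      rw [map_smul, smul_eq_mul] at h2
      have h3 : 0 < σ e * w (v e) * w y := lt_of_le_of_ne h1 (mul_ne_zero h2 hwy).symm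
      have h4 : σ e * ((w y)⁻¹ • w) (v e) = σ e * w (v e) * w y * ((w y)⁻¹) ^ 2 := by
        simp only [LinearMap.smul_apply, smul_eq_mul]; field_simp
      rw [h4]
      exact mul_pos h3 (sq_pos_of_ne_zero (inv_ne_zero hwy)),
      mul_self_pos.2 hε0⟩
  have hu0f' : u0 (v f) ≠ 0 := fun hh => by simp [hh] at hu0f
  set L := K.filter fun e => u0 (v e) = 0 with hL
  have hLK : L ⊆ K := filter_subset _ _
  have hL0 : ∀ e ∈ L, u0 (v e) = 0 := fun e he => (mem_filter.1 he).2
  have hR0 : ∀ e ∈ R, u0 (v e) = 0 := fun e he => hu0.1 _ (mem_sp_of_mem he)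
  have hU0 : ∀ x ∈ U, u0 x = 0 := fun x hx => hu0.1 _ (mem_sp_of_mem_U hx)
  obtain ⟨F, hFm, hFz⟩ := hno u0 (lift u0 hu0)
  have hFL : F ⊆ L := by
    have h1 : Skew v U K (E.filter fun e => v e ∈ N) :=
      hKR.of_le (sp_le (le_sp _) fun e he => (mem_filter.1 he).2)
    have h2 : F ⊆ K ∪ E.filter fun e => v e ∈ N := by
      intro e he
      by_cases heK : e ∈ K
      · exact mem_union_left _ heK
      · refine mem_union_right _ (mem_filter.2 ⟨hF F hFm he, ?_⟩)
        by_contra heN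
        have := hu0s e (hF F hFm he) heK heN
        simp [hFz e he] at this
    rcases side_of_skew (hc F hFm) h1 h2 with h3 | h3
    · exact fun e he => mem_filter.2 ⟨h3 he, hFz e he⟩
    · exact absurd (h1.mono hF0K h3) (hs F0 hF0 F hFm)
  obtain ⟨K', hFK', hK'L, hsk, hcK'⟩ := exists_component hFL (hc F hFm) (hs F hFm F hFm)
  have hfL : f ∉ L := fun hh => hu0f' (hL0 f hh)
  have hsp' : sp v N K ≤ sp v (sp v U ((R ∪ (L \ K')) ∪ {f})) K' := by
    refine (hu0.sp_le_insert hf hu0f').trans ?_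
    rw [hN, sp_sp, sp_sp]
    refine sp_mono' fun e he => ?_
    simp only [mem_union, mem_sdiff, mem_singleton] at he ⊢
    tauto
  have lift' : ∀ u, Vert v (sp v U ((R ∪ (L \ K')) ∪ {f})) K' u → Vert v N K u := fun u hu =>
    hu.mono (T := (L \ K') ∪ {f}) (sp_mono' (subset_union_left.trans subset_union_left))
      (hK'L.trans hLK) hsp' (union_subset (sdiff_subset.trans hLK) (by simpa using hf))
      (by rw [hN, sp_sp, union_assoc])
      (fun e he => mem_sp_of_mem (by rw [union_assoc]; exact mem_union_right _ he))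
  refine ih _ (by
      rw [← hn]
      exact card_lt_card ⟨hK'L.trans hLK, fun hh => hfL (hK'L (hh hf))⟩)
    K' ((R ∪ (L \ K')) ∪ {f}) (fun e => if e ∈ K ∧ e ∉ L then u0 (v e) else σ e)
    ((hK'L.trans hLK).trans hK)
    (union_subset (union_subset hR ((sdiff_subset.trans hLK).trans hK)) (by simpa using hK hf))
    ?_ (hsp.trans hsp') hcK' ⟨F, hFm, hFK'⟩ ?_ ?_ rfl
  · intro x hx hx'
    have h1 := mem_sp_of_insert hU0 (fun e he => by
      rcases mem_union.1 he with h | h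
      · exact hR0 e h
      · exact hL0 e (mem_sdiff.1 h).1) hu0f' hx'
      (map_sp_zero hU0 (fun e he => hL0 e (hK'L he)) hx)
    obtain ⟨r, hr, l, hl, rfl⟩ := mem_sp_union h1
    have h2 : r ∈ U := hKR r (by
      rw [show r = (r + l) - l by abel]
      exact Submodule.sub_mem _ (sp_mono' (hK'L.trans hLK) hx)
        (sp_mono' (sdiff_subset.trans hLK) hl)) hr
    exact hsk _ hx (Submodule.add_mem _ (mem_sp_of_mem_U h2) hl)
  · intro e
    by_cases he : e ∈ K ∧ e ∉ L
    · simp only [he, not_false_eq_true, and_self, if_true]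
      exact fun hh => he.2 (mem_filter.2 ⟨he.1, hh⟩)
    · simp only [he, if_false]; exact hσ e
  · intro u hu g hgE hgK'
    have huK := lift' u hu
    by_cases hg : g ∈ K ∧ g ∉ L
    swap
    · simp only [hg, if_false]
      by_cases hgK : g ∈ K
      · have hgL : g ∈ L := by by_contra hh; exact hg ⟨hgK, hh⟩
        rw [hu.1 (v g) (mem_sp_of_mem (by simp [hgL, hgK']))]
        simp
      · exact hsg u huK g hgE hgK
    simp only [hg, not_false_eq_true, and_self, if_true]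
    by_contra hneg
    push Not at hneg
    have huy := hy0 u (lift u huK)
    -- normalise and interpolate
    set u1 : V →ₗ[ℝ] ℝ := (u y)⁻¹ • u with hu1
    have hu1a : ∀ x, u1 x = u x * u y * ((u y)⁻¹) ^ 2 := fun x => by
      simp only [hu1, LinearMap.smul_apply, smul_eq_mul]; field_simp
    have hq : 0 < ((u y)⁻¹) ^ 2 := sq_pos_of_ne_zero (inv_ne_zero huy)
    have hu1y : u1 y = 1 := by simp [hu1, huy]
    have hneg' : u0 (v g) * u1 (v g) < 0 := by
      rw [hu1a, ← mul_assoc, ← mul_assoc]; exact mul_neg_of_neg_of_pos hneg hq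
    set p := u0 (v g) with hp
    set q := u1 (v g) with hqd
    have hp0 : p ≠ 0 := fun hh => by simp [hh] at hneg'
    have hden : 0 < p * p - p * q := by have := mul_self_pos.2 hp0; linarith
    set t := p * p / (p * p - p * q) with ht
    have ht0 : 0 < t := div_pos (mul_self_pos.2 hp0) hden
    have ht1 : t < 1 := (div_lt_one hden).2 (by linarith)
    have hz : (1 - t) * p + t * q = 0 := by
      have h1 : t * (p * p - p * q) = p * p := div_mul_cancel₀ _ hden.ne'
      have h2 : p * ((1 - t) * p + t * q) = 0 := by linarith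
      exact (mul_eq_zero.1 h2).resolve_left hp0
    set ut : V →ₗ[ℝ] ℝ := (1 - t) • u0 + t • u1 with hut
    have huta : ∀ x, ut x = (1 - t) * u0 x + t * u1 x := fun x => by simp [hut]
    have hu1z : ∀ x, u x = 0 → u1 x = 0 := fun x hx => by rw [hu1a, hx]; simp
    have huf : u1 (v f) = 0 := hu1z _ (hu.1 _ (mem_sp_of_mem (by simp)))
    have hlt : ε * ut (v f) = (1 - t) * (ε * u0 (v f)) := by rw [huta, huf]; ring
    have hvt : Vert v N K ut := by
      refine ⟨fun x hx => by rw [huta, hu0.1 x hx, hu1z x (huK.1 x hx)]; simp,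
        ⟨f, hf, fun hh => ?_⟩, fun x hx hx0 => ?_⟩
      · rw [hh, mul_zero] at hlt
        exact (mul_pos (by linarith) hu0f).ne hlt
      · set x' := x - (u0 x / p) • v g with hx'
        have h1 : x' ∈ sp v N K :=
          Submodule.sub_mem _ hx (Submodule.smul_mem _ _ (mem_sp_of_mem hg.1))
        have h2 : u0 x' = 0 := by
          rw [hx', map_sub, map_smul, smul_eq_mul, ← hp, div_mul_cancel₀ _ hp0, sub_self]
        have hutg : ut (v g) = 0 := by rw [huta]; exact hz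
        have h3 : ut x' = 0 := by rw [hx', map_sub, map_smul, hx0, hutg]; simp
        have h4 : u x' = 0 := by
          rw [huta, h2, mul_zero, zero_add, hu1a] at h3
          have := (mul_eq_zero.1 h3).resolve_left ht0.ne'
          exact (mul_eq_zero.1 ((mul_eq_zero.1 this).resolve_right hq.ne')).resolve_right huy
        have h5 := hu.2.2 x' (hsp' h1) h4
        rw [sp_sp, union_right_comm] at h5
        have h6 := mem_sp_of_insert hU0 (fun e he => by
          rcases mem_union.1 he with h | h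
          · rcases mem_union.1 h with h | h
            · exact hR0 e h
            · exact hL0 e (mem_sdiff.1 h).1
          · exact hL0 e (hK'L (mem_filter.1 h).1)) hu0f' h5 h2
        rw [show x = x' + (u0 x / p) • v g by rw [hx']; abel]
        refine Submodule.add_mem _ (sp_le ((le_sp _).trans (le_sp _)) (fun e he => ?_) h6)
          (Submodule.smul_mem _ _ (mem_sp_of_mem (mem_filter.2 ⟨hg.1, hutg⟩)))
        rcases mem_union.1 he with h | h
        · rcases mem_union.1 h with h' | h'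
          · exact mem_sp_of_mem_U (mem_sp_of_mem h')
          · refine mem_sp_of_mem (mem_filter.2 ⟨hLK (mem_sdiff.1 h').1, ?_⟩)
            rw [huta, hL0 e (mem_sdiff.1 h').1,
              hu1z _ (hu.1 _ (mem_sp_of_mem (mem_union_left _ h)))]
            simp
        · refine mem_sp_of_mem (mem_filter.2 ⟨hLK (hK'L (mem_filter.1 h).1), ?_⟩)
          rw [huta, hL0 e (hK'L (mem_filter.1 h).1), hu1z _ (mem_filter.1 h).2]
          simp
    have := hmin ut ⟨hvt, by rw [huta, hu0y, hu1y]; ring, fun e he heK heN => by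
      have h1 := hu0s e he heK heN
      have h2 : 0 ≤ σ e * u1 (v e) := by
        rw [hu1a, ← mul_assoc, ← mul_assoc]
        exact mul_nonneg (hsg u huK e he heK) hq.le
      rw [huta]
      have h3 := mul_pos (sub_pos.2 ht1) h1
      have h4 := mul_nonneg ht0.le h2
      linarith [show σ e * ((1 - t) * u0 (v e) + t * u1 (v e)) =
        (1 - t) * (σ e * u0 (v e)) + t * (σ e * u1 (v e)) by ring],
      by rw [hlt]; exact mul_pos (by linarith) hu0f⟩
    rw [hlt] at this
    have := mul_pos ht0 hu0f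
    linarith

lemma bramble {E : Finset α} (𝓕 : Set (Finset α)) (hne : 𝓕.Nonempty) (hF : ∀ F ∈ 𝓕, F ⊆ E)
    (hc : ∀ F ∈ 𝓕, ∀ X ⊆ F, Skew v U X (F \ X) → X = ∅ ∨ X = F)
    (hs : ∀ F ∈ 𝓕, ∀ F' ∈ 𝓕, ¬ Skew v U F F') :
    ∃ u, Vert v U E u ∧ ∀ F ∈ 𝓕, ∃ e ∈ F, u (v e) ≠ 0 := by
  by_contra hno
  push Not at hno
  obtain ⟨y, hy, hy0⟩ := exists_generic (v := v) (U := U) E
  obtain ⟨F, hFm⟩ := hne
  obtain ⟨K, hFK, hKE, hsk, hcK⟩ := exists_component (hF F hFm) (hc F hFm) (hs F hFm F hFm)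
  refine bramble_step 𝓕 hF hc hs hno hy hy0 K (E \ K) (fun _ => 1) hKE sdiff_subset hsk ?_ hcK
    ⟨F, hFm, hFK⟩ (fun _ => one_ne_zero) fun u hu e he heK => ?_
  · rw [sp_sp, sdiff_union_of_subset hKE]
  · rw [hu.1 _ (mem_sp_of_mem (mem_sdiff.2 ⟨he, heK⟩))]; simp

end

end Pool.Agent.Vertigan
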