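import Pool.Agent.P.MP_b00834_co.Port

set_option autoImplicit false

/-! Paths inside a circuit, the bridge between two skew circuits, and the grid lemma. -/

namespace Pool.Agent.Vertigan

open Finset
open scoped Classical

noncomputable section

variable {α V : Type*} [AddCommGroup V] [Module ℝ V] {v : α → V} {U : Submodule ℝ V}

lemma Par.trans {a b x : V} (h : Par U a b) (h' : Par U b x) : Par U a x := by
  obtain ⟨s, hs⟩ := h
  obtain ⟨t, ht⟩ := h'
  refine ⟨t * s, ?_⟩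
  convert U.add_mem (U.smul_mem t hs) ht using 1
  rw [mul_smul, smul_sub]; abel

lemma Par.symm {a b : V} (h : Par U a b) (hb : b ∉ U) : Par U b a := by
  obtain ⟨s, hs⟩ := h
  have hs0 : s ≠ 0 := by rintro rfl; exact hb (mem_of_zero_smul_sub hs)
  refine ⟨s⁻¹, ?_⟩
  convert U.neg_mem (U.smul_mem s⁻¹ hs) using 1
  rw [smul_sub, smul_smul, inv_mul_cancel₀ hs0, one_smul]; abel

lemma sum_cover (w : α → ℕ) {X I J : Finset α} (h : X ⊆ I ∪ J) :
    ∑ e ∈ X, w e ≤ ∑ e ∈ I, w e + ∑ e ∈ J, w e := by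
  rw [← sum_union_inter]
  exact (sum_le_sum_of_subset h).trans (Nat.le_add_right _ _)

lemma sum_cover_lt (w : α → ℕ) {X I J : Finset α} (h : X ⊆ I ∪ J) {z : α} (hI : z ∈ I) (hJ : z ∈ J)
    (hz : 0 < w z) : ∑ e ∈ X, w e + 1 ≤ ∑ e ∈ I, w e + ∑ e ∈ J, w e := by
  rw [← sum_union_inter]
  have h1 : w z ≤ ∑ e ∈ I ∩ J, w e :=
    single_le_sum (f := w) (fun _ _ => Nat.zero_le _) (mem_inter.2 ⟨hI, hJ⟩)
  have h2 := sum_le_sum_of_subset (f := w) h
  omega

lemma exists_rep {X : Finset α} {c : α → ℝ} (hc : ∀ e ∈ X, c e ≠ 0) {s : V} (hs : s ∈ sp v U X) :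
    ∃ f : α → ℝ, lc v (fun e => f e * c e) X - s ∈ U := by
  obtain ⟨β, hβ⟩ := mem_sp.1 hs
  refine ⟨fun e => β e / c e, ?_⟩
  rwa [lc_congr (c' := β) fun e he => div_mul_cancel₀ _ (hc e he)]

lemma level_path {X : Finset α} (hX : Circ v U X) {c f : α → ℝ} (hc : ∀ e ∈ X, c e ≠ 0)
    (hcU : lc v c X ∈ U) {s : V} (hs : lc v (fun e => f e * c e) X - s ∈ U) {q : α} (hq : q ∈ X) :
    Path v U s (X.filter fun e => f e ≠ f q) := by
  refine ⟨hX.ind (filter_subset _ _) hq (by simp), fun e => f e * c e - f q * c e,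
    fun e he => ?_, ?_⟩
  · change f e * c e - f q * c e ≠ 0
    rw [← sub_mul]
    exact mul_ne_zero (sub_ne_zero.2 (mem_filter.1 he).2) (hc e (mem_filter.1 he).1)
  · rw [← lc_subset (filter_subset _ X) (fun e he hn => by
      have : f e = f q := by by_contra hh; exact hn (mem_filter.2 ⟨he, hh⟩)
      rw [this, sub_self]), lc_sub]
    convert U.sub_mem hs (U.smul_mem (f q) hcU) using 1
    abel

lemma two_levels {X : Finset α} (hne : X.Nonempty) {c f : α → ℝ} (hcU : lc v c X ∈ U) {s : V}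
    (hs : lc v (fun e => f e * c e) X - s ∈ U) (hsU : s ∉ U) : ∃ q ∈ X, ∃ q' ∈ X, f q ≠ f q' := by
  by_contra hn
  push Not at hn
  obtain ⟨q, hq⟩ := hne
  rw [lc_congr (c' := fun e => f q * c e) (fun e he => by rw [hn e he q hq]), lc_smul] at hs
  exact hsU (by simpa using U.sub_mem (U.smul_mem (f q) hcU) hs)

lemma heavy_path (w : α → ℕ) {X : Finset α} (hX : Circ v U X) {s : V} (hs : s ∈ sp v U X)
    (hsU : s ∉ U) : ∃ I ⊆ X, Path v U s I ∧ ∑ e ∈ X, w e ≤ 2 * ∑ e ∈ I, w e := by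
  obtain ⟨c, hc, hcU⟩ := hX.2.1
  obtain ⟨f, hf⟩ := exists_rep hc hs
  obtain ⟨q, hq, q', hq', hne⟩ := two_levels hX.1 hcU hf hsU
  have h1 := sum_cover w (X := X) (I := X.filter fun e => f e ≠ f q)
    (J := X.filter fun e => f e ≠ f q') fun e he => by
      by_cases h : f e = f q
      · exact mem_union_right _ (mem_filter.2 ⟨he, by rwa [h]⟩)
      · exact mem_union_left _ (mem_filter.2 ⟨he, h⟩)
  rcases le_total (∑ e ∈ X.filter fun e => f e ≠ f q, w e)
    (∑ e ∈ X.filter fun e => f e ≠ f q', w e) with h | h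
  · exact ⟨_, filter_subset _ _, level_path hX hc hcU hf hq', by omega⟩
  · exact ⟨_, filter_subset _ _, level_path hX hc hcU hf hq, by omega⟩

lemma grid (w : α → ℕ) {h : ℕ} {X : Finset α} (hX : Circ v U X) {a a' : V} (ha : a ∈ sp v U X)
    (ha' : a' ∈ sp v U X) (haU : a ∉ U) (haU' : a' ∉ U) (hnp : ¬ Par U a a')
    (hw : ∀ e ∈ X, 0 < w e) (hh : 2 * h ≤ ∑ e ∈ X, w e)
    (h1 : ∀ J ⊆ X, Path v U a J → ∑ e ∈ J, w e ≤ h)
    (h2 : ∀ J ⊆ X, Path v U a' J → ∑ e ∈ J, w e ≤ h) :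
    ∃ μ : ℝ, μ ≠ 0 ∧ ∃ I ⊆ X, Path v U (a - μ • a') I ∧ h ≤ ∑ e ∈ I, w e ∧ a ∉ sp v U I := by
  obtain ⟨c, hc, hcU⟩ := hX.2.1
  obtain ⟨f, hf⟩ := exists_rep hc ha
  obtain ⟨g, hg⟩ := exists_rep hc ha'
  have lf : ∀ q ∈ X, ∑ e ∈ X.filter fun e => f e ≠ f q, w e ≤ h := fun q hq =>
    h1 _ (filter_subset _ _) (level_path hX hc hcU hf hq)
  have lg : ∀ q ∈ X, ∑ e ∈ X.filter fun e => g e ≠ g q, w e ≤ h := fun q hq =>
    h2 _ (filter_subset _ _) (level_path hX hc hcU hg hq)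
  have twov : ∀ f : α → ℝ, (∀ q ∈ X, ∑ e ∈ X.filter fun e => f e ≠ f q, w e ≤ h) →
      ∀ q ∈ X, ∀ q' ∈ X, f q ≠ f q' → ∀ z ∈ X, f z = f q ∨ f z = f q' := by
    intro f lf q hq q' hq' hne z hz
    by_contra hn
    push Not at hn
    have := sum_cover_lt w (X := X) (I := X.filter fun e => f e ≠ f q)
      (J := X.filter fun e => f e ≠ f q') (fun e he => by
        by_cases h : f e = f q
        · exact mem_union_right _ (mem_filter.2 ⟨he, by rwa [h]⟩)
        · exact mem_union_left _ (mem_filter.2 ⟨he, h⟩))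
      (mem_filter.2 ⟨hz, hn.1⟩) (mem_filter.2 ⟨hz, hn.2⟩) (hw z hz)
    have := lf q hq
    have := lf q' hq'
    omega
  have cell : ∀ q ∈ X, ∀ q' ∈ X, f q ≠ f q' → ∀ r ∈ X, ∀ r' ∈ X, g r ≠ g r' →
      ∃ e ∈ X, f e = f q ∧ g e = g r := by
    intro q hq q' hq' hqq r hr r' hr' hrr
    by_contra hn
    push Not at hn
    have h3 : ∀ z ∈ X, f z ≠ f q → g z = g r := by
      intro z hz hfz
      by_contra hgz
      have := sum_cover_lt w (X := X) (I := X.filter fun e => f e ≠ f q)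
        (J := X.filter fun e => g e ≠ g r) (fun e he => by
          by_cases h : f e = f q
          · exact mem_union_right _ (mem_filter.2 ⟨he, hn e he h⟩)
          · exact mem_union_left _ (mem_filter.2 ⟨he, h⟩))
        (mem_filter.2 ⟨hz, hfz⟩) (mem_filter.2 ⟨hz, hgz⟩) (hw z hz)
      have := lf q hq
      have := lg r hr
      omega
    have hd : f q - f q' ≠ 0 := sub_ne_zero.2 hqq
    set s := (g r' - g r) / (f q - f q') with hs
    have h4 : ∀ e ∈ X, s * (f e * c e) + -1 * (g e * c e) = (s * f q' - g r) * c e := by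
      intro e he
      by_cases h : f e = f q
      · have h5 := (twov g lg r hr r' hr' hrr e he).resolve_left (hn e he h)
        have h6 : s * (f q - f q') = g r' - g r := div_mul_cancel₀ _ hd
        rw [h, h5]
        linear_combination c e * h6
      · rw [h3 e he h, (twov f lf q hq q' hq' hqq e he).resolve_left h]; ring
    have h5 := lc_congr (v := v) h4
    rw [lc_lin, lc_smul] at h5
    refine hnp ⟨s, ?_⟩
    have h6 := U.add_mem (U.sub_mem (U.smul_mem (s * f q' - g r) hcU) (U.smul_mem s hf)) hg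
    rw [← h5] at h6
    convert h6 using 1
    rw [smul_sub, neg_smul, one_smul]; abel
  have diag : ∀ p ∈ X, ∀ p' ∈ X, f p ≠ f p' → ∀ μ : ℝ, f p' - μ * g p' = f p - μ * g p →
      Path v U (a - μ • a') (X.filter fun e => f e - μ * g e ≠ f p - μ * g p) ∧
        a ∉ sp v U (X.filter fun e => f e - μ * g e ≠ f p - μ * g p) := by
    intro p hp p' hp' hpp μ hμ
    constructor
    · refine level_path (f := fun e => f e - μ * g e) hX hc hcU ?_ hp
      rw [lc_congr (c' := fun e => f e * c e - μ * (g e * c e)) (fun e _ => by ring), lc_sub]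
      convert U.sub_mem hf (U.smul_mem μ hg) using 1
      rw [smul_sub]; abel
    · intro hm
      obtain ⟨β, hβ⟩ := mem_sp.1 hm
      rw [← lc_ext β (filter_subset _ X)] at hβ
      obtain ⟨t, ht⟩ := hX.prop hc hcU (c' := fun e => f e * c e - 1 *
        if e ∈ X.filter fun e => f e - μ * g e ≠ f p - μ * g p then β e else 0) (by
          rw [lc_sub]
          convert U.sub_mem hf hβ using 1
          rw [one_smul]; abel)
      have t1 := ht p hp
      have t2 := ht p' hp'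
      simp only [mem_filter, ne_eq, not_true_eq_false, and_false, if_false, hμ, mul_zero,
        sub_zero] at t1 t2
      exact hpp ((mul_right_cancel₀ (hc p hp) t1).trans (mul_right_cancel₀ (hc p' hp') t2).symm)
  obtain ⟨q, hq, q', hq', hqq⟩ := two_levels hX.1 hcU hf haU
  obtain ⟨r, hr, r', hr', hrr⟩ := two_levels hX.1 hcU hg haU'
  obtain ⟨p00, m00, f00, g00⟩ := cell q hq q' hq' hqq r hr r' hr' hrr
  obtain ⟨p01, m01, f01, g01⟩ := cell q hq q' hq' hqq r' hr' r hr hrr.symm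
  obtain ⟨p10, m10, f10, g10⟩ := cell q' hq' q hq hqq.symm r hr r' hr' hrr
  obtain ⟨p11, m11, f11, g11⟩ := cell q' hq' q hq hqq.symm r' hr' r hr hrr.symm
  have hd : g r - g r' ≠ 0 := sub_ne_zero.2 hrr
  set μ := (f q - f q') / (g r - g r') with hμ
  have hμ0 : μ ≠ 0 := div_ne_zero (sub_ne_zero.2 hqq) hd
  have hμ1 : μ * (g r - g r') = f q - f q' := div_mul_cancel₀ _ hd
  obtain ⟨d1, d2⟩ := diag p00 m00 p11 m11 (by rwa [f00, f11]) μ
    (by rw [f00, f11, g00, g11]; linarith)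
  obtain ⟨d3, d4⟩ := diag p01 m01 p10 m10 (by rwa [f01, f10]) (-μ)
    (by rw [f01, f10, g01, g10]; linarith)
  have h3 := sum_cover w (X := X) (I := X.filter fun e => f e - μ * g e ≠ f p00 - μ * g p00)
    (J := X.filter fun e => f e - -μ * g e ≠ f p01 - -μ * g p01) fun e he => by
      by_cases h : f e - μ * g e = f p00 - μ * g p00
      · refine mem_union_right _ (mem_filter.2 ⟨he, fun h' => ?_⟩)
        rw [f00, g00] at h
        rw [f01, g01] at h'
        rcases twov f lf q hq q' hq' hqq e he with h4 | h4 <;> exact hqq (by linarith)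
      · exact mem_union_left _ (mem_filter.2 ⟨he, h⟩)
  by_cases h4 : h ≤ ∑ e ∈ X.filter fun e => f e - μ * g e ≠ f p00 - μ * g p00, w e
  · exact ⟨μ, hμ0, _, filter_subset _ _, d1, h4, d2⟩
  · exact ⟨-μ, neg_ne_zero.2 hμ0, _, filter_subset _ _, d3, by omega, d4⟩

lemma bridge_side {L X Y Z : Finset α} (hX : X ⊆ L) (hZL : Z ⊆ L)
    (hZ : Circ v U Z) (hZX : ∃ x ∈ Z, x ∈ X) (hZY : ∃ x ∈ Z, x ∈ Y) (hd : Disjoint X Y)
    (hmin : ∀ Z' ⊆ L, Circ v U Z' → (∃ x ∈ Z', x ∈ X) → (∃ x ∈ Z', x ∈ Y) →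
      (Z \ (X ∪ Y)).card ≤ (Z' \ (X ∪ Y)).card)
    {y : α} (hy : y ∈ Z \ (X ∪ Y)) : v y ∉ sp v U ((Z \ (X ∪ Y)).erase y ∪ X) := by
  intro hm
  set P := Z \ (X ∪ Y) with hP
  have hdis : Disjoint (Z ∩ Y) (P.erase y ∪ X) := by
    refine disjoint_left.2 fun e he he' => ?_
    rcases mem_union.1 he' with h | h
    · exact (mem_sdiff.1 (mem_of_mem_erase h)).2 (mem_union_right _ (mem_inter.1 he).2)
    · exact disjoint_left.1 hd h (mem_inter.1 he).2
  have hns : ¬ Skew v U (Z ∩ Y) (P.erase y ∪ X) := by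
    intro hsk
    have h1 : sp v U (Z \ (Z ∩ Y)) ≤ sp v U (P.erase y ∪ X) := by
      refine sp_le (le_sp _) fun e he => ?_
      by_cases hey : e = y
      · rwa [hey]
      · refine mem_sp_of_mem ?_
        simp only [hP, mem_union, mem_erase, mem_sdiff, mem_inter] at he ⊢
        tauto
    rcases hZ.conn inter_subset_left (hsk.of_le h1) with h | h
    · obtain ⟨x, hx, hxY⟩ := hZY
      have : x ∈ Z ∩ Y := mem_inter.2 ⟨hx, hxY⟩
      rw [h] at this; simp at this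
    · obtain ⟨x, hx, hxX⟩ := hZX
      rw [← h] at hx
      exact disjoint_left.1 hd hxX (mem_inter.1 hx).2
  obtain ⟨Z', hZ', hc', ⟨x, hx, hxY⟩, -⟩ := exists_circ_cross hdis hns
  have hyZ' : y ∉ Z' := by
    intro hh
    have := hZ' hh
    have hy' := hy
    simp only [hP, mem_union, mem_erase, mem_sdiff, mem_inter] at this hy'
    tauto
  have h2 : ∃ x ∈ Z', x ∈ X := by
    by_contra hn
    push Not at hn
    have h3 : Z' ⊆ Z := fun e he => by
      have := hZ' he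
      have := hn e he
      simp only [hP, mem_union, mem_erase, mem_sdiff, mem_inter] at *
      tauto
    exact hyZ' ((hZ.eq_of_subset hc' h3).symm ▸ (mem_sdiff.1 hy).1)
  have h4 := hmin Z' (hZ'.trans (union_subset (inter_subset_left.trans hZL)
    (union_subset (((erase_subset _ _).trans sdiff_subset).trans hZL) hX))) hc' h2
    ⟨x, hx, (mem_inter.1 hxY).2⟩
  have h5 : Z' \ (X ∪ Y) ⊆ P.erase y := fun e he => by
    have := hZ' (mem_sdiff.1 he).1
    simp only [hP, mem_union, mem_erase, mem_sdiff, mem_inter] at this he ⊢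
    tauto
  have := card_le_card h5
  have := card_erase_lt_of_mem hy
  omega

lemma bridge {L X Y : Finset α} (hL : Conn v U L) (hX : X ⊆ L) (hY : Y ⊆ L) (hcX : Circ v U X)
    (hcY : Circ v U Y) (hs : Skew v U X Y) :
    ∃ P ⊆ L \ (X ∪ Y), P.Nonempty ∧ ∃ z : α → ℝ, (∀ e ∈ P, z e ≠ 0) ∧
      ∃ s ∈ sp v U X, s ∉ U ∧ ∃ s' ∈ sp v U Y, s' ∉ U ∧ lc v z P - (s + s') ∈ U ∧
        ∀ d : α → ℝ, lc v d P ∈ sp v U (X ∪ Y) → ∃ t : ℝ, ∀ e ∈ P, d e = t * z e := by
  have hd : Disjoint X Y := hs.disjoint fun e he => hL.1 e (hX he)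
  obtain ⟨x0, hx0⟩ := hcX.1
  obtain ⟨y0, hy0⟩ := hcY.1
  obtain ⟨Z0, hZ0, hc0, hx1, hy1⟩ := hL.two (hX hx0) (hY hy0)
    (fun hh => disjoint_left.1 hd hx0 (hh ▸ hy0))
  obtain ⟨Z, hZ, hmin⟩ := exists_min_image (L.powerset.filter fun Z => Circ v U Z ∧
    (∃ x ∈ Z, x ∈ X) ∧ ∃ x ∈ Z, x ∈ Y) (fun Z => (Z \ (X ∪ Y)).card)
    ⟨Z0, mem_filter.2 ⟨mem_powerset.2 hZ0, hc0, ⟨x0, hx1, hx0⟩, y0, hy1, hy0⟩⟩
  obtain ⟨hZL, hZ, hZX, hZY⟩ := mem_filter.1 hZ
  rw [mem_powerset] at hZL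
  replace hmin : ∀ Z' ⊆ L, Circ v U Z' → (∃ x ∈ Z', x ∈ X) → (∃ x ∈ Z', x ∈ Y) →
      (Z \ (X ∪ Y)).card ≤ (Z' \ (X ∪ Y)).card := fun Z' h1 h2 h3 h4 =>
    hmin Z' (mem_filter.2 ⟨mem_powerset.2 h1, h2, h3, h4⟩)
  have side1 := fun y hy => bridge_side hX hZL hZ hZX hZY hd hmin (y := y) hy
  have side2 := fun y hy => bridge_side hY hZL hZ hZY hZX hd.symm
    (by rw [union_comm]; exact fun Z' h1 h2 h3 h4 => hmin Z' h1 h2 h4 h3) (y := y) hy
  rw [union_comm Y X] at side2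
  set P := Z \ (X ∪ Y) with hP
  obtain ⟨z, hz, hzU⟩ := hZ.2.1
  have part : ∀ A B : Finset α, Disjoint A B → (∃ x ∈ Z, x ∈ A) → (∃ x ∈ Z, x ∈ B) →
      lc v z (Z ∩ A) ∉ U := by
    rintro A B hAB ⟨x, hx, hxA⟩ ⟨y, hy, hyB⟩ hm
    exact hz x hx (hZ.ind inter_subset_left hy
      (fun hh => disjoint_left.1 hAB (mem_inter.1 hh).2 hyB) z hm x (mem_inter.2 ⟨hx, hxA⟩))
  have hsplit : lc v z Z = lc v z (Z ∩ X) + lc v z (Z ∩ Y) + lc v z P := by
    rw [lc_split z Z (X ∪ Y), inter_union_distrib_left,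
      lc_union (hd.mono inter_subset_right inter_subset_right)]
  have hs1 := part X Y hd hZX hZY
  have hs2 := part Y X hd.symm hZY hZX
  have hm1 : lc v z (Z ∩ X) ∈ sp v U X := sp_mono' inter_subset_right (lc_mem_sp _ _)
  have hm2 : lc v z (Z ∩ Y) ∈ sp v U Y := sp_mono' inter_subset_right (lc_mem_sp _ _)
  have hPne : P.Nonempty := by
    by_contra hn
    rw [not_nonempty_iff_eq_empty] at hn
    rw [hsplit, hn, lc_zero (S := ∅) (by simp), add_zero] at hzU
    exact hs1 (hs.add hm1 hm2 hzU).1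
  refine ⟨P, sdiff_subset_sdiff hZL (Subset.refl _), hPne, z, fun e he => hz e (mem_sdiff.1 he).1,
    _, Submodule.neg_mem _ hm1, by simpa using hs1, _, Submodule.neg_mem _ hm2,
    by simpa using hs2, by convert hzU using 1; rw [hsplit]; abel, ?_⟩
  have hzN : lc v z P ∈ sp v U (X ∪ Y) := by
    rw [show lc v z P = lc v z Z - lc v z (Z ∩ X) - lc v z (Z ∩ Y) by rw [hsplit]; abel]
    exact Submodule.sub_mem _ (Submodule.sub_mem _ (mem_sp_of_mem_U hzU)
      (sp_mono' subset_union_left hm1)) (sp_mono' subset_union_right hm2)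
  suffices hc : Circ v (sp v U (X ∪ Y)) P from
    fun d hd => hc.prop (fun e he => hz e (mem_sdiff.1 he).1) hzN hd
  refine ⟨hPne, ⟨z, fun e he => hz e (mem_sdiff.1 he).1, hzN⟩, fun d hdN x hx hx0 y hy => ?_⟩
  by_contra hy0
  have hyx : y ≠ x := fun hh => hy0 (hh ▸ hx0)
  rw [lc_subset (erase_subset x P) (fun e he hn => by
    have : e = x := by by_contra hh; exact hn (mem_erase.2 ⟨hh, he⟩)
    rw [this, hx0])] at hdN
  obtain ⟨P', hP', hcP', -⟩ := exists_circ_mem hdN (mem_erase.2 ⟨hyx, hy⟩) hy0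
  have hP'P : P' ⊆ P := hP'.trans (erase_subset _ _)
  obtain ⟨d', hd', hd'N⟩ := hcP'.2.1
  obtain ⟨t1, ht1, t2, ht2, ht⟩ := mem_sp_union hd'N
  obtain ⟨y', hy'⟩ := hcP'.1
  have one : ∀ A : Finset α, lc v d' P' ∈ sp v U A → v y' ∈ sp v U (P.erase y' ∪ A) := by
    intro A hA
    rw [← insert_erase hy', lc_insert (notMem_erase _ _)] at hA
    refine mem_of_smul_sub (hd' y' hy') (x := - lc v d' (P'.erase y')) ?_
      (Submodule.neg_mem _ (sp_mono' ((erase_subset_erase _ hP'P).trans subset_union_left)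
        (lc_mem_sp _ _)))
    rw [sub_neg_eq_add]
    exact sp_mono' subset_union_right hA
  by_cases c2 : t2 ∈ U
  · exact side1 y' (hP'P hy') (one X (ht ▸ Submodule.add_mem _ ht1 (mem_sp_of_mem_U c2)))
  by_cases c1 : t1 ∈ U
  · exact side2 y' (hP'P hy') (one Y (ht ▸ Submodule.add_mem _ (mem_sp_of_mem_U c1) ht2))
  obtain ⟨I, hI, hpI, -⟩ := heavy_path (fun _ => 0) hcX ht1 c1
  obtain ⟨J, hJ, hpJ, -⟩ := heavy_path (fun _ => 0) hcY ht2 c2
  have hIJ : I ∪ J ⊆ X ∪ Y := union_subset_union hI hJ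
  have hdis : Disjoint P' (I ∪ J) := disjoint_left.2 fun e he he' =>
    (mem_sdiff.1 (hP'P he)).2 (hIJ he')
  have hc' := circ_lift hdis hcP'.1 hd' (hpI.union hpJ (hs.mono hI hJ))
    (by rw [ht, sub_self]; exact U.zero_mem)
    (fun d hd => hcP'.prop hd' hd'N (sp_mono' hIJ hd))
  obtain ⟨i, hi⟩ := hpI.nonempty c1
  obtain ⟨j, hj⟩ := hpJ.nonempty c2
  have h4 := hmin _ (union_subset ((hP'P.trans sdiff_subset).trans hZL)
    (hIJ.trans (union_subset hX hY))) hc'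
    ⟨i, mem_union_right _ (mem_union_left _ hi), hI hi⟩
    ⟨j, mem_union_right _ (mem_union_right _ hj), hJ hj⟩
  have h5 : (P' ∪ (I ∪ J)) \ (X ∪ Y) ⊆ P.erase x := fun e he => by
    rw [mem_sdiff, mem_union] at he
    exact hP' (he.1.resolve_right fun hh => he.2 (hIJ hh))
  have := card_le_card h5
  have := card_erase_lt_of_mem hx
  omega

end

end Pool.Agent.Vertigan
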