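import Pool.Agent.P.MP_b00834_co.Tutte

set_option autoImplicit false

/-! Weighted covers by vertices through a fixed element or a fixed vector. -/

namespace Pool.Agent.Vertigan

open Finset
open scoped Classical

noncomputable section

variable {α V : Type*} [AddCommGroup V] [Module ℝ V] {v : α → V} {U : Submodule ℝ V}

/-- number of functionals of the list that do not vanish at `v e` -/
def cov (v : α → V) (l : List (V →ₗ[ℝ] ℝ)) (e : α) : ℕ :=
  (l.map fun u => if u (v e) = 0 then 0 else 1).sum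

lemma cov_cons (u : V →ₗ[ℝ] ℝ) (l : List (V →ₗ[ℝ] ℝ)) (e : α) :
    cov v (u :: l) e = (if u (v e) = 0 then 0 else 1) + cov v l e := by
  simp [cov]

/-- lowering the demand along one functional -/
def low (v : α → V) (u : V →ₗ[ℝ] ℝ) (d : α → ℕ) (e : α) : ℕ :=
  d e - if u (v e) = 0 then 0 else 1

lemma low_le (u : V →ₗ[ℝ] ℝ) (d : α → ℕ) (e : α) : low v u d e ≤ d e := Nat.sub_le _ _

lemma le_low (u : V →ₗ[ℝ] ℝ) (d : α → ℕ) (e : α) :
    d e ≤ (if u (v e) = 0 then 0 else 1) + low v u d e := by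
  unfold low; omega

lemma sum_low_le (u : V →ₗ[ℝ] ℝ) (d : α → ℕ) (S : Finset α) :
    ∑ e ∈ S, low v u d e ≤ ∑ e ∈ S, d e := sum_le_sum fun e _ => low_le u d e

lemma sum_low_one {u : V →ₗ[ℝ] ℝ} {d : α → ℕ} {S : Finset α} {x : α} (hx : x ∈ S)
    (h0 : u (v x) ≠ 0) (hd : 0 < d x) : ∑ e ∈ S, low v u d e + 1 ≤ ∑ e ∈ S, d e := by
  rw [← add_sum_erase S _ hx, ← add_sum_erase S d hx]
  have h1 := sum_low_le (v := v) u d (S.erase x)
  have h2 : low v u d x + 1 = d x := by simp only [low, h0, if_false]; omega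
  omega

lemma sum_low_two {u : V →ₗ[ℝ] ℝ} {d : α → ℕ} {S : Finset α} {x y : α} (hx : x ∈ S) (hy : y ∈ S)
    (hxy : y ≠ x) (h0 : u (v x) ≠ 0) (h1 : u (v y) ≠ 0) (hd : 0 < d x) (hd' : 0 < d y) :
    ∑ e ∈ S, low v u d e + 2 ≤ ∑ e ∈ S, d e := by
  rw [← add_sum_erase S _ hx, ← add_sum_erase S d hx]
  have h3 := sum_low_one (v := v) (mem_erase.2 ⟨hxy, hy⟩) h1 hd'
  have h2 : low v u d x + 1 = d x := by simp only [low, h0, if_false]; omega
  omega

lemma lemos (k : ℕ) {E : Finset α} (h : Conn v U E) {p : α} (hp : p ∈ E) (d : α → ℕ)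
    (hd : ∀ C ⊆ E, Circ v U C → p ∈ C → ∑ e ∈ C.erase p, d e ≤ k) :
    ∃ l : List (V →ₗ[ℝ] ℝ), l.length ≤ k ∧ (∀ u ∈ l, Vert v U E u ∧ u (v p) ≠ 0) ∧
      ∀ e ∈ E.erase p, d e ≤ cov v l e := by
  induction' hn : k + E.card using Nat.strong_induction_on with n ih generalizing E U k d
  by_cases h0 : ∃ e ∈ E.erase p, d e = 0
  · obtain ⟨e, he, hde⟩ := h0
    obtain ⟨hep, he⟩ := mem_erase.1 he
    have hp' : p ∈ E.erase e := mem_erase.2 ⟨hep.symm, hp⟩
    obtain ⟨U', h1, -, -, h4, h5⟩ := removal h he ⟨p, hp'⟩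
    obtain ⟨l, hl, hl1, hl2⟩ := ih _ (by have := card_erase_lt_of_mem he; omega) k h1 hp' d
      (fun C hC hc hpC => by
        obtain ⟨C', h6, h7, h8⟩ := h4 C hC hc
        exact (sum_le_sum_of_subset (erase_subset_erase p h8)).trans (hd C' h6 h7 (h8 hpC))) rfl
    refine ⟨l, hl, fun u hu => ⟨h5 u (hl1 u hu).1, (hl1 u hu).2⟩, fun f hf => ?_⟩
    by_cases hfe : f = e
    · rw [hfe, hde]; exact Nat.zero_le _
    · rw [mem_erase] at hf
      exact hl2 f (mem_erase.2 ⟨hf.1, mem_erase.2 ⟨hfe, hf.2⟩⟩)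
  push Not at h0
  by_cases hne : (E.erase p).Nonempty
  swap
  · exact ⟨[], by simp, by simp, fun e he => absurd ⟨e, he⟩ hne⟩
  obtain ⟨u, hu, hup, -⟩ := exists_vert (v := v) (U := U) (empty_subset E) hp
    (by rw [sp_empty]; exact h.1 p hp)
  have key : ∀ C ⊆ E, Circ v U C → p ∈ C → ∑ e ∈ C.erase p, low v u d e + 1 ≤ k := by
    intro C hC hc hpC
    obtain ⟨y, hy, hyp, hy0⟩ := hc.ortho hu.1 hpC hup
    exact (sum_low_one (mem_erase.2 ⟨hyp, hy⟩) hy0
      (Nat.pos_of_ne_zero (h0 y (mem_erase.2 ⟨hyp, hC hy⟩)))).trans (hd C hC hc hpC)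
  obtain ⟨e, he⟩ := hne
  obtain ⟨C, hC, hc, hpC, -⟩ := h.two hp (mem_of_mem_erase he) (ne_of_mem_erase he).symm
  have hk := key C hC hc hpC
  obtain ⟨l, hl, hl1, hl2⟩ := ih _ (by omega) (k - 1) h hp (low v u d)
    (fun C hC hc hpC => by have := key C hC hc hpC; omega) rfl
  refine ⟨u :: l, by simp only [List.length_cons]; omega, fun u' hu' => ?_, fun f hf => ?_⟩
  · rcases List.mem_cons.1 hu' with rfl | hu'
    · exact ⟨hu, hup⟩
    · exact hl1 u' hu'
  · rw [cov_cons]
    have := le_low (v := v) u d f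
    have := hl2 f hf
    omega

/-! the port version -/

lemma sp_eraseNone_le (a : V) (S : Finset (Option α)) :
    sp v U (eraseNone S) ≤ sp (fun o : Option α => o.elim a v) U S :=
  sp_le (le_sp _) fun e he =>
    mem_sp_of_mem (v := fun o : Option α => o.elim a v) (e := some e) (mem_eraseNone.1 he)

lemma sp_le_eraseNone (a : V) {S : Finset (Option α)} (h : none ∉ S) :
    sp (fun o : Option α => o.elim a v) U S ≤ sp v U (eraseNone S) :=
  sp_le (le_sp _) fun o ho => by
    cases o with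
    | none => exact absurd ho h
    | some e => exact mem_sp_of_mem (mem_eraseNone.2 ho)

lemma conn_port {E : Finset α} (h : Conn v U E) {a : V} (ha : a ∈ sp v U E) (haU : a ∉ U) :
    Conn (fun o : Option α => o.elim a v) U (insertNone E) := by
  refine ⟨fun o ho => ?_, fun A hA hs => ?_⟩
  · cases o with
    | none => exact haU
    | some e => exact h.1 e (some_mem_insertNone.1 ho)
  have hAE : eraseNone A ⊆ E := fun e he => some_mem_insertNone.1 (hA (mem_eraseNone.1 he))
  obtain ⟨B, hB, hs⟩ : ∃ B : Finset (Option α), (∀ o, o ∈ B ↔ o ∈ insertNone E ∧ o ∉ A) ∧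
      Skew (fun o : Option α => o.elim a v) U A B :=
    ⟨_, fun o => @mem_sdiff _ (fun _ _ => Classical.propDecidable _) _ _ _, hs⟩
  have h1 : sp v U (E \ eraseNone A) ≤ sp (fun o : Option α => o.elim a v) U B := by
    refine le_trans (sp_mono' fun e he => ?_) (sp_eraseNone_le a _)
    simpa [hB] using he
  have hnone : ∀ S : Finset (Option α), none ∈ S → a ∈ sp (fun o : Option α => o.elim a v) U S :=
    fun S hS => mem_sp_of_mem (v := fun o : Option α => o.elim a v) (e := none) hS
  rcases h.2 _ hAE (fun x hx hx' => hs x (sp_eraseNone_le a _ hx) (h1 hx')) with h2 | h2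
  · by_cases hn : none ∈ A
    · exfalso
      rw [h2, sdiff_empty] at h1
      exact haU (hs a (hnone A hn) (h1 ha))
    · left
      ext o
      cases o with
      | none => simpa using hn
      | some e => rw [← mem_eraseNone, h2]; simp
  · by_cases hn : none ∈ A
    · right
      ext o
      cases o with
      | none => simpa using hn
      | some e => rw [← mem_eraseNone, h2]; simp
    · exfalso
      exact haU (hs a (sp_eraseNone_le a _ (h2.symm ▸ ha)) (hnone _ (by simpa [hB] using hn)))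

lemma lc_insertNone (a : V) (c : Option α → ℝ) (J : Finset α) :
    lc (fun o : Option α => o.elim a v) c (insertNone J) =
      c none • a + lc v (fun e => c (some e)) J := by
  simp [lc, sum_insertNone]

lemma path_of_circ_port {a : V} {J : Finset α}
    (h : Circ (fun o : Option α => o.elim a v) U (insertNone J)) : Path v U a J := by
  constructor
  · intro c hc e he
    have := h.2.2 (fun o => o.elim 0 c) (by rw [lc_insertNone]; simpa using hc) none (by simp) rfl
      (some e) (by simpa using he)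
    exact this
  · obtain ⟨c, hc, hcU⟩ := h.2.1
    have h0 : c none ≠ 0 := hc none (by simp)
    refine ⟨fun e => -(c none)⁻¹ * c (some e), fun e he => ?_, ?_⟩
    · exact mul_ne_zero (neg_ne_zero.2 (inv_ne_zero h0)) (hc _ (by simpa using he))
    · rw [lc_insertNone] at hcU
      have := U.smul_mem (-(c none)⁻¹) hcU
      rw [lc_smul]
      convert this using 1
      rw [smul_add, smul_smul, neg_mul, inv_mul_cancel₀ h0, neg_smul, neg_smul, one_smul]; abel

lemma vert_of_port {E : Finset α} {a : V} (ha : a ∈ sp v U E) {u : V →ₗ[ℝ] ℝ}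
    (h : Vert (fun o : Option α => o.elim a v) U (insertNone E) u) (h0 : u a ≠ 0) :
    Vert v U E u := by
  refine ⟨h.1, ?_, fun x hx hx0 => ?_⟩
  · by_contra hn
    push Not at hn
    exact h0 (map_sp_zero h.1 hn ha)
  · have h1 := h.2.2 x (by
      have := sp_eraseNone_le (v := v) (U := U) a (insertNone E)
      rw [eraseNone_insertNone] at this
      exact this hx) hx0
    have h2 := sp_le_eraseNone a (by simpa using h0) h1
    refine sp_mono' (fun e he => ?_) h2
    simpa using he

lemma lemos_port (k : ℕ) {E : Finset α} (h : Conn v U E) {a : V} (ha : a ∈ sp v U E) (haU : a ∉ U)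
    (d : α → ℕ) (hd : ∀ J ⊆ E, Path v U a J → ∑ e ∈ J, d e ≤ k) :
    ∃ l : List (V →ₗ[ℝ] ℝ), l.length ≤ k ∧ (∀ u ∈ l, Vert v U E u) ∧ ∀ e ∈ E, d e ≤ cov v l e := by
  obtain ⟨l, hl, hl1, hl2⟩ := lemos k (conn_port h ha haU) (p := none) (by simp)
    (fun o => o.elim 0 d) (fun C hC hc hn => by
      have h1 : C = insertNone (eraseNone C) := by
        rw [insertNone_eraseNone, insert_eq_of_mem hn]
      rw [← @map_some_eraseNone _ (fun _ _ => Classical.propDecidable _), sum_map]
      exact hd _ (fun e he => some_mem_insertNone.1 (hC (mem_eraseNone.1 he)))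
        (path_of_circ_port (h1 ▸ hc)))
  exact ⟨l, hl, fun u hu => vert_of_port ha (hl1 u hu).1 (hl1 u hu).2,
    fun e he => hl2 (some e) (by simpa using he)⟩

end

end Pool.Agent.Vertigan
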