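import Pool.Agent.P.MP_b00834_co.Grid

set_option autoImplicit false

/-! Two skew heavy circuits, and the weighted double cover theorem. -/

namespace Pool.Agent.Vertigan

open Finset
open scoped Classical

noncomputable section

variable {α V : Type*} [AddCommGroup V] [Module ℝ V] {v : α → V} {U : Submodule ℝ V}

/-- `v e` splits as `a + b` across the two sets -/
def Cross (v : α → V) (U : Submodule ℝ V) (X Y : Finset α) (e : α) (a b : V) : Prop :=
  a ∈ sp v U X ∧ a ∉ U ∧ b ∈ sp v U Y ∧ b ∉ U ∧ v e - (a + b) ∈ U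

def Good (v : α → V) (U : Submodule ℝ V) (E : Finset α) (w : α → ℕ) (W : ℕ) : Prop :=
  ∃ l : List (V →ₗ[ℝ] ℝ), l.length ≤ W ∧ (∀ u ∈ l, Vert v U E u) ∧ ∀ e ∈ E, 2 * w e ≤ cov v l e

lemma Cross.symm {X Y : Finset α} {e : α} {a b : V} (h : Cross v U X Y e a b) :
    Cross v U Y X e b a :=
  ⟨h.2.2.1, h.2.2.2.1, h.1, h.2.1, by rw [add_comm]; exact h.2.2.2.2⟩

lemma Cross.mono {X Y A B : Finset α} {e : α} {a b : V} (h : Cross v U X Y e a b) (hA : X ⊆ A)
    (hB : Y ⊆ B) : Cross v U A B e a b :=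
  ⟨sp_mono' hA h.1, h.2.1, sp_mono' hB h.2.2.1, h.2.2.2.1, h.2.2.2.2⟩

lemma Cross.notMem {X Y : Finset α} {e : α} {a b : V} (h : Cross v U X Y e a b)
    (hs : Skew v U X Y) : e ∉ X := by
  intro he
  refine h.2.2.2.1 (hs b ?_ h.2.2.1)
  rw [show b = v e - a - (v e - (a + b)) by abel]
  exact Submodule.sub_mem _ (Submodule.sub_mem _ (mem_sp_of_mem he) h.1)
    (mem_sp_of_mem_U h.2.2.2.2)

lemma Cross.circ {X Y I J : Finset α} {e : α} {a b : V} (h : Cross v U X Y e a b)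
    (hs : Skew v U X Y) (hI : I ⊆ X) (hJ : J ⊆ Y) (pI : Path v U a I) (pJ : Path v U b J) :
    Circ v U ({e} ∪ (I ∪ J)) ∧ ∀ w : α → ℕ,
      ∑ x ∈ {e} ∪ (I ∪ J), w x = w e + ∑ x ∈ I, w x + ∑ x ∈ J, w x := by
  have hd : Disjoint {e} (I ∪ J) := by
    rw [disjoint_singleton_left, mem_union]
    rintro (h1 | h1)
    · exact h.notMem hs (hI h1)
    · exact h.symm.notMem hs.symm (hJ h1)
  refine ⟨circ_lift hd (singleton_nonempty e) (z := fun _ => 1) (by simp)
    (pI.union pJ (hs.mono hI hJ)) (by rw [lc_single, one_smul]; exact h.2.2.2.2)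
    fun d _ => ⟨d e, by simp⟩, fun w => ?_⟩
  rw [sum_union hd, sum_union ((hs.mono hI hJ).disjoint fun x hx => pI.1.notMem hx),
    sum_singleton, add_assoc]

lemma exists_cross {L X Y : Finset α} (hL : Conn v U L) (hX : X ⊆ L) (hY : Y ⊆ L)
    (hcX : Circ v U X) (hcY : Circ v U Y) (hs : Skew v U X Y) (w : α → ℕ) {W : ℕ}
    (hc : ∀ C ⊆ L, Circ v U C → ∑ e ∈ C, w e ≤ W) (hw : ∀ e ∈ L, 0 < w e)
    (hXw : W ≤ ∑ e ∈ X, w e + 1) (hYw : W ≤ ∑ e ∈ Y, w e + 1) :
    ∃ e ∈ L, ∃ a b, Cross v U X Y e a b := by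
  obtain ⟨P, hP, hne, z, hz, s, hs1, hsU, s', hs1', hsU', hzs, huniq⟩ :=
    bridge hL hX hY hcX hcY hs
  obtain ⟨I, hI, pI, wI⟩ := heavy_path w hcX hs1 hsU
  obtain ⟨J, hJ, pJ, wJ⟩ := heavy_path w hcY hs1' hsU'
  have hIJ : I ∪ J ⊆ X ∪ Y := union_subset_union hI hJ
  have hdis : Disjoint P (I ∪ J) := disjoint_left.2 fun e he he' =>
    (mem_sdiff.1 (hP he)).2 (hIJ he')
  have hPL : P ⊆ L := hP.trans sdiff_subset
  have h1 := hc _ (union_subset hPL (hIJ.trans (union_subset hX hY)))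
    (circ_lift hdis hne hz (pI.union pJ (hs.mono hI hJ)) hzs fun d hd => huniq d (sp_mono' hIJ hd))
  rw [sum_union hdis, sum_union ((hs.mono hI hJ).disjoint fun x hx => pI.1.notMem hx)] at h1
  obtain ⟨e, he⟩ := hne
  have h2 : P = {e} := by
    refine eq_singleton_iff_unique_mem.2 ⟨he, fun f hf => ?_⟩
    by_contra hfe
    have h3 : w f ≤ ∑ x ∈ P.erase e, w x :=
      single_le_sum (f := w) (fun _ _ => Nat.zero_le _) (mem_erase.2 ⟨hfe, hf⟩)
    have h4 := add_sum_erase P w he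
    have := hw e (hPL he)
    have := hw f (hPL hf)
    omega
  have hz0 := hz e he
  rw [h2, lc_single] at hzs
  refine ⟨e, hPL he, (z e)⁻¹ • s, (z e)⁻¹ • s', Submodule.smul_mem _ _ hs1,
    fun hh => hsU ((U.smul_mem_iff (inv_ne_zero hz0)).1 hh), Submodule.smul_mem _ _ hs1',
    fun hh => hsU' ((U.smul_mem_iff (inv_ne_zero hz0)).1 hh), ?_⟩
  convert U.smul_mem (z e)⁻¹ hzs using 1
  rw [smul_sub, smul_smul, inv_mul_cancel₀ hz0, one_smul, smul_add]

lemma port_side {E A B X Y : Finset α} (hE : Conn v U E) (hA : A ⊆ E) (hB : B ⊆ E)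
    (hs : Skew v U A B) (hX : X ⊆ A) (hY : Y ⊆ B) (hcX : Circ v U X) (hcY : Circ v U Y)
    (hall : ∀ e ∈ E, e ∈ A ∨ e ∈ B ∨ ∃ a b, Cross v U X Y e a b) (w : α → ℕ) {h : ℕ}
    (hc : ∀ C ⊆ E, Circ v U C → ∑ e ∈ C, w e ≤ 2 * h + 1)
    (hw : ∀ e ∈ E, 0 < w e ∧ 2 * w e ≤ 2 * h + 1)
    (hXw : 2 * h ≤ ∑ e ∈ X, w e) (hYw : 2 * h ≤ ∑ e ∈ Y, w e)
    {e1 : α} (he1 : e1 ∈ E) {a1 b1 : V} (h1 : Cross v U X Y e1 a1 b1)
    (hpar : ∀ e ∈ E, ∀ a b, Cross v U X Y e a b → Par U a1 a) : Good v U E w (2 * h + 1) := by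
  obtain ⟨I, hI, pI, wI⟩ := heavy_path w hcX h1.1 h1.2.1
  obtain ⟨J, hJ, pJ, wJ⟩ := heavy_path w hcY h1.2.2.1 h1.2.2.2.1
  refine heavy_port hE hA (sp_mono' hX h1.1) h1.2.1 ?_ w (h := h) (by omega) le_rfl ?_
    (hI.trans hX) pI (by omega) hc hw
  · intro x hx hx'
    have h2 : sp v U (E \ A) ≤ sp v U B ⊔ Submodule.span ℝ {a1} := by
      refine sp_le ((le_sp B).trans le_sup_left) fun e he => ?_
      obtain ⟨heE, heA⟩ := mem_sdiff.1 he
      rcases hall e heE with h3 | h3 | ⟨a, b, h3⟩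
      · exact absurd h3 heA
      · exact Submodule.mem_sup_left (mem_sp_of_mem h3)
      · obtain ⟨t, ht⟩ := hpar e heE a b h3
        rw [show v e = ((v e - (a + b)) + b - (t • a1 - a)) + t • a1 by abel]
        exact Submodule.add_mem _ (Submodule.mem_sup_left (Submodule.sub_mem _
          (Submodule.add_mem _ (mem_sp_of_mem_U h3.2.2.2.2) (sp_mono' hY h3.2.2.1))
          (mem_sp_of_mem_U ht)))
          (Submodule.mem_sup_right (Submodule.smul_mem _ _ (Submodule.mem_span_singleton_self _)))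
    obtain ⟨b, hb, y, hy, rfl⟩ := Submodule.mem_sup.1 (h2 hx')
    obtain ⟨t, rfl⟩ := Submodule.mem_span_singleton.1 hy
    have h3 : b ∈ U := hs b (by
      rw [show b = (b + t • a1) - t • a1 by abel]
      exact Submodule.sub_mem _ hx (Submodule.smul_mem _ _ (sp_mono' hX h1.1))) hb
    exact ⟨t, by simpa using h3⟩
  · intro I' hI' pI'
    obtain ⟨h2, h3⟩ := (h1.mono hX hY).circ hs hI' (hJ.trans hY) pI' pJ
    have h4 := hc _ (union_subset (by simpa using he1)
      (union_subset (hI'.trans hA) ((hJ.trans hY).trans hB))) h2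
    rw [h3] at h4
    have := (hw e1 he1).1
    omega

lemma no_pair {E X Y : Finset α} (hX : X ⊆ E) (hY : Y ⊆ E) (hs : Skew v U X Y) (hcX : Circ v U X)
    (hcY : Circ v U Y) (w : α → ℕ) {h : ℕ}
    (hc : ∀ C ⊆ E, Circ v U C → ∑ e ∈ C, w e ≤ 2 * h + 1) (hw : ∀ e ∈ E, 0 < w e)
    (hXw : 2 * h ≤ ∑ e ∈ X, w e) (hYw : 2 * h ≤ ∑ e ∈ Y, w e)
    {e e' : α} (he : e ∈ E) (he' : e' ∈ E) {a b a' b' : V} (h1 : Cross v U X Y e a b)
    (h2 : Cross v U X Y e' a' b') (ha : ¬ Par U a a') (hb : ¬ Par U b b') : False := by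
  have bound : ∀ x ∈ E, ∀ p q, Cross v U X Y x p q → ∀ I ⊆ X, Path v U p I →
      ∑ e ∈ I, w e ≤ h := by
    intro x hx p q hcr I hI pI
    obtain ⟨J, hJ, pJ, wJ⟩ := heavy_path w hcY hcr.2.2.1 hcr.2.2.2.1
    obtain ⟨h3, h4⟩ := hcr.circ hs hI hJ pI pJ
    have h5 := hc _ (union_subset (by simpa using hx)
      (union_subset (hI.trans hX) (hJ.trans hY))) h3
    rw [h4] at h5
    have := hw x hx
    omega
  obtain ⟨μ, hμ, I, hI, pI, wI, haI⟩ := grid w hcX h1.1 h2.1 h1.2.1 h2.2.1 ha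
    (fun x hx => hw x (hX hx)) hXw (bound e he a b h1) (bound e' he' a' b' h2)
  obtain ⟨J, hJ, pJ, wJ⟩ := heavy_path w hcY (s := b - μ • b')
    (Submodule.sub_mem _ h1.2.2.1 (Submodule.smul_mem _ _ h2.2.2.1))
    (fun hh => hb (Par.symm ⟨μ, by simpa using U.neg_mem hh⟩ h1.2.2.2.1))
  have hee : e ≠ e' := by
    rintro rfl
    have h3 := (hs.add (Submodule.sub_mem _ h1.1 h2.1) (Submodule.sub_mem _ h1.2.2.1 h2.2.2.1)
      (by convert U.sub_mem h2.2.2.2.2 h1.2.2.2.2 using 1; abel)).1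
    exact ha ⟨1, by rwa [one_smul]⟩
  have hnm : e ∉ ({e'} : Finset α) := by simpa using hee
  have hdis : Disjoint (insert e {e'}) (I ∪ J) := by
    refine disjoint_left.2 fun x hx hx' => ?_
    rw [mem_insert, mem_singleton] at hx
    rcases hx with rfl | rfl <;> rcases mem_union.1 hx' with h3 | h3
    · exact h1.notMem hs (hI h3)
    · exact h1.symm.notMem hs.symm (hJ h3)
    · exact h2.notMem hs (hI h3)
    · exact h2.symm.notMem hs.symm (hJ h3)
  have h3 := circ_lift hdis (insert_nonempty _ _) (z := fun x => if x = e then 1 else -μ)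
    (fun x _ => by by_cases hx : x = e <;> simp [hx, hμ]) (pI.union pJ (hs.mono hI hJ))
    (by
      rw [lc_insert hnm, lc_single]
      simp only [if_true, hee.symm, if_false]
      convert U.sub_mem h1.2.2.2.2 (U.smul_mem μ h2.2.2.2.2) using 1
      simp only [smul_sub, smul_add, neg_smul, one_smul]; abel)
    (fun d hd => by
      rw [lc_insert hnm, lc_single] at hd
      obtain ⟨i, hi, j, hj, hij⟩ := mem_sp_union hd
      have h4 := (hs.add (a := d e • a + d e' • a' - i) (b := d e • b + d e' • b' - j)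
        (Submodule.sub_mem _ (Submodule.add_mem _ (Submodule.smul_mem _ _ h1.1)
          (Submodule.smul_mem _ _ h2.1)) (sp_mono' hI hi))
        (Submodule.sub_mem _ (Submodule.add_mem _ (Submodule.smul_mem _ _ h1.2.2.1)
          (Submodule.smul_mem _ _ h2.2.2.1)) (sp_mono' hJ hj))
        (by
          have h5 := U.neg_mem (U.add_mem (U.smul_mem (d e) h1.2.2.2.2)
            (U.smul_mem (d e') h2.2.2.2.2))
          have h6 : d e • a + d e' • a' - i + (d e • b + d e' • b' - j) =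
              d e • a + d e' • a' + d e • b + d e' • b' - (i + j) := by abel
          rw [h6, hij]
          convert h5 using 1
          simp only [smul_sub, smul_add]; abel)).1
      have h7 : d e' + μ * d e = 0 := by
        by_contra hn
        have h8 : a' ∈ sp v U I := by
          refine mem_of_smul_sub hn (x := i - d e • (a - μ • a')) ?_
            (Submodule.sub_mem _ hi (Submodule.smul_mem _ _ pI.mem_sp))
          convert mem_sp_of_mem_U h4 using 1
          rw [add_smul, smul_sub, mul_comm, mul_smul]; abel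
        apply haI
        rw [show a = (a - μ • a') + μ • a' by abel]
        exact Submodule.add_mem _ pI.mem_sp (Submodule.smul_mem _ _ h8)
      refine ⟨d e, fun x hx => ?_⟩
      rw [mem_insert, mem_singleton] at hx
      rcases hx with rfl | rfl
      · simp
      · simp only [hee.symm, if_false]; linarith)
  have h4 := hc _ (union_subset (insert_subset he (by simpa using he'))
    (union_subset (hI.trans hX) (hJ.trans hY))) h3
  rw [sum_union hdis, sum_union ((hs.mono hI hJ).disjoint fun x hx => pI.1.notMem hx),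
    sum_insert hnm, sum_singleton] at h4
  have := hw e he
  have := hw e' he'
  omega

lemma skew_pair {E X Y : Finset α} (hE : Conn v U E) (hX : X ⊆ E) (hY : Y ⊆ E)
    (hcX : Circ v U X) (hcY : Circ v U Y) (hs : Skew v U X Y) (w : α → ℕ) {W : ℕ}
    (hc : ∀ C ⊆ E, Circ v U C → ∑ e ∈ C, w e ≤ W) (hw : ∀ e ∈ E, 0 < w e ∧ 2 * w e ≤ W)
    (hXw : W ≤ ∑ e ∈ X, w e + 1) (hYw : W ≤ ∑ e ∈ Y, w e + 1) : Good v U E w W := by
  obtain ⟨e1, he1, a1, b1, h1⟩ := exists_cross hE hX hY hcX hcY hs w hc (fun e he => (hw e he).1)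
    hXw hYw
  obtain ⟨h, rfl⟩ : ∃ h, W = 2 * h + 1 := by
    obtain ⟨I, hI, pI, wI⟩ := heavy_path w hcX h1.1 h1.2.1
    obtain ⟨J, hJ, pJ, wJ⟩ := heavy_path w hcY h1.2.2.1 h1.2.2.2.1
    obtain ⟨h2, h3⟩ := h1.circ hs hI hJ pI pJ
    have h4 := hc _ (union_subset (by simpa using he1)
      (union_subset (hI.trans hX) (hJ.trans hY))) h2
    rw [h3] at h4
    have := (hw e1 he1).1
    exact ⟨W / 2, by omega⟩
  set L := E.filter fun e => ¬ ∃ a b, Cross v U X Y e a b with hL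
  have hLE : L ⊆ E := filter_subset _ _
  have hXL : X ⊆ L := fun e he => mem_filter.2 ⟨hX he, fun ⟨_, _, hh⟩ => hh.notMem hs he⟩
  have hYL : Y ⊆ L := fun e he =>
    mem_filter.2 ⟨hY he, fun ⟨_, _, hh⟩ => hh.symm.notMem hs.symm he⟩
  obtain ⟨A, hXA, hAL, hsk, hcA⟩ := exists_component hXL (fun Z hZ hh => hcX.conn hZ hh)
    (fun hh => by
      obtain ⟨x, hx⟩ := hcX.1
      exact hE.1 x (hX hx) (hh _ (mem_sp_of_mem hx) (mem_sp_of_mem hx)))
  have hYB : Y ⊆ L \ A := by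
    rcases side_of_skew (fun Z hZ hh => hcY.conn hZ hh) hsk
      (by rw [union_sdiff_of_subset hAL]; exact hYL) with h2 | h2
    · exfalso
      obtain ⟨e, he, hcr⟩ := exists_cross hcA hXA h2 hcX hcY hs w
        (fun C hC => hc C (hC.trans (hAL.trans hLE))) (fun e he => (hw e (hLE (hAL he))).1) hXw hYw
      exact (mem_filter.1 (hAL he)).2 hcr
    · exact h2
  have hall : ∀ e ∈ E, e ∈ A ∨ e ∈ L \ A ∨ ∃ a b, Cross v U X Y e a b := by
    intro e he
    by_cases h2 : ∃ a b, Cross v U X Y e a b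
    · exact Or.inr (Or.inr h2)
    · by_cases h3 : e ∈ A
      · exact Or.inl h3
      · exact Or.inr (Or.inl (mem_sdiff.2 ⟨mem_filter.2 ⟨he, h2⟩, h3⟩))
  by_cases H1 : ∀ e ∈ E, ∀ a b, Cross v U X Y e a b → Par U a1 a
  · exact port_side hE (hAL.trans hLE) (sdiff_subset.trans hLE) hsk hXA hYB hcX hcY hall w hc hw
      (by omega) (by omega) he1 h1 H1
  by_cases H2 : ∀ e ∈ E, ∀ a b, Cross v U X Y e a b → Par U b1 b
  · refine port_side hE (sdiff_subset.trans hLE) (hAL.trans hLE) hsk.symm hYB hXA hcY hcX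
      (fun e he => ?_) w hc hw (by omega) (by omega) he1 h1.symm
      fun e he a b hh => H2 e he b a hh.symm
    rcases hall e he with h2 | h2 | ⟨a, b, h2⟩
    · exact Or.inr (Or.inl h2)
    · exact Or.inl h2
    · exact Or.inr (Or.inr ⟨b, a, h2.symm⟩)
  exfalso
  push Not at H1 H2
  obtain ⟨e2, he2, a2, b2, h2, n2⟩ := H1
  obtain ⟨e3, he3, a3, b3, h3, n3⟩ := H2
  have np := fun e e' he he' a b a' b' => no_pair hX hY hs hcX hcY w hc (fun e he => (hw e he).1)
    (by omega) (by omega) (e := e) (e' := e') he he' (a := a) (b := b) (a' := a') (b' := b')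
  by_cases c1 : Par U b1 b2
  · by_cases c2 : Par U a1 a3
    · exact np e3 e2 he3 he2 _ _ _ _ h3 h2 (fun hh => n2 (c2.trans hh))
        fun hh => n3 (c1.trans (hh.symm h2.2.2.2.1))
    · exact np e1 e3 he1 he3 _ _ _ _ h1 h3 c2 n3
  · exact np e1 e2 he1 he2 _ _ _ _ h1 h2 n2 c1

theorem weighted (W : ℕ) {E : Finset α} (hE : Conn v U E) (w : α → ℕ)
    (hc : ∀ C ⊆ E, Circ v U C → ∑ e ∈ C, w e ≤ W) (hw : ∀ e ∈ E, 2 * w e ≤ W) :
    Good v U E w W := by
  induction' hn : W + E.card using Nat.strong_induction_on with n ih generalizing E U W w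
  by_cases h0 : ∃ e ∈ E, w e = 0
  · obtain ⟨e, he, hwe⟩ := h0
    by_cases hne : (E.erase e).Nonempty
    · obtain ⟨U', h1, -, -, h4, h5⟩ := removal hE he hne
      obtain ⟨l, hl, hl1, hl2⟩ := ih _ (by have := card_erase_lt_of_mem he; omega) W h1 w
        (fun C hC hcc => by
          obtain ⟨C', h6, h7, h8⟩ := h4 C hC hcc
          exact (sum_le_sum_of_subset h8).trans (hc C' h6 h7))
        (fun f hf => hw f (mem_of_mem_erase hf)) rfl
      refine ⟨l, hl, fun u hu => h5 u (hl1 u hu), fun f hf => ?_⟩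
      by_cases hfe : f = e
      · rw [hfe, hwe]; exact Nat.zero_le _
      · exact hl2 f (mem_erase.2 ⟨hfe, hf⟩)
    · refine ⟨[], by simp, by simp, fun f hf => ?_⟩
      have : f = e := by by_contra hh; exact hne ⟨f, mem_erase.2 ⟨hh, hf⟩⟩
      rw [this, hwe]; exact Nat.zero_le _
  have hpos : ∀ e ∈ E, 0 < w e := fun e he => Nat.pos_of_ne_zero fun hh => h0 ⟨e, he, hh⟩
  have hw' : ∀ e ∈ E, 0 < w e ∧ 2 * w e ≤ W := fun e he => ⟨hpos e he, hw e he⟩
  by_cases h1 : ∃ x ∈ E, W ≤ 2 * w x + 1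
  · obtain ⟨x, hx, hxw⟩ := h1
    have pI : Path v U (v x) {x} := ⟨fun c hcU e he => by
        rw [mem_singleton] at he
        rw [lc_single] at hcU
        by_contra hn
        exact hE.1 x hx ((U.smul_mem_iff (he ▸ hn)).1 hcU),
      fun _ => 1, by simp, by simp [lc_single]⟩
    exact heavy_port hE (A := {x}) (by simpa using hx) (mem_sp_of_mem (mem_singleton_self x))
      (hE.1 x hx) (fun y hy _ => mem_sp_single.1 hy) w (h := w x) (hw x hx) hxw
      (fun J hJ _ => by simpa using sum_le_sum_of_subset (f := w) hJ) (Subset.refl _) pI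
      (by simp) hc hw'
  push Not at h1
  by_cases hEne : E.Nonempty
  swap
  · exact ⟨[], by simp, by simp, fun e he => absurd ⟨e, he⟩ hEne⟩
  obtain ⟨e0, he0⟩ := hEne
  have hW := h1 e0 he0
  by_cases h2 : ∃ X ⊆ E, Circ v U X ∧ W ≤ ∑ e ∈ X, w e + 1
  swap
  · push Not at h2
    obtain ⟨l, hl, hl1⟩ := ih _ (by omega) (W - 2) hE w
      (fun C hC hcc => by have := h2 C hC hcc; omega) (fun e he => by have := h1 e he; omega) rfl
    exact ⟨l, by omega, hl1⟩
  by_cases h3 : ∃ X ∈ {X | X ⊆ E ∧ Circ v U X ∧ W ≤ ∑ e ∈ X, w e + 1},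
      ∃ Y ∈ {X | X ⊆ E ∧ Circ v U X ∧ W ≤ ∑ e ∈ X, w e + 1}, Skew v U X Y
  · obtain ⟨X, hX, Y, hY, hs⟩ := h3
    exact skew_pair hE hX.1 hY.1 hX.2.1 hY.2.1 hs w hc hw' hX.2.2 hY.2.2
  push Not at h3
  obtain ⟨D, hD, hD1⟩ := bramble (v := v) (U := U) (E := E) _ h2 (fun X hX => hX.1)
    (fun X hX Z hZ hs => hX.2.1.conn hZ hs) h3
  obtain ⟨l, hl, hl1, hl2⟩ := ih _ (by omega) (W - 2) hE (low v D w)
    (fun C hC hcc => by
      by_cases h4 : W ≤ ∑ e ∈ C, w e + 1
      · obtain ⟨x, hx, hx0⟩ := hD1 C ⟨hC, hcc, h4⟩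
        obtain ⟨y, hy, hyx, hy0⟩ := hcc.ortho hD.1 hx hx0
        have := sum_low_two hx hy hyx hx0 hy0 (hpos x (hC hx)) (hpos y (hC hy))
        have := hc C hC hcc
        omega
      · have := sum_low_le (v := v) D w C
        omega)
    (fun e he => by have := h1 e he; have := low_le (v := v) D w e; omega) rfl
  refine ⟨D :: D :: l, by simp only [List.length_cons]; omega, fun u hu => ?_, fun e he => ?_⟩
  · rcases List.mem_cons.1 hu with rfl | hu
    · exact hD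
    · rcases List.mem_cons.1 hu with rfl | hu
      · exact hD
      · exact hl1 u hu
  · rw [cov_cons, cov_cons]
    have := le_low (v := v) D w e
    have := hl2 e he
    omega

end

end Pool.Agent.Vertigan
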