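import Pool.Agent.P.MP_b00834_co.Lemos
import Pool.Agent.P.MP_b00834_co.Bramble

set_option autoImplicit false

/-! Gluing paths into circuits, and the heavy port lemma. -/

namespace Pool.Agent.Vertigan

open Finset
open scoped Classical

noncomputable section

variable {α V : Type*} [AddCommGroup V] [Module ℝ V] {v : α → V} {U : Submodule ℝ V}

/-- `x` is a multiple of `a` modulo `U` -/
def Par (U : Submodule ℝ V) (a x : V) : Prop := ∃ t : ℝ, t • a - x ∈ U

lemma Ind.eq_of_sub {J : Finset α} (h : Ind v U J) {c d : α → ℝ} {t : ℝ}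
    (hd : lc v d J - t • lc v c J ∈ U) : ∀ e ∈ J, d e = t * c e := by
  intro e he
  have := h (fun e => d e - t * c e) (by rwa [lc_sub]) e he
  linarith

lemma Path.mem_sp {a : V} {J : Finset α} (h : Path v U a J) : a ∈ sp v U J :=
  let ⟨c, _, hc⟩ := h.2; Vertigan.mem_sp.2 ⟨c, hc⟩

lemma Path.nonempty {a : V} {J : Finset α} (h : Path v U a J) (ha : a ∉ U) : J.Nonempty := by
  by_contra hn
  rw [not_nonempty_iff_eq_empty] at hn
  have := h.mem_sp
  rw [hn, sp_empty] at this
  exact ha this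

lemma Ind.notMem {J : Finset α} (h : Ind v U J) {e : α} (he : e ∈ J) : v e ∉ U :=
  fun hU => h.notMem_sp he (mem_sp_of_mem_U hU)

lemma circ_lift {P J : Finset α} (hd : Disjoint P J) (hP : P.Nonempty) {z : α → ℝ}
    (hz : ∀ e ∈ P, z e ≠ 0) {s : V} (hJ : Path v U s J) (hs : lc v z P - s ∈ U)
    (huniq : ∀ d : α → ℝ, lc v d P ∈ sp v U J → ∃ t : ℝ, ∀ e ∈ P, d e = t * z e) :
    Circ v U (P ∪ J) := by
  obtain ⟨hI, c, hc, hcs⟩ := hJ
  set r : α → ℝ := fun e => if e ∈ P then z e else -1 * c e with hr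
  have h1 : ∀ e ∈ P, r e = z e := fun e he => by simp [hr, he]
  have h2 : ∀ e ∈ J, r e = -1 * c e := fun e he => by simp [hr, disjoint_right.1 hd he]
  refine circ_of_prop (c := r) (hP.mono subset_union_left) ?_ ?_ ?_
  · intro e he
    rcases mem_union.1 he with h | h
    · rw [h1 e h]; exact hz e h
    · rw [h2 e h]; simpa using hc e h
  · rw [lc_union hd, lc_congr h1, lc_congr h2, lc_smul]
    convert U.sub_mem hs hcs using 1
    rw [neg_smul, one_smul]; abel
  · intro d hdU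
    rw [lc_union hd] at hdU
    obtain ⟨t, ht⟩ := huniq d (by
      rw [show lc v d P = (lc v d P + lc v d J) - lc v d J by abel]
      exact Submodule.sub_mem _ (mem_sp_of_mem_U hdU) (lc_mem_sp _ _))
    rw [lc_congr ht, lc_smul] at hdU
    have h3 := hI.eq_of_sub (c := c) (d := d) (t := -t) (by
      convert U.sub_mem hdU (U.smul_mem t (U.sub_mem hs hcs)) using 1
      simp only [smul_sub, neg_smul]; abel)
    refine ⟨t, fun e he => ?_⟩
    rcases mem_union.1 he with h | h
    · rw [h1 e h]; exact ht e h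
    · rw [h2 e h, h3 e h]; ring

lemma circ_glue {a : V} (ha : a ∉ U) {J J' : Finset α} (hd : Disjoint J J') (hJ : Path v U a J)
    (hJ' : Path v U a J') (h : ∀ x ∈ sp v U J, x ∈ sp v U J' → Par U a x) : Circ v U (J ∪ J') := by
  obtain ⟨c, hc, hcs⟩ := hJ.2
  refine circ_lift hd (hJ.nonempty ha) hc hJ' hcs fun d hd => ?_
  obtain ⟨t, ht⟩ := h _ (lc_mem_sp d J) hd
  refine ⟨t, hJ.1.eq_of_sub ?_⟩
  convert U.neg_mem (U.add_mem ht (U.smul_mem t hcs)) using 1
  simp only [smul_sub]; abel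

lemma Skew.disjoint {A B : Finset α} (h : Skew v U A B) (hA : ∀ e ∈ A, v e ∉ U) : Disjoint A B :=
  disjoint_left.2 fun e he he' => hA e he (h _ (mem_sp_of_mem he) (mem_sp_of_mem he'))

lemma Path.union {a b : V} {I J : Finset α} (hI : Path v U a I) (hJ : Path v U b J)
    (hs : Skew v U I J) : Path v U (a + b) (I ∪ J) := by
  have hd : Disjoint I J := hs.disjoint fun e he => hI.1.notMem he
  constructor
  · intro d hdU e he
    rw [lc_union hd] at hdU
    obtain ⟨h1, h2⟩ := hs.add (lc_mem_sp _ _) (lc_mem_sp _ _) hdU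
    rcases mem_union.1 he with h | h
    · exact hI.1 d h1 e h
    · exact hJ.1 d h2 e h
  · obtain ⟨c, hc, hcs⟩ := hI.2
    obtain ⟨c', hc', hcs'⟩ := hJ.2
    have h1 : ∀ e ∈ I, (fun e => if e ∈ I then c e else c' e) e = c e := fun e he => by simp [he]
    have h2 : ∀ e ∈ J, (fun e => if e ∈ I then c e else c' e) e = c' e := fun e he => by
      simp [disjoint_right.1 hd he]
    refine ⟨fun e => if e ∈ I then c e else c' e, fun e he => ?_, ?_⟩
    · rcases mem_union.1 he with h | h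
      · rw [h1 e h]; exact hc e h
      · rw [h2 e h]; exact hc' e h
    · rw [lc_union hd, lc_congr h1, lc_congr h2]
      convert U.add_mem hcs hcs' using 1
      abel

lemma Path.side {a : V} {E A J : Finset α} (hJ : Path v U a J) (hJE : J ⊆ E) (ha : a ∈ sp v U A)
    (h : ∀ x ∈ sp v U A, x ∈ sp v U (E \ A) → Par U a x) : J ⊆ A ∨ J ⊆ E \ A := by
  obtain ⟨hI, c, hc, hcs⟩ := hJ
  rw [lc_split c J A] at hcs
  obtain ⟨t, ht⟩ := h (lc v c (J \ A)) (by
      rw [show lc v c (J \ A) = (lc v c (J ∩ A) + lc v c (J \ A) - a) + a - lc v c (J ∩ A) by abel]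
      exact Submodule.sub_mem _ (Submodule.add_mem _ (mem_sp_of_mem_U hcs) ha)
        (sp_mono' inter_subset_right (lc_mem_sp _ _)))
    (sp_mono' (sdiff_subset_sdiff hJE (Subset.refl _)) (lc_mem_sp _ _))
  by_cases h0 : t = 0
  · left
    subst h0
    intro e he
    by_contra heA
    exact hc e he ((hI.mono sdiff_subset) c (mem_of_zero_smul_sub ht) e (mem_sdiff.2 ⟨he, heA⟩))
  · right
    intro e he
    refine mem_sdiff.2 ⟨hJE he, fun heA => ?_⟩
    set d : α → ℝ := fun f => if f ∈ A then t * c f else (t - 1) * c f with hd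
    have h1 : lc v d (J ∩ A) = t • lc v c (J ∩ A) := by
      rw [← lc_smul]; exact lc_congr fun f hf => by simp [hd, (mem_inter.1 hf).2]
    have h2 : lc v d (J \ A) = (t - 1) • lc v c (J \ A) := by
      rw [← lc_smul]; exact lc_congr fun f hf => by simp [hd, (mem_sdiff.1 hf).2]
    have := hI d (by
      rw [lc_split d J A, h1, h2]
      convert U.add_mem ht (U.smul_mem t hcs) using 1
      simp only [smul_sub, smul_add, sub_smul, one_smul]; abel) e he
    simp only [hd, heA, if_true] at this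
    exact mul_ne_zero h0 (hc e he) this

lemma Circ.notMem {C : Finset α} (h : Circ v U C) {x y : α} (hx : x ∈ C) (hy : y ∈ C)
    (hxy : x ≠ y) : v x ∉ U :=
  (h.ind (erase_subset y C) hy (notMem_erase _ _)).notMem (mem_erase.2 ⟨hxy, hx⟩)

lemma sum_two_mul (w : α → ℕ) (S : Finset α) : ∑ e ∈ S, 2 * w e = 2 * ∑ e ∈ S, w e :=
  (mul_sum _ _ _).symm

lemma heavy_port {E A : Finset α} (hE : Conn v U E) (hA : A ⊆ E) {a : V} (ha : a ∈ sp v U A)
    (haU : a ∉ U) (hpar : ∀ x ∈ sp v U A, x ∈ sp v U (E \ A) → Par U a x) (w : α → ℕ) {h W : ℕ}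
    (h1 : 2 * h ≤ W) (h2 : W ≤ 2 * h + 1) (hA1 : ∀ J ⊆ A, Path v U a J → ∑ e ∈ J, w e ≤ h)
    {I : Finset α} (hIA : I ⊆ A) (hI : Path v U a I) (hIw : h ≤ ∑ e ∈ I, w e)
    (hc : ∀ C ⊆ E, Circ v U C → ∑ e ∈ C, w e ≤ W) (hw : ∀ e ∈ E, 0 < w e ∧ 2 * w e ≤ W) :
    ∃ l : List (V →ₗ[ℝ] ℝ), l.length ≤ W ∧ (∀ u ∈ l, Vert v U E u) ∧
      ∀ e ∈ E, 2 * w e ≤ cov v l e := by
  have haE : a ∈ sp v U E := sp_mono' hA ha
  have hB : ∀ J ⊆ E \ A, Path v U a J → ∑ e ∈ J, w e ≤ h + 1 := by
    intro J hJ hp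
    have hd : Disjoint I J := disjoint_left.2 fun e he he' => (mem_sdiff.1 (hJ he')).2 (hIA he)
    have := hc _ (union_subset (hIA.trans hA) (hJ.trans sdiff_subset))
      (circ_glue haU hd hI hp fun x hx hx' => hpar x (sp_mono' hIA hx) (sp_mono' hJ hx'))
    rw [sum_union hd] at this
    omega
  by_cases hex : ∃ J ⊆ E \ A, Path v U a J ∧ ∑ e ∈ J, w e = h + 1
  swap
  · obtain ⟨l, hl, hl1, hl2⟩ := lemos_port (2 * h) hE haE haU (fun e => 2 * w e) fun J hJ hp => by
      rw [sum_two_mul]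
      rcases hp.side hJ ha hpar with h3 | h3
      · have := hA1 J h3 hp; omega
      · have := hB J h3 hp
        have : ∑ e ∈ J, w e ≠ h + 1 := fun hh => hex ⟨J, h3, hp, hh⟩
        omega
    exact ⟨l, hl.trans h1, hl1, hl2⟩
  have hW : W = 2 * h + 1 := by
    obtain ⟨J, hJ, hp, hJw⟩ := hex
    have hd : Disjoint I J := disjoint_left.2 fun e he he' => (mem_sdiff.1 (hJ he')).2 (hIA he)
    have := hc _ (union_subset (hIA.trans hA) (hJ.trans sdiff_subset))
      (circ_glue haU hd hI hp fun x hx hx' => hpar x (sp_mono' hIA hx) (sp_mono' hJ hx'))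
    rw [sum_union hd] at this
    omega
  have circ : ∀ J ⊆ E \ A, Path v U a J → Circ v (sp v U A) J := by
    intro J hJ hp
    obtain ⟨c, hc, hcs⟩ := hp.2
    refine circ_of_prop (hp.nonempty haU) hc ?_ fun d hd => ?_
    · rw [show lc v c J = (lc v c J - a) + a by abel]
      exact Submodule.add_mem _ (mem_sp_of_mem_U hcs) ha
    · obtain ⟨t, ht⟩ := hpar _ hd (sp_mono' hJ (lc_mem_sp d J))
      refine ⟨t, hp.1.eq_of_sub ?_⟩
      convert U.neg_mem (U.add_mem ht (U.smul_mem t hcs)) using 1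
      simp only [smul_sub]; abel
  have nl : ∀ J ⊆ E \ A, Path v U a J → ∑ e ∈ J, w e = h + 1 → ∀ e ∈ J, v e ∉ sp v U A := by
    intro J hJ hp hJw e he
    have : ∃ f ∈ J, e ≠ f := by
      by_contra hn
      push Not at hn
      have h3 : J = {e} := eq_singleton_iff_unique_mem.2 ⟨he, fun f hf => (hn f hf).symm⟩
      rw [h3, sum_singleton] at hJw
      have := (hw e (mem_sdiff.1 (hJ he)).1).2
      omega
    obtain ⟨f, hf, hef⟩ := this
    exact (circ J hJ hp).notMem he hf hef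
  obtain ⟨D, hD, hD1⟩ := bramble (v := v) (U := sp v U A) (E := E \ A)
    {J | J ⊆ E \ A ∧ Path v U a J ∧ ∑ e ∈ J, w e = h + 1} hex (fun J hJ => hJ.1)
    (fun J hJ X hX hs => (circ J hJ.1 hJ.2.1).conn hX hs)
    (fun J hJ J' hJ' hs => by
      have hd : Disjoint J J' := hs.disjoint (nl J hJ.1 hJ.2.1 hJ.2.2)
      have := hc _ (union_subset (hJ.1.trans sdiff_subset) (hJ'.1.trans sdiff_subset))
        (circ_glue haU hd hJ.2.1 hJ'.2.1 fun x hx hx' => hpar x
          (hs x (sp_mono (le_sp _) (Subset.refl _) hx) (sp_mono (le_sp _) (Subset.refl _) hx'))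
          (sp_mono' hJ.1 hx))
      rw [sum_union hd, hJ.2.2, hJ'.2.2] at this
      omega)
  have hDE : Vert v U E D := hD.mono (T := A) (le_sp _) sdiff_subset
    (by rw [sp_sp, union_sdiff_of_subset hA]) hA le_rfl fun e he => mem_sp_of_mem he
  obtain ⟨l, hl, hl1, hl2⟩ := lemos_port (2 * h) hE haE haU (low v D fun e => 2 * w e)
    fun J hJ hp => by
      have h4 := sum_low_le (v := v) D (fun e => 2 * w e) J
      rw [sum_two_mul] at h4
      rcases hp.side hJ ha hpar with h3 | h3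
      · have := hA1 J h3 hp; omega
      · by_cases h5 : ∑ e ∈ J, w e = h + 1
        · obtain ⟨x, hx, hx0⟩ := hD1 J ⟨h3, hp, h5⟩
          obtain ⟨y, hy, hyx, hy0⟩ := (circ J h3 hp).ortho hD.1 hx hx0
          have h6 := sum_low_two (d := fun e => 2 * w e) hx hy hyx hx0 hy0
            (by have := (hw x (hJ hx)).1; omega) (by have := (hw y (hJ hy)).1; omega)
          rw [sum_two_mul] at h6
          omega
        · have := hB J h3 hp; omega
  refine ⟨D :: l, by simp only [List.length_cons]; omega, fun u hu => ?_, fun e he => ?_⟩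
  · rcases List.mem_cons.1 hu with rfl | hu
    · exact hDE
    · exact hl1 u hu
  · rw [cov_cons]
    have := le_low (v := v) D (fun e => 2 * w e) e
    have := hl2 e he
    omega

end

end Pool.Agent.Vertigan
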