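import Pool.Agent.P.MP_b00834_co.Transfer

set_option autoImplicit false

/-! Covers with arbitrary demands for real vector configurations. -/

namespace Pool.Agent.Vertigan

open Finset
open scoped Classical

noncomputable section

variable {α V : Type*} [AddCommGroup V] [Module ℝ V] {v : α → V} {U : Submodule ℝ V}

theorem single_cover (N : ℕ) {E : Finset α} (hE : Conn v U E) (w : α → ℕ)
    (hc : ∀ C ⊆ E, Circ v U C → ∑ e ∈ C, w e ≤ 2 * N) (hw : ∀ e ∈ E, w e ≤ N) :
    ∃ l : List (V →ₗ[ℝ] ℝ), l.length ≤ N ∧ (∀ u ∈ l, Vert v U E u) ∧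
      ∀ e ∈ E, w e ≤ cov v l e := by
  induction' hn : N + E.card using Nat.strong_induction_on with n ih generalizing E U N w
  by_cases h0 : ∃ e ∈ E, w e = 0
  · obtain ⟨e, he, hwe⟩ := h0
    by_cases hne : (E.erase e).Nonempty
    · obtain ⟨U', h1, -, -, h4, h5⟩ := removal hE he hne
      obtain ⟨l, hl, hl1, hl2⟩ := ih _ (by have := card_erase_lt_of_mem he; omega) N h1 w
        (fun C hC hcc => by
          obtain ⟨C', h6, h7, h8⟩ := h4 C hC hcc
          exact (sum_le_sum_of_subset h8).trans (hc C' h6 h7))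
        (fun f hf => hw f (mem_of_mem_erase hf)) rfl
      refine ⟨l, hl, fun u hu => h5 u (hl1 u hu), fun f hf => ?_⟩
      by_cases hfe : f = e
      · rw [hfe, hwe]; exact Nat.zero_le _
      · exact hl2 f (mem_erase.2 ⟨hfe, hf⟩)
    · refine ⟨[], by simp, by simp, fun f hf => ?_⟩
      have : f = e := by by_contra hh; exact hne ⟨f, mem_erase.2 ⟨hh, hf⟩⟩
      rw [this, hwe]; exact Nat.zero_le _
  have hpos : ∀ e ∈ E, 0 < w e := fun e he => Nat.pos_of_ne_zero fun hh => h0 ⟨e, he, hh⟩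
  by_cases h1 : ∃ x ∈ E, N ≤ w x
  · obtain ⟨x, hx, hxw⟩ := h1
    have pI : Path v U (v x) {x} := ⟨fun c hcU e he => by
        rw [mem_singleton] at he
        rw [lc_single] at hcU
        by_contra hn
        exact hE.1 x hx ((U.smul_mem_iff (he ▸ hn)).1 hcU),
      fun _ => 1, by simp, by simp [lc_single]⟩
    have hpar : ∀ y ∈ sp v U {x}, y ∈ sp v U (E \ {x}) → Par U (v x) y :=
      fun y hy _ => mem_sp_single.1 hy
    refine lemos_port N hE (mem_sp_of_mem hx) (hE.1 x hx) w fun J hJ hp => ?_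
    rcases hp.side hJ (mem_sp_of_mem (mem_singleton_self x)) hpar with h3 | h3
    · have := sum_le_sum_of_subset (f := w) h3
      rw [sum_singleton] at this
      exact this.trans (hw x hx)
    · have hd : Disjoint ({x} : Finset α) J :=
        disjoint_left.2 fun e he he' => (mem_sdiff.1 (h3 he')).2 he
      have := hc _ (union_subset (by simpa using hx) hJ)
        (circ_glue (hE.1 x hx) hd pI hp fun y hy _ => mem_sp_single.1 hy)
      rw [sum_union hd, sum_singleton] at this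
      omega
  push Not at h1
  by_cases hEne : E.Nonempty
  swap
  · exact ⟨[], by simp, by simp, fun e he => absurd ⟨e, he⟩ hEne⟩
  obtain ⟨e0, he0⟩ := hEne
  have hW := h1 e0 he0
  by_cases h2 : ∃ X ⊆ E, Circ v U X ∧ 2 * N ≤ ∑ e ∈ X, w e + 1
  swap
  · push Not at h2
    obtain ⟨l, hl, hl1⟩ := ih _ (by omega) (N - 1) hE w
      (fun C hC hcc => by have := h2 C hC hcc; omega) (fun e he => by have := h1 e he; omega) rfl
    exact ⟨l, by omega, hl1⟩
  by_cases h3 : ∃ X ∈ {X | X ⊆ E ∧ Circ v U X ∧ 2 * N ≤ ∑ e ∈ X, w e + 1},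
      ∃ Y ∈ {X | X ⊆ E ∧ Circ v U X ∧ 2 * N ≤ ∑ e ∈ X, w e + 1}, Skew v U X Y
  · exfalso
    obtain ⟨X, ⟨hX, hcX, hXw⟩, Y, ⟨hY, hcY, hYw⟩, hs⟩ := h3
    obtain ⟨e1, he1, a1, b1, h4⟩ := exists_cross hE hX hY hcX hcY hs w hc hpos hXw hYw
    obtain ⟨I, hI, pI, wI⟩ := heavy_path w hcX h4.1 h4.2.1
    obtain ⟨J, hJ, pJ, wJ⟩ := heavy_path w hcY h4.2.2.1 h4.2.2.2.1
    obtain ⟨h5, h6⟩ := h4.circ hs hI hJ pI pJ
    have h7 := hc _ (union_subset (by simpa using he1)
      (union_subset (hI.trans hX) (hJ.trans hY))) h5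
    rw [h6] at h7
    have := hpos e1 he1
    omega
  push Not at h3
  obtain ⟨D, hD, hD1⟩ := bramble (v := v) (U := U) (E := E) _ h2 (fun X hX => hX.1)
    (fun X hX Z hZ hs => hX.2.1.conn hZ hs) h3
  obtain ⟨l, hl, hl1, hl2⟩ := ih _ (by omega) (N - 1) hE (low v D w)
    (fun C hC hcc => by
      by_cases h4 : 2 * N ≤ ∑ e ∈ C, w e + 1
      · obtain ⟨x, hx, hx0⟩ := hD1 C ⟨hC, hcc, h4⟩
        obtain ⟨y, hy, hyx, hy0⟩ := hcc.ortho hD.1 hx hx0
        have := sum_low_two hx hy hyx hx0 hy0 (hpos x (hC hx)) (hpos y (hC hy))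
        have := hc C hC hcc
        omega
      · have := sum_low_le (v := v) D w C
        omega)
    (fun e he => by have := h1 e he; have := low_le (v := v) D w e; omega) rfl
  refine ⟨D :: l, by simp only [List.length_cons]; omega, fun u hu => ?_, fun e he => ?_⟩
  · rcases List.mem_cons.1 hu with rfl | hu
    · exact hD
    · exact hl1 u hu
  · rw [cov_cons]
    have := le_low (v := v) D w e
    have := hl2 e he
    omega

theorem demand_cover {M : Matroid α} (hv : ∀ I, M.Indep I ↔ I ⊆ M.E ∧ LinearIndepOn ℝ v I)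
    (hfin : M.E.Finite) (h2 : 2 ≤ M.E.ncard)
    (hconn : ∀ e ∈ M.E, ∀ f ∈ M.E, e ≠ f → ∃ C : Set α, M.IsCircuit C ∧ e ∈ C ∧ f ∈ C)
    (d : α → ℕ) (N : ℕ) (hd : ∀ e ∈ M.E, d e ≤ N)
    (hc : ∀ C : Finset α, M.IsCircuit (C : Set α) → ∑ e ∈ C, d e ≤ 2 * N) :
    ∃ D : Fin N → Set α, (∀ i, M.IsCocircuit (D i)) ∧
      ∀ e ∈ M.E, d e ≤ {i : Fin N | e ∈ D i}.ncard := by
  have hnt : M.E.Nontrivial := (Set.one_lt_ncard_iff_nontrivial_and_finite.1 h2).1
  have hconn' : ∀ e ∈ M.E, ∀ f ∈ M.E, ∃ C : Set α, M.IsCircuit C ∧ e ∈ C ∧ f ∈ C := by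
    intro e he f hf
    by_cases h : e = f
    · subst h
      obtain ⟨g, hg, hge⟩ := hnt.exists_ne e
      obtain ⟨C, hC, h1, -⟩ := hconn e he g hg hge.symm
      exact ⟨C, hC, h1, h1⟩
    · exact hconn e he f hf h
  obtain ⟨E, hE⟩ := hfin.exists_finset_coe
  have h2' : 2 ≤ E.card := by rwa [← hE, Set.ncard_coe_finset] at h2
  have hC := conn_of_circuits hv hE h2' hconn'
  obtain ⟨e0, he0⟩ : E.Nonempty := card_pos.1 (by omega)
  obtain ⟨l, hl, hl1, hl2⟩ := single_cover N hC d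
    (fun C hCE h => hc C (isCircuit_of_circ hv (hE ▸ coe_subset.2 hCE) h))
    (fun e he => hd e (hE ▸ mem_coe.2 he))
  obtain ⟨u0, hu0, -⟩ := exists_vert (v := v) (U := ⊥) (empty_subset E) he0
    (by rw [sp_empty]; exact hC.1 e0 he0)
  refine ⟨fun i => {e | e ∈ M.E ∧ (l.getD i u0) (v e) ≠ 0}, fun i => ?_, fun e he => ?_⟩
  · refine isCocircuit_of_vert hv hE ?_
    by_cases hi : i.1 < l.length
    · rw [List.getD_eq_getElem _ _ hi]; exact hl1 _ (List.getElem_mem hi)
    · rw [List.getD_eq_default _ _ (by omega)]; exact hu0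
  · refine (hl2 e (by rw [← mem_coe, hE]; exact he)).trans ?_
    have h1 : cov v l e = (univ.filter fun i : Fin l.length => l[i] (v e) ≠ 0).card := by
      rw [cov, ← Fin.sum_univ_fun_getElem, card_filter]
      exact sum_congr rfl fun i _ => by by_cases hh : l[i.1] (v e) = 0 <;> simp [hh]
    rw [h1, ← Set.ncard_coe_finset]
    refine Set.ncard_le_ncard_of_injOn (fun i => Fin.castLE hl i) (fun i hi => ?_)
      (fun i _ j _ hij => Fin.castLE_injective hl hij) (Set.toFinite _)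
    refine ⟨he, ?_⟩
    have hi' := (mem_filter.1 (mem_coe.1 hi)).2
    have : l.getD (Fin.castLE hl i : Fin N) u0 = l[i] := List.getD_eq_getElem _ _ i.2
    rw [this]
    exact hi'

end

end Pool.Agent.Vertigan
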