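import Pool.Agent.P.MP_b00834_co.Main

set_option autoImplicit false

/-! From vector configurations to matroids. -/

namespace Pool.Agent.Vertigan

open Finset
open scoped Classical

noncomputable section

variable {α V : Type*} [AddCommGroup V] [Module ℝ V] {v : α → V} {M : Matroid α}

lemma ind_iff {S : Finset α} : Ind v ⊥ S ↔ LinearIndepOn ℝ v (S : Set α) := by
  rw [linearIndepOn_finset_iff]
  simp [Ind, lc]

lemma isCircuit_of_circ (hv : ∀ I, M.Indep I ↔ I ⊆ M.E ∧ LinearIndepOn ℝ v I) {C : Finset α}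
    (hC : (C : Set α) ⊆ M.E) (h : Circ v ⊥ C) : M.IsCircuit C := by
  rw [Matroid.isCircuit_iff_forall_ssubset]
  refine ⟨⟨fun hi => h.not_ind (ind_iff.2 ((hv _).1 hi).2), hC⟩, fun I hI => ?_⟩
  obtain ⟨x, hx, hxI⟩ := Set.exists_of_ssubset hI
  have h1 := ind_iff.1 (h.ind (erase_subset x C) hx (notMem_erase _ _))
  refine (hv _).2 ⟨hI.subset.trans hC, h1.mono fun y hy => ?_⟩
  exact mem_coe.2 (mem_erase.2 ⟨fun hh => hxI (hh ▸ hy), hI.subset hy⟩)

lemma circ_of_isCircuit (hv : ∀ I, M.Indep I ↔ I ⊆ M.E ∧ LinearIndepOn ℝ v I) {C : Finset α}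
    (h : M.IsCircuit C) : Circ v ⊥ C := by
  have h1 : ¬ Ind v ⊥ C := fun hi => h.dep.not_indep ((hv _).2 ⟨h.subset_ground, ind_iff.1 hi⟩)
  unfold Ind at h1
  push Not at h1
  obtain ⟨c, hc, x, hx, h0⟩ := h1
  obtain ⟨C', hC', hc', -⟩ := exists_circ_mem hc hx h0
  have h2 := (isCircuit_of_circ hv ((coe_subset.2 hC').trans h.subset_ground)
    hc').eq_of_subset_isCircuit h (coe_subset.2 hC')
  rwa [← coe_injective h2]

lemma mem_span_of_not_indep (hv : ∀ I, M.Indep I ↔ I ⊆ M.E ∧ LinearIndepOn ℝ v I) {I : Set α}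
    (hI : M.Indep I) {e : α} (he : e ∈ M.E) (h : e ∉ I → ¬ M.Indep (insert e I)) :
    v e ∈ Submodule.span ℝ (v '' I) := by
  by_cases heI : e ∈ I
  · exact Submodule.subset_span ⟨e, heI, rfl⟩
  by_contra hn
  exact h heI ((hv _).2 ⟨Set.insert_subset he hI.subset_ground,
    (linearIndepOn_insert heI).2 ⟨((hv _).1 hI).2, hn⟩⟩)

lemma isCocircuit_of_vert (hv : ∀ I, M.Indep I ↔ I ⊆ M.E ∧ LinearIndepOn ℝ v I) {E : Finset α}
    (hE : (E : Set α) = M.E) {u : V →ₗ[ℝ] ℝ} (h : Vert v ⊥ E u) :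
    M.IsCocircuit {e | e ∈ M.E ∧ u (v e) ≠ 0} := by
  have ker : ∀ I : Set α, (∀ e ∈ I, u (v e) = 0) → ∀ x ∈ Submodule.span ℝ (v '' I), u x = 0 := by
    intro I hI x hx
    have : Submodule.span ℝ (v '' I) ≤ LinearMap.ker u :=
      Submodule.span_le.2 (by rintro _ ⟨e, he, rfl⟩; exact hI e he)
    exact this hx
  rw [Matroid.isCocircuit_iff_minimal]
  refine ⟨fun B hB => ?_, fun X hX hXD f hf => ?_⟩
  · by_contra hn
    obtain ⟨e, he, he0⟩ := h.2.1
    have heE : e ∈ M.E := hE ▸ mem_coe.2 he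
    refine he0 (ker B (fun b hb => ?_) _ (mem_span_of_not_indep hv hB.indep heE
      fun heB => (hB.insert_dep ⟨heE, heB⟩).not_indep))
    by_contra hb0
    exact hn ⟨b, ⟨hB.subset_ground hb, hb0⟩, hb⟩
  · by_contra hfX
    obtain ⟨I, hI⟩ := M.exists_isBasis {e | e ∈ M.E ∧ u (v e) = 0} fun e he => he.1
    have hI0 : ∀ e ∈ I, u (v e) = 0 := fun e he => (hI.subset he).2
    have hfI : f ∉ I := fun hh => hf.2 (hI0 f hh)
    have hind : M.Indep (insert f I) := (hv _).2 ⟨Set.insert_subset hf.1 hI.indep.subset_ground,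
      (linearIndepOn_insert hfI).2 ⟨((hv _).1 hI.indep).2, fun hh => hf.2 (ker I hI0 _ hh)⟩⟩
    have hfE : f ∈ E := by rw [← mem_coe, hE]; exact hf.1
    have hspan : sp v ⊥ E ≤ Submodule.span ℝ (v '' insert f I) := by
      refine (h.sp_le_insert hfE hf.2).trans (sp_le bot_le fun e he => ?_)
      rcases mem_union.1 he with h1 | h1
      · have h2 : e ∈ M.E := hE ▸ mem_coe.2 (mem_filter.1 h1).1
        exact Submodule.span_mono (Set.image_mono (Set.subset_insert _ _))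
          (mem_span_of_not_indep hv hI.indep h2
            fun heI => (hI.insert_dep ⟨⟨h2, (mem_filter.1 h1).2⟩, heI⟩).not_indep)
      · rw [mem_singleton.1 h1]
        exact Submodule.subset_span ⟨f, Set.mem_insert _ _, rfl⟩
    have hbase : M.IsBase (insert f I) := hind.isBase_of_forall_insert fun e he hi => by
      have h1 : e ∈ E := by rw [← mem_coe, hE]; exact he.1
      exact ((linearIndepOn_insert he.2).1 ((hv _).1 hi).2).2 (hspan (mem_sp_of_mem h1))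
    obtain ⟨x, hx, hxB⟩ := hX _ hbase
    rcases hxB with rfl | hxI
    · exact hfX hx
    · exact (hXD hx).2 (hI0 x hxI)

lemma conn_of_circuits (hv : ∀ I, M.Indep I ↔ I ⊆ M.E ∧ LinearIndepOn ℝ v I) {E : Finset α}
    (hE : (E : Set α) = M.E) (h2 : 2 ≤ E.card)
    (hc : ∀ e ∈ M.E, ∀ f ∈ M.E, ∃ C : Set α, M.IsCircuit C ∧ e ∈ C ∧ f ∈ C) : Conn v ⊥ E := by
  have key : ∀ e ∈ E, ∀ f ∈ E, ∃ C ⊆ E, Circ v ⊥ C ∧ e ∈ C ∧ f ∈ C := by
    intro e he f hf
    obtain ⟨C, hC, heC, hfC⟩ := hc e (hE ▸ mem_coe.2 he) f (hE ▸ mem_coe.2 hf)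
    have h1 : ((E.filter fun x => x ∈ C : Finset α) : Set α) = C := by
      ext x
      simp only [coe_filter, Set.mem_ofPred_eq, and_iff_right_iff_imp]
      intro hx
      rw [← mem_coe, hE]; exact hC.subset_ground hx
    exact ⟨E.filter fun x => x ∈ C, filter_subset _ _, circ_of_isCircuit hv (h1.symm ▸ hC),
      mem_filter.2 ⟨he, heC⟩, mem_filter.2 ⟨hf, hfC⟩⟩
  refine ⟨fun e he => ?_, fun A hA hs => ?_⟩
  · obtain ⟨f, hf, hfe⟩ := exists_mem_ne (s := E) (by omega) e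
    obtain ⟨C, -, h3, h4, h5⟩ := key e he f hf
    exact h3.notMem h4 h5 hfe.symm
  · by_contra hn
    push Not at hn
    obtain ⟨⟨x, hx⟩, hne⟩ := hn
    obtain ⟨y, hy, hyA⟩ := exists_of_ssubset (lt_of_le_of_ne hA hne)
    obtain ⟨C, hC, h3, h4, h5⟩ := key x (hA hx) y hy
    rcases h3.conn (A := C ∩ A) inter_subset_left (hs.mono inter_subset_right fun e he => by
      simp only [mem_sdiff, mem_inter] at he ⊢
      exact ⟨hC he.1, fun hh => he.2 ⟨he.1, hh⟩⟩) with h6 | h6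
    · have : x ∈ C ∩ A := mem_inter.2 ⟨h4, hx⟩
      rw [h6] at this; simp at this
    · rw [← h6] at h5; exact hyA (mem_inter.1 h5).2

lemma two_of_cov {l : List (V →ₗ[ℝ] ℝ)} {e : α} (h : 2 ≤ cov v l e) :
    ∃ i j : Fin l.length, i ≠ j ∧ l[i] (v e) ≠ 0 ∧ l[j] (v e) ≠ 0 := by
  have h1 : cov v l e = (univ.filter fun i : Fin l.length => l[i] (v e) ≠ 0).card := by
    rw [cov, ← Fin.sum_univ_fun_getElem, card_filter]
    exact sum_congr rfl fun i _ => by by_cases hh : l[i.1] (v e) = 0 <;> simp [hh]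
  obtain ⟨i, hi, j, hj, hij⟩ := one_lt_card.1 (show 1 < _ from h1 ▸ h)
  exact ⟨i, j, hij, (mem_filter.1 hi).2, (mem_filter.1 hj).2⟩

theorem double_cover (hv : ∀ I, M.Indep I ↔ I ⊆ M.E ∧ LinearIndepOn ℝ v I) (hfin : M.Finite)
    (h2 : 2 ≤ M.E.ncard)
    (hconn : ∀ e ∈ M.E, ∀ f ∈ M.E, ∃ C : Set α, M.IsCircuit C ∧ e ∈ C ∧ f ∈ C) (c : ℕ)
    (hc : ∀ C : Set α, M.IsCircuit C → C.ncard ≤ c) :
    ∃ D : Fin c → Set α, (∀ i, M.IsCocircuit (D i)) ∧
      ∀ e ∈ M.E, ∃ i j : Fin c, i ≠ j ∧ e ∈ D i ∧ e ∈ D j := by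
  obtain ⟨E, hE⟩ := hfin.ground_finite.exists_finset_coe
  have h2' : 2 ≤ E.card := by rwa [← hE, Set.ncard_coe_finset] at h2
  have hC := conn_of_circuits hv hE h2' hconn
  have hc' : ∀ C ⊆ E, Circ v ⊥ C → C.card ≤ c := fun C hCE h => by
    have := hc C (isCircuit_of_circ hv (hE ▸ coe_subset.2 hCE) h)
    rwa [Set.ncard_coe_finset] at this
  obtain ⟨e0, he0, f0, hf0, hef⟩ := one_lt_card.1 (show 1 < E.card by omega)
  have hc2 : 2 ≤ c := by
    obtain ⟨C, h3, h4, h5, h6⟩ := hC.two he0 hf0 hef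
    have := hc' C h3 h4
    have := one_lt_card.2 ⟨e0, h5, f0, h6, hef⟩
    omega
  obtain ⟨l, hl, hl1, hl2⟩ := weighted c hC (fun _ => 1) (fun C h3 h4 => by simpa using hc' C h3 h4)
    (fun _ _ => hc2)
  obtain ⟨u0, hu0, -⟩ := exists_vert (v := v) (U := ⊥) (empty_subset E) he0
    (by rw [sp_empty]; exact hC.1 e0 he0)
  refine ⟨fun i => {e | e ∈ M.E ∧ (l.getD i u0) (v e) ≠ 0}, fun i => ?_, fun e he => ?_⟩
  · refine isCocircuit_of_vert hv hE ?_
    by_cases hi : i.1 < l.length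
    · rw [List.getD_eq_getElem _ _ hi]; exact hl1 _ (List.getElem_mem hi)
    · rw [List.getD_eq_default _ _ (by omega)]; exact hu0
  · obtain ⟨i, j, hij, hi, hj⟩ := two_of_cov (hl2 e (by rw [← mem_coe, hE]; exact he))
    refine ⟨⟨i.1, i.2.trans_le hl⟩, ⟨j.1, j.2.trans_le hl⟩, fun hh => hij (Fin.ext ?_),
      ⟨he, ?_⟩, he, ?_⟩
    · exact Fin.mk.inj_iff.1 hh
    · rw [List.getD_eq_getElem _ _ i.2]; exact hi
    · rw [List.getD_eq_getElem _ _ j.2]; exact hj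

end

end Pool.Agent.Vertigan
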