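import Pool.Agent.P.MP_b00834_co.Basic

set_option autoImplicit false

/-! Removing an element while keeping connectivity. -/

namespace Pool.Agent.Vertigan

open Finset
open scoped Classical

noncomputable section

variable {α V : Type*} [AddCommGroup V] [Module ℝ V] {v : α → V} {U : Submodule ℝ V}

lemma mem_of_smul_sub {N : Submodule ℝ V} {a x : V} {t : ℝ} (ht : t ≠ 0) (h : t • a - x ∈ N)
    (hx : x ∈ N) : a ∈ N := by
  have : a = t⁻¹ • ((t • a - x) + x) := by
    rw [sub_add_cancel, smul_smul, inv_mul_cancel₀ ht, one_smul]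
  rw [this]
  exact N.smul_mem _ (N.add_mem h hx)

lemma mem_of_zero_smul_sub {N : Submodule ℝ V} {a x : V} (h : (0 : ℝ) • a - x ∈ N) : x ∈ N := by
  simpa using h

lemma sp_insert_le {S : Finset α} {e : α} (h : v e ∈ sp v U S) : sp v U (insert e S) ≤ sp v U S :=
  sp_le (le_sp S) fun f hf => by
    rcases mem_insert.1 hf with rfl | hf
    · exact h
    · exact mem_sp_of_mem hf

lemma Conn.mem_sp_erase {E : Finset α} (h : Conn v U E) {e : α} (he : e ∈ E)
    (hne : (E.erase e).Nonempty) : v e ∈ sp v U (E.erase e) := by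
  by_contra hn
  have hs : Skew v U {e} (E \ {e}) := by
    intro x hx hx'
    rw [sdiff_singleton_eq_erase] at hx'
    obtain ⟨t, ht⟩ := mem_sp_single.1 hx
    by_cases h0 : t = 0
    · subst h0; exact mem_of_zero_smul_sub ht
    · exact absurd (mem_of_smul_sub h0 (mem_sp_of_mem_U ht) hx') hn
  rcases h.2 {e} (by simpa using he) hs with h1 | h1
  · simp at h1
  · rw [← h1] at hne; simp at hne

/-- a side that absorbs the removed element forces the other side to be empty -/
lemma Conn.side_empty {E X Y : Finset α} (h : Conn v U E) {e : α} (he : e ∈ E)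
    (hY : Y ⊆ E.erase e) (hXY : E.erase e ⊆ X ∪ Y) (hs : Skew v U X Y) (hx : v e ∈ sp v U X) :
    Y = ∅ := by
  have hs' : Skew v U Y (E \ Y) := by
    refine (hs.symm.of_le (B' := insert e X) (sp_insert_le hx)).mono (Subset.refl _) fun f hf => ?_
    rw [mem_sdiff] at hf
    by_cases hfe : f = e
    · rw [hfe]; exact mem_insert_self _ _
    · exact mem_insert_of_mem
        ((mem_union.1 (hXY (mem_erase.2 ⟨hfe, hf.1⟩))).resolve_right hf.2)
  rcases h.2 Y (hY.trans (erase_subset _ _)) hs' with h1 | h1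
  · exact h1
  · have := hY (h1 ▸ he); simp at this

lemma mem_sp_split {X A B : Finset α} (h : X ⊆ A ∪ B) {x : V} (hx : x ∈ sp v U X) :
    ∃ a ∈ sp v U (X ∩ A), ∃ b ∈ sp v U (X ∩ B), a + b = x := by
  apply mem_sp_union
  rwa [← inter_union_distrib_left, inter_eq_left.2 h]

lemma tutte {E : Finset α} (h : Conn v U E) {e : α} (he : e ∈ E) :
    Conn v U (E.erase e) ∨ Conn v (sp v U {e}) (E.erase e) := by
  by_cases h1 : Conn v U (E.erase e)
  · exact Or.inl h1
  right
  have : ∃ X ⊆ E.erase e, Skew v U X (E.erase e \ X) ∧ X ≠ ∅ ∧ X ≠ E.erase e := by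
    by_contra hn
    push Not at hn
    refine h1 ⟨fun f hf => h.1 f (mem_of_mem_erase hf), fun A hA hs => ?_⟩
    by_cases hA0 : A = ∅
    · exact Or.inl hA0
    · exact Or.inr (hn A hA hs (nonempty_iff_ne_empty.2 hA0))
  obtain ⟨X, hX, hs, hX0, hX1⟩ := this
  set Y := E.erase e \ X with hY
  have hYs : Y ⊆ E.erase e := sdiff_subset
  have hXY : E.erase e ⊆ X ∪ Y := by rw [hY, union_sdiff_of_subset hX]
  have hY0 : Y ≠ ∅ := fun h0 => hX1 (Subset.antisymm hX (by rwa [h0, union_empty] at hXY))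
  have heX : v e ∉ sp v U X := fun hx => hY0 (h.side_empty he hYs hXY hs hx)
  have heY : v e ∉ sp v U Y := fun hx =>
    hX0 (h.side_empty he hX (by rwa [union_comm]) hs.symm hx)
  obtain ⟨a, ha, b, hb, hab⟩ := mem_sp_union (sp_mono' hXY
    (h.mem_sp_erase he ((nonempty_iff_ne_empty.2 hX0).mono hX)))
  have haU : a ∉ U := fun hU => heY (hab ▸ Submodule.add_mem _ (mem_sp_of_mem_U hU) hb)
  refine ⟨fun f hf hfU => ?_, fun X' hX' hs' => ?_⟩
  · obtain ⟨t, ht⟩ := mem_sp_single.1 hfU
    by_cases h0 : t = 0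
    · subst h0; exact h.1 f (mem_of_mem_erase hf) (mem_of_zero_smul_sub ht)
    · rcases mem_union.1 (hXY hf) with hfX | hfY
      · exact heX (mem_of_smul_sub h0 (mem_sp_of_mem_U ht) (mem_sp_of_mem hfX))
      · exact heY (mem_of_smul_sub h0 (mem_sp_of_mem_U ht) (mem_sp_of_mem hfY))
  set Y' := E.erase e \ X' with hY'
  have hYs' : Y' ⊆ E.erase e := sdiff_subset
  have hXY' : E.erase e ⊆ X' ∪ Y' := by rw [hY', union_sdiff_of_subset hX']
  have hle : U ≤ sp v U {e} := le_sp _
  have hve : v e ∈ sp v U {e} := mem_sp_of_mem (mem_singleton_self e)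
  -- skewness modulo `U` when the removed vector is off one side
  have sk : ∀ A B : Finset α, Skew v (sp v U {e}) A B → v e ∉ sp v U B → Skew v U A B := by
    intro A B hAB hn x hA hB
    obtain ⟨t, ht⟩ := mem_sp_single.1 (hAB x (sp_mono hle (Subset.refl _) hA)
      (sp_mono hle (Subset.refl _) hB))
    by_cases h0 : t = 0
    · subst h0; exact mem_of_zero_smul_sub ht
    · exact absurd (mem_of_smul_sub h0 (mem_sp_of_mem_U ht) hB) hn
  have part : ∀ A : Finset α, A ⊆ E.erase e → v e ∈ sp v U A → a ∈ sp v U A := by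
    intro A hA hx
    obtain ⟨p, hp, q, hq, hpq⟩ := mem_sp_split (hA.trans hXY) hx
    have h3 := (hs.add (Submodule.sub_mem _ (sp_mono' inter_subset_right hp) ha)
      (Submodule.sub_mem _ (sp_mono' inter_subset_right hq) hb)
      (by rw [show p - a + (q - b) = (p + q) - (a + b) by abel, hpq, hab, sub_self]
          exact U.zero_mem)).1
    rw [show a = p - (p - a) by abel]
    exact Submodule.sub_mem _ (sp_mono' inter_subset_left hp) (mem_sp_of_mem_U h3)
  have one : v e ∈ sp v U X' ∨ v e ∈ sp v U Y' := by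
    obtain ⟨a', ha', a'', ha'', haa⟩ := mem_sp_split (hX.trans hXY') ha
    obtain ⟨b', hb', b'', hb'', hbb⟩ := mem_sp_split (hYs.trans hXY') hb
    have h3 : a' + b' ∈ sp v U X' :=
      Submodule.add_mem _ (sp_mono' inter_subset_right ha') (sp_mono' inter_subset_right hb')
    have h4 : a'' + b'' ∈ sp v U Y' :=
      Submodule.add_mem _ (sp_mono' inter_subset_right ha'') (sp_mono' inter_subset_right hb'')
    have h5 : (a' + b') + (a'' + b'') = v e := by rw [← hab, ← haa, ← hbb]; abel
    have h6 := (hs'.add (sp_mono hle (Subset.refl _) h3) (sp_mono hle (Subset.refl _) h4)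
      (h5 ▸ hve)).1
    obtain ⟨t, ht⟩ := mem_sp_single.1 h6
    by_cases h0 : t = 0
    · subst h0
      right
      rw [← h5]
      exact Submodule.add_mem _ (mem_sp_of_mem_U (mem_of_zero_smul_sub ht)) h4
    · exact Or.inl (mem_of_smul_sub h0 (mem_sp_of_mem_U ht) h3)
  by_cases c1 : v e ∈ sp v U X'
  · by_cases c2 : v e ∈ sp v U Y'
    · exfalso
      obtain ⟨t, ht⟩ := mem_sp_single.1 (hs' a (sp_mono hle (Subset.refl _) (part X' hX' c1))
        (sp_mono hle (Subset.refl _) (part Y' hYs' c2)))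
      by_cases h0 : t = 0
      · subst h0; exact haU (mem_of_zero_smul_sub ht)
      · exact heX (mem_of_smul_sub h0 (mem_sp_of_mem_U ht) ha)
    · right
      have := h.side_empty he hYs' hXY' (sk _ _ hs' c2) c1
      exact Subset.antisymm hX' (by rwa [this, union_empty] at hXY')
  · left
    exact h.side_empty he hX' (by rwa [union_comm]) (sk _ _ hs'.symm c1) (one.resolve_left c1)

lemma lc_insert {c : α → ℝ} {S : Finset α} {e : α} (h : e ∉ S) :
    lc v c (insert e S) = c e • v e + lc v c S := sum_insert h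

/-- circuits of a contraction lift -/
lemma Circ.lift {C : Finset α} {e : α} (he : e ∉ C) (heU : v e ∉ U) (h : Circ v (sp v U {e}) C) :
    ∃ C', Circ v U C' ∧ C ⊆ C' ∧ C' ⊆ insert e C := by
  obtain ⟨c, hc, hcU⟩ := h.2.1
  obtain ⟨t, ht⟩ := mem_sp_single.1 hcU
  by_cases h0 : t = 0
  · subst h0
    exact ⟨C, ⟨h.1, ⟨c, hc, mem_of_zero_smul_sub ht⟩, fun d hd => h.2.2 d (mem_sp_of_mem_U hd)⟩,
      Subset.refl _, subset_insert _ _⟩
  refine ⟨insert e C, ?_, subset_insert _ _, Subset.refl _⟩
  have hup : ∀ f ∈ C, Function.update c e (-t) f = c f := fun f hf =>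
    Function.update_of_ne (by rintro rfl; exact he hf) _ _
  refine circ_of_prop (c := Function.update c e (-t)) (insert_nonempty _ _) ?_ ?_ ?_
  · intro f hf
    rcases mem_insert.1 hf with rfl | hf
    · simpa using h0
    · rw [hup f hf]; exact hc f hf
  · rw [lc_insert he, lc_congr hup, Function.update_self]
    have := U.neg_mem ht
    convert this using 1
    rw [neg_smul]; abel
  · intro d hd
    rw [lc_insert he] at hd
    have h1 : lc v d C ∈ sp v U {e} := by
      rw [show lc v d C = (d e • v e + lc v d C) - d e • v e by abel]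
      exact Submodule.sub_mem _ (mem_sp_of_mem_U hd)
        (Submodule.smul_mem _ _ (mem_sp_of_mem (mem_singleton_self e)))
    obtain ⟨s, hs⟩ := h.prop hc hcU h1
    refine ⟨s, fun f hf => ?_⟩
    rcases mem_insert.1 hf with rfl | hf
    · rw [lc_congr hs, lc_smul] at hd
      have h2 := U.add_mem hd (U.smul_mem s ht)
      rw [show d f • v f + s • lc v c C + s • (t • v f - lc v c C) = (d f + s * t) • v f by
        rw [smul_sub, add_smul, mul_smul]; abel] at h2
      have : d f + s * t = 0 := by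
        by_contra hn
        exact heU (mem_of_smul_sub hn (by simpa using h2) U.zero_mem)
      rw [Function.update_self]; linarith
    · rw [hup f hf]; exact hs f hf

lemma removal {E : Finset α} (h : Conn v U E) {e : α} (he : e ∈ E) (hne : (E.erase e).Nonempty) :
    ∃ U' : Submodule ℝ V, Conn v U' (E.erase e) ∧ U' ≤ sp v U {e} ∧
      sp v U E ≤ sp v U' (E.erase e) ∧
      (∀ C ⊆ E.erase e, Circ v U' C → ∃ C' ⊆ E, Circ v U C' ∧ C ⊆ C') ∧
      ∀ u, Vert v U' (E.erase e) u → Vert v U E u := by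
  rcases tutte h he with h1 | h1
  · have hsp : sp v U E ≤ sp v U (E.erase e) := by
      have := sp_insert_le (h.mem_sp_erase he hne)
      rwa [insert_erase he] at this
    refine ⟨U, h1, le_sp _, hsp, fun C hC hc => ⟨C, hC.trans (erase_subset _ _), hc, Subset.refl _⟩,
      fun u hu => hu.mono (T := ∅) le_rfl (erase_subset _ _) hsp (empty_subset _) (le_sp _)
        (by simp)⟩
  · have hsp : sp v U E ≤ sp v (sp v U {e}) (E.erase e) := by
      rw [sp_sp]
      refine sp_mono' fun f hf => ?_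
      by_cases hfe : f = e <;> simp [hfe, hf]
    refine ⟨_, h1, le_rfl, hsp, fun C hC hc => ?_, fun u hu => hu.mono (T := {e}) (le_sp _)
      (erase_subset _ _) hsp (by simpa using he) le_rfl
      (by simpa using mem_sp_of_mem (mem_singleton_self e))⟩
    obtain ⟨C', h2, h3, h4⟩ := hc.lift (fun hh => by simpa using hC hh) (h.1 e he)
    exact ⟨C', h4.trans (insert_subset he (hC.trans (erase_subset _ _))), h2, h3⟩

lemma Conn.two {E : Finset α} (h : Conn v U E) {e f : α} (he : e ∈ E) (hf : f ∈ E) (hef : e ≠ f) :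
    ∃ C ⊆ E, Circ v U C ∧ e ∈ C ∧ f ∈ C := by
  induction' hn : E.card using Nat.strong_induction_on with n ih generalizing E U
  by_cases hg : ∃ g ∈ E, g ≠ e ∧ g ≠ f
  · obtain ⟨g, hg, hge, hgf⟩ := hg
    have he' : e ∈ E.erase g := mem_erase.2 ⟨hge.symm, he⟩
    obtain ⟨U', h1, -, -, h4, -⟩ := removal h hg ⟨e, he'⟩
    obtain ⟨C, hC, hc, heC, hfC⟩ := ih _ (by rw [← hn]; exact card_erase_lt_of_mem hg) h1 he'
      (mem_erase.2 ⟨hgf.symm, hf⟩) rfl
    obtain ⟨C', h5, h6, h7⟩ := h4 C hC hc
    exact ⟨C', h5, h6, h7 heC, h7 hfC⟩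
  push Not at hg
  have hns : ¬ Skew v U {e} (E \ {e}) := by
    intro hs
    rcases h.2 {e} (by simpa using he) hs with h1 | h1
    · simp at h1
    · rw [← h1] at hf; exact hef (mem_singleton.1 hf).symm
  obtain ⟨C, hC, hc, ⟨x, hx, hxe⟩, y, hy, hye⟩ := exists_circ_cross disjoint_sdiff hns
  rw [union_sdiff_of_subset (by simpa using he)] at hC
  rw [mem_singleton] at hxe
  rw [mem_sdiff, mem_singleton] at hye
  exact ⟨C, hC, hc, hxe ▸ hx, hg y hye.1 hye.2 ▸ hy⟩

end

end Pool.Agent.Vertigan
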