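import Mathlib

/-! Separators, connectivity, the removal lemma and the one element cover. -/

set_option autoImplicit false

namespace Pool.Agent.Vert

open Set Matroid

variable {α : Type} {M : Matroid α} {K C A : Set α} {x y f : α}

/-- no circuit crosses `K` -/
def Sep (M : Matroid α) (K : Set α) : Prop := ∀ C, M.IsCircuit C → C ⊆ K ∨ Disjoint C K

/-- only trivial separators -/
def Conn (M : Matroid α) : Prop := ∀ K, Sep M K → M.E ⊆ K ∨ Disjoint M.E K

theorem Sep.mem (h : Sep M K) (hC : M.IsCircuit C) (hx : x ∈ C) (hy : y ∈ C) (hK : x ∈ K) :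
    y ∈ K := by
  rcases h C hC with h1 | h1
  · exact h1 hy
  · exact absurd hK (disjoint_left.1 h1 hx)

theorem sep_of_mem (h : ∀ C x y, M.IsCircuit C → x ∈ C → y ∈ C → x ∈ K → y ∈ K) : Sep M K := by
  intro C hC
  by_cases h1 : Disjoint C K
  · exact Or.inr h1
  · obtain ⟨x, hx, hK⟩ := not_disjoint_iff.1 h1
    exact Or.inl fun y hy => h C x y hC hx hy hK

theorem two_pts (hC : M.IsCircuit C) (hx : x ∈ C) (hy : y ∈ C) (hxy : x ≠ y) :
    ∃ B, M.IsCocircuit B ∧ B ∩ C = {x, y} := by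
  obtain ⟨B, hB, hBI⟩ := (hC.sdiff_singleton_indep hy).exists_isCocircuit_inter_eq_mem
    (e := x) ⟨hx, hxy⟩
  have h1 : ∀ z, z ∈ B → z ∈ C → z ≠ y → z = x := fun z a b c => by
    have : z ∈ B ∩ (C \ {y}) := ⟨a, b, c⟩
    rwa [hBI] at this
  have hxB : x ∈ B := by
    have : x ∈ B ∩ (C \ {y}) := by rw [hBI]; rfl
    exact this.1
  have hyB : y ∈ B := by
    by_contra hn
    refine hC.inter_isCocircuit_ne_singleton hB (e := x) ?_
    ext z
    constructor
    · rintro ⟨a, b⟩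
      exact h1 z b a fun e => hn (e ▸ b)
    · rintro rfl
      exact ⟨hx, hxB⟩
  refine ⟨B, hB, ?_⟩
  ext z
  constructor
  · rintro ⟨a, b⟩
    by_cases e : z = y
    · exact Or.inr e
    · exact Or.inl (h1 z a b e)
  · rintro (rfl | rfl)
    exacts [⟨hxB, hx⟩, ⟨hyB, hy⟩]

theorem Sep.dual (h : Sep M K) : Sep M✶ K := by
  refine sep_of_mem fun C x y hC hx hy hK => ?_
  by_cases e : x = y
  · exact e ▸ hK
  obtain ⟨B, hB, hBC⟩ := two_pts hC hx hy e
  have h1 : x ∈ B ∩ C := by rw [hBC]; exact Or.inl rfl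
  have h2 : y ∈ B ∩ C := by rw [hBC]; exact Or.inr rfl
  exact h.mem (dual_isCocircuit_iff.1 hB) h1.1 h2.1 hK

theorem Sep.delete (h : Sep M K) (X : Set α) : Sep (M ＼ X) K := fun C hC => h C hC.of_delete

theorem Sep.contract (h : Sep M K) (X : Set α) : Sep (M ／ X) K := (h.dual.delete X).dual

theorem Sep.compl (h : Sep M K) : Sep M (M.E \ K) :=
  sep_of_mem fun _ _ _ hC hx hy hK => ⟨hC.subset_ground hy, fun e => hK.2 (h.mem hC hy hx e)⟩

theorem Sep.inter (h : Sep M K) : Sep M (M.E ∩ K) :=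
  sep_of_mem fun _ _ _ hC hx hy hK => ⟨hC.subset_ground hy, h.mem hC hx hy hK.2⟩

theorem sep_empty : Sep M ∅ := fun _ _ => Or.inr (disjoint_empty _)

theorem Conn.dual (h : Conn M) : Conn M✶ := fun K hK => by
  have := hK.dual
  rw [dual_dual] at this
  exact h K this

theorem conn_of_pt (h : ∀ u ∈ M.E, u ≠ f → ∃ C, M.IsCircuit C ∧ f ∈ C ∧ u ∈ C) : Conn M := by
  intro K hK
  by_cases hf : f ∈ K
  · refine Or.inl fun u hu => ?_
    by_cases e : u = f
    · exact e ▸ hf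
    · obtain ⟨C, hC, h1, h2⟩ := h u hu e
      exact hK.mem hC h1 h2 hf
  · refine Or.inr (disjoint_left.2 fun u hu hk => ?_)
    by_cases e : u = f
    · exact hf (e ▸ hk)
    · obtain ⟨C, hC, h1, h2⟩ := h u hu e
      exact hf (hK.mem hC h2 h1 hk)

theorem circ_trans [M.Finite] (x y : α) : ∀ (n : ℕ) (C₁ C₂ : Set α), (C₁ ∪ C₂).ncard ≤ n →
    M.IsCircuit C₁ → M.IsCircuit C₂ → x ∈ C₁ → y ∈ C₂ → (C₁ ∩ C₂).Nonempty →
    ∃ C, M.IsCircuit C ∧ x ∈ C ∧ y ∈ C := by
  intro n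
  induction n with
  | zero =>
    intro C₁ C₂ hn h1 h2 hx _ _
    have hf : (C₁ ∪ C₂).Finite := h1.finite.union h2.finite
    have := (ncard_pos hf).2 ⟨x, Or.inl hx⟩
    omega
  | succ n ih =>
    intro C₁ C₂ hn h1 h2 hx hy ⟨z, hz1, hz2⟩
    have hf : (C₁ ∪ C₂).Finite := h1.finite.union h2.finite
    by_cases hx2 : x ∈ C₂
    · exact ⟨C₂, h2, hx2, hy⟩
    by_cases hy1 : y ∈ C₁
    · exact ⟨C₁, h1, hx, hy1⟩
    have small : ∀ S, S ⊆ C₁ ∪ C₂ → ∀ w ∈ C₁ ∪ C₂, w ∉ S → S.ncard ≤ n := fun S hS w hw hwS => by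
      have := ncard_lt_ncard (hS.ssubset_of_ne fun e => hwS (e ▸ hw)) hf
      omega
    obtain ⟨C₃, s3, h3, x3⟩ := h1.strong_elimination h2 hz1 hz2 hx hx2
    obtain ⟨C₄, s4, h4, y4⟩ := h2.strong_elimination h1 hz2 hz1 hy hy1
    have m3 : (C₃ ∩ C₂).Nonempty := by
      by_contra hn
      have : C₃ ⊆ C₁ := fun w hw => (s3 hw).1.resolve_right fun e => hn ⟨w, hw, e⟩
      exact (s3 (h3.eq_of_subset_isCircuit h1 this ▸ hz1)).2 rfl
    by_cases c3 : ∃ w ∈ C₁, w ∉ C₃ ∪ C₂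
    · obtain ⟨w, hw, hw'⟩ := c3
      exact ih C₃ C₂ (small _ (union_subset (s3.trans sdiff_subset) subset_union_right) w
        (Or.inl hw) hw') h3 h2 x3 hy m3
    push Not at c3
    have m4 : (C₃ ∩ C₄).Nonempty := by
      by_contra hn
      have : C₄ ⊆ C₂ := fun w hw => (s4 hw).1.elim id fun e =>
        (c3 w e).resolve_left fun e' => hn ⟨w, e', hw⟩
      exact (s4 (h4.eq_of_subset_isCircuit h2 this ▸ hz2)).2 rfl
    refine ih C₃ C₄ (small _ (union_subset (s3.trans sdiff_subset)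
      (s4.trans (sdiff_subset.trans (union_comm _ _).subset))) z (Or.inl hz1) ?_) h3 h4 x3 y4 m4
    rintro (e | e)
    exacts [(s3 e).2 rfl, (s4 e).2 rfl]

theorem Conn.circ [M.Finite] (h : Conn M) (hx : x ∈ M.E) (hy : y ∈ M.E) (hxy : x ≠ y) :
    ∃ C, M.IsCircuit C ∧ x ∈ C ∧ y ∈ C := by
  have hs : Sep M {u | u = x ∨ ∃ C, M.IsCircuit C ∧ x ∈ C ∧ u ∈ C} := by
    refine sep_of_mem fun C u v hC hu hv hK => Or.inr ?_
    rcases hK with rfl | ⟨C', hC', h1, h2⟩
    · exact ⟨C, hC, hu, hv⟩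
    · exact circ_trans x v _ C' C le_rfl hC' hC h1 hv ⟨u, h2, hu⟩
  rcases h _ hs with h1 | h1
  · exact (h1 hy).resolve_left hxy.symm
  · exact absurd (Or.inl rfl) (disjoint_left.1 h1 hx)

theorem circ_contract (hC : M.IsCircuit C) (hx : x ∈ M.E) (h : x ∉ M.closure C) :
    (M ／ {x}).IsCircuit C := by
  have hxC : x ∉ C := fun e => h (M.subset_closure C hC.subset_ground e)
  have hnl : M.IsNonloop x := by
    rw [← not_isLoop_iff hx]
    exact fun e => h (e.mem_closure C)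
  rw [isCircuit_iff_dep_forall_sdiff_singleton_indep]
  refine ⟨hC.contract_dep (by simpa using hxC), fun e he => ?_⟩
  rw [hnl.contractElem_indep_iff]
  refine ⟨fun a => hxC a.1, ?_⟩
  rw [← (hC.sdiff_singleton_indep he).notMem_closure_iff_of_notMem (fun a => hxC a.1) hx]
  exact fun a => h (M.closure_subset_closure sdiff_subset a)

theorem tutte [M.Finite] (h : Conn M) (hx : x ∈ M.E) : Conn (M ＼ {x}) ∨ Conn (M ／ {x}) := by
  rw [or_iff_not_imp_left]
  intro hd
  simp only [Conn, not_forall, not_or] at hd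
  obtain ⟨A, hA, hA1, hA2⟩ := hd
  have key : ∀ B, Sep (M ＼ {x}) B → (∃ b ∈ M.E, b ≠ x ∧ b ∉ B) →
      ∀ C, M.IsCircuit C → x ∈ C → ¬ C ⊆ insert x B := by
    rintro B hB ⟨b, hb, hbx, hbB⟩ C hC hxC hCB
    have hs : Sep M (insert x B) := by
      have aux : ∀ C', M.IsCircuit C' → x ∈ C' → C' ⊆ insert x B := by
        intro C' hC' hx' v hv
        by_contra hvB
        obtain ⟨C'', s, h'', hv''⟩ := hC'.strong_elimination hC hx' hxC hv fun e => hvB (hCB e)
        have hd : (M ＼ {x}).IsCircuit C'' :=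
          delete_isCircuit_iff.2 ⟨h'', disjoint_singleton_right.2 fun e => (s e).2 rfl⟩
        have : C'' ⊆ C' := fun w hw => (s hw).1.elim id fun e => by
          rcases hCB e with e' | e'
          · exact absurd e' (s hw).2
          · exact absurd (Or.inr (hB.mem hd hw hv'' e')) hvB
        exact (s (h''.eq_of_subset_isCircuit hC' this ▸ hx')).2 rfl
      refine sep_of_mem fun C' u v hC' hu hv hK => ?_
      by_cases hx' : x ∈ C'
      · exact aux C' hC' hx' hv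
      · have hd : (M ＼ {x}).IsCircuit C' :=
          delete_isCircuit_iff.2 ⟨hC', disjoint_singleton_right.2 hx'⟩
        exact Or.inr (hB.mem hd hu hv (hK.resolve_left fun e => hx' (e ▸ hu)))
    rcases h _ hs with h1 | h1
    · exact (h1 hb).elim hbx hbB
    · exact disjoint_left.1 h1 hx (Or.inl rfl)
  have kA := key A hA (by
    obtain ⟨b, hb, hb'⟩ := not_subset.1 hA1
    exact ⟨b, hb.1, hb.2, hb'⟩)
  have kB := key _ hA.compl (by
    obtain ⟨b, hb, hb'⟩ := not_disjoint_iff.1 hA2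
    exact ⟨b, hb.1, hb.2, fun e => e.2 hb'⟩)
  intro S hS
  by_contra hn
  rw [not_or] at hn
  obtain ⟨v, hv, hvS⟩ := not_subset.1 hn.1
  obtain ⟨u, hu, huS⟩ := not_disjoint_iff.1 hn.2
  obtain ⟨C₁, h1, x1, u1⟩ := h.circ hx hu.1 (Ne.symm hu.2)
  obtain ⟨C₂, h2, x2, v2⟩ := h.circ hx hv.1 (Ne.symm hv.2)
  have c1 := h1.contractElem_isCircuit ⟨x, x1, u, u1, Ne.symm hu.2⟩ x1
  have c2 := h2.contractElem_isCircuit ⟨x, x2, v, v2, Ne.symm hv.2⟩ x2
  have in1 : ∀ w ∈ C₁, w ≠ x → w ∈ S := fun w a b => hS.mem c1 ⟨u1, hu.2⟩ ⟨a, b⟩ huS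
  have out2 : ∀ w ∈ C₂, w ≠ x → w ∉ S := fun w a b e => hvS (hS.mem c2 ⟨a, b⟩ ⟨v2, hv.2⟩ e)
  obtain ⟨C, s, hC⟩ := h1.elimination h2 (fun e => out2 u (e ▸ u1) hu.2 huS) x
  have hxC : x ∉ C := fun e => (s e).2 rfl
  have hcl : x ∉ M.closure C := by
    intro e
    obtain ⟨C', s', hC', x'⟩ := exists_isCircuit_of_mem_closure e hxC
    have hd : (M ＼ {x}).IsCircuit C :=
      delete_isCircuit_iff.2 ⟨hC, disjoint_singleton_right.2 hxC⟩
    rcases hA C hd with e' | e'
    · exact kA C' hC' x' (s'.trans (insert_subset_insert e'))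
    · exact kB C' hC' x' (s'.trans (insert_subset_insert fun w hw =>
        ⟨hd.subset_ground hw, disjoint_left.1 e' hw⟩))
  rcases hS C (circ_contract hC hx hcl) with e | e
  · have : C ⊆ C₁ := fun w hw => (s hw).1.resolve_right fun a => out2 w a (s hw).2 (e hw)
    exact hxC (hC.eq_of_subset_isCircuit h1 this ▸ x1)
  · have : C ⊆ C₂ := fun w hw => (s hw).1.resolve_left fun a =>
      disjoint_left.1 e hw (in1 w a (s hw).2)
    exact hxC (hC.eq_of_subset_isCircuit h2 this ▸ x2)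

theorem cocirc_delete {X : Set α} (h : (M ＼ X).IsCocircuit C) :
    ∃ C', M.IsCocircuit C' ∧ C ⊆ C' ∧ C' ⊆ C ∪ X := by
  rw [isCocircuit_def, dual_delete] at h
  exact h.exists_subset_isCircuit_of_contract

theorem lemos (f : α) : ∀ (n : ℕ) (M : Matroid α) [M.Finite] (U : Set α) (t : ℕ),
    M.E.ncard + U.ncard ≤ n → Conn M → f ∈ M.E → U ⊆ M.E \ {f} →
    (∀ C, M.IsCocircuit C → f ∈ C → (C ∩ U).ncard ≤ t) →
    ∃ L : List (Set α), L.length ≤ t ∧ (∀ P ∈ L, M.IsCircuit P ∧ f ∈ P) ∧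
      ∀ u ∈ U, ∃ P ∈ L, u ∈ P := by
  intro n
  induction n with
  | zero =>
    intro M _ U t hn _ hf _ _
    have := (ncard_pos M.ground_finite).2 ⟨f, hf⟩
    omega
  | succ n ih =>
    intro M _ U t hn hc hf hU ht
    have hUf : U.Finite := M.ground_finite.subset (hU.trans sdiff_subset)
    rcases U.eq_empty_or_nonempty with rfl | ⟨u, hu⟩
    · exact ⟨[], by simp, by simp, by simp⟩
    by_cases hx : ∃ x ∈ M.E, x ≠ f ∧ x ∉ U
    · obtain ⟨x, hx, hxf, hxU⟩ := hx
      have hcard : (M.E \ {x}).ncard + U.ncard ≤ n := by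
        have := ncard_sdiff_singleton_lt_of_mem hx M.ground_finite
        omega
      have hU' : U ⊆ (M.E \ {x}) \ {f} := fun w hw =>
        ⟨⟨(hU hw).1, fun e => hxU (e ▸ hw)⟩, (hU hw).2⟩
      rcases tutte hc hx with h | h
      · obtain ⟨L, l1, l2, l3⟩ := ih (M ＼ {x}) U t hcard h ⟨hf, hxf.symm⟩ hU' fun C hC hfC => by
          obtain ⟨C', h1, h2, -⟩ := cocirc_delete hC
          exact (ncard_le_ncard (inter_subset_inter_left U h2)
            (hUf.subset inter_subset_right)).trans (ht C' h1 (h2 hfC))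
        exact ⟨L, l1, fun P hP => ⟨(l2 P hP).1.of_delete, (l2 P hP).2⟩, l3⟩
      · obtain ⟨L, l1, l2, l3⟩ := ih (M ／ {x}) U t hcard h ⟨hf, hxf.symm⟩ hU' fun C hC hfC =>
          ht C hC.of_contract hfC
        have : ∀ P, ∃ P', P ⊆ P' ∧ ((M ／ {x}).IsCircuit P → M.IsCircuit P') := fun P => by
          by_cases e : (M ／ {x}).IsCircuit P
          · obtain ⟨P', a, b, -⟩ := e.exists_subset_isCircuit_of_contract
            exact ⟨P', b, fun _ => a⟩
          · exact ⟨P, subset_rfl, fun a => absurd a e⟩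
        choose g g1 g2 using this
        refine ⟨L.map g, by simpa using l1, fun P hP => ?_, fun w hw => ?_⟩
        · obtain ⟨P', a, rfl⟩ := List.mem_map.1 hP
          exact ⟨g2 P' (l2 P' a).1, g1 P' (l2 P' a).2⟩
        · obtain ⟨P, a, b⟩ := l3 w hw
          exact ⟨g P, List.mem_map_of_mem a, g1 P b⟩
    push Not at hx
    obtain ⟨P, hP, fP, uP⟩ := hc.circ hf (hU hu).1 (Ne.symm (hU hu).2)
    have drop : ∀ C, M.IsCocircuit C → f ∈ C → (C ∩ (U \ P)).ncard < (C ∩ U).ncard := by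
      intro C hC hfC
      obtain ⟨w, hw, hwf⟩ := (hP.isCocircuit_inter_nontrivial hC ⟨f, fP, hfC⟩).exists_ne f
      refine ncard_lt_ncard ((inter_subset_inter_right C sdiff_subset).ssubset_of_ne fun e => ?_)
        (hUf.subset inter_subset_right)
      have : w ∈ C ∩ U := ⟨hw.2, hx w (hP.subset_ground hw.1) hwf⟩
      rw [← e] at this
      exact this.2.2 hw.1
    have ht1 : 1 ≤ t := by
      obtain ⟨B, hB, hBP⟩ := two_pts hP fP uP (Ne.symm (hU hu).2)
      have h1 : f ∈ B ∩ P := by rw [hBP]; exact Or.inl rfl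
      have := drop B hB h1.1
      have := ht B hB h1.1
      omega
    obtain ⟨L, l1, l2, l3⟩ := ih M (U \ P) (t - 1) (by
      have := ncard_lt_ncard ((sdiff_subset (s := U) (t := P)).ssubset_of_ne fun e => by
        rw [← e] at hu
        exact hu.2 uP) hUf
      omega) hc hf (sdiff_subset.trans hU) fun C hC hfC => by
        have := drop C hC hfC
        have := ht C hC hfC
        omega
    refine ⟨P :: L, by simp; omega, fun P' hP' => ?_, fun w hw => ?_⟩
    · rcases List.mem_cons.1 hP' with rfl | a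
      exacts [⟨hP, fP⟩, l2 P' a]
    · by_cases e : w ∈ P
      · exact ⟨P, List.mem_cons_self, e⟩
      · obtain ⟨P', a, b⟩ := l3 w ⟨hw, e⟩
        exact ⟨P', List.mem_cons_of_mem _ a, b⟩

end Pool.Agent.Vert
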