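import Pool.Agent.P.MP_b00834_co.V0

/-! Ports: separators of a one element contraction. -/

set_option autoImplicit false

namespace Pool.Agent.Vert

open Set Matroid

variable {α : Type} {Q : Matroid α} {K C A D X : Set α} {x y f g : α}

theorem Sep.compl' (h : Sep Q K) : Sep Q Kᶜ :=
  sep_of_mem fun _ _ _ hC hx hy hK e => hK (h.mem hC hy hx e)

theorem circ_of_contract (h : (Q ／ {f}).IsCircuit A) :
    Q.IsCircuit A ∨ Q.IsCircuit (insert f A) := by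
  obtain ⟨C, hC, h1, h2⟩ := h.exists_subset_isCircuit_of_contract
  by_cases e : f ∈ C
  · right
    have : C = insert f A := subset_antisymm (fun w hw => (h2 hw).symm) (insert_subset e h1)
    exact this ▸ hC
  · left
    have : C = A := subset_antisymm (fun w hw => (h2 hw).resolve_right fun a => e (a ▸ hw)) h1
    exact this ▸ hC

theorem other (hA : Q.IsCircuit A) (hC : Q.IsCocircuit C) (h1 : x ∈ A) (h2 : x ∈ C) :
    ∃ y ∈ A, y ≠ x ∧ y ∈ C := by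
  obtain ⟨y, hy, e⟩ := (hA.isCocircuit_inter_nontrivial hC ⟨x, h1, h2⟩).exists_ne x
  exact ⟨y, hy.1, e, hy.2⟩

theorem ex_ne (hA : Q.IsCircuit A) (hf : Q.IsNonloop f) : ∃ p ∈ A, p ≠ f := by
  by_contra hn
  push Not at hn
  exact hA.not_indep (hf.indep.subset hn)

theorem Sep.p1 (h : Sep (Q ／ {f}) K) (hA : Q.IsCircuit A) (hf : f ∈ A) (hx : x ∈ A) (hy : y ∈ A)
    (hxf : x ≠ f) (hyf : y ≠ f) (hK : x ∈ K) : y ∈ K :=
  h.mem (hA.contractElem_isCircuit ⟨x, hx, f, hf, hxf⟩ hf) ⟨hx, hxf⟩ ⟨hy, hyf⟩ hK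

theorem Sep.hat (h : Sep (Q ／ {f}) K) : Sep (Q ／ {f}) (insert f K)ᶜ :=
  sep_of_mem fun _ _ _ hC hx hy hK e => e.elim (fun a => (hC.subset_ground hy).2 a)
    fun a => hK (Or.inr (h.mem hC hy hx a))

theorem under (hA : Q.IsCircuit A) (hf : f ∉ A) (hx : x ∈ A) :
    ∃ B, B ⊆ A ∧ (Q ／ {f}).IsCircuit B ∧ x ∈ B := by
  have h1 : x ∈ (Q ／ {f}).closure (A \ {x}) := by
    rw [contract_closure_eq]
    exact ⟨Q.closure_subset_closure subset_union_left (hA.mem_closure_sdiff_singleton_of_mem hx),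
      fun e => hf (e ▸ hx)⟩
  obtain ⟨B, h2, h3, h4⟩ := exists_isCircuit_of_mem_closure h1 (fun e => e.2 rfl)
  exact ⟨B, h2.trans (insert_subset hx sdiff_subset), h3, h4⟩

theorem Sep.p2 (h : Sep (Q ／ {f}) K) (hA : Q.IsCircuit A) (hf : f ∉ A) (hx : x ∈ A) (hK : x ∈ K)
    (hy : y ∈ A) (hyK : y ∉ K) : Q.IsCircuit (insert f (A ∩ K)) := by
  have aux : ∀ b ∈ A, b ∈ K → ∃ B, B ⊆ A ∩ K ∧ b ∈ B ∧ Q.IsCircuit (insert f B) := by
    intro b hb hbK
    obtain ⟨B, h1, h2, h3⟩ := under hA hf hb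
    have hB : B ⊆ A ∩ K := fun w hw => ⟨h1 hw, h.mem h2 h3 hw hbK⟩
    refine ⟨B, hB, h3, (circ_of_contract h2).resolve_left fun e => ?_⟩
    exact hyK (hB (e.eq_of_subset_isCircuit hA h1 ▸ hy)).2
  obtain ⟨B, h1, h2, h3⟩ := aux x hx hK
  have : B = A ∩ K := by
    refine subset_antisymm h1 fun b hb => ?_
    by_contra hn
    obtain ⟨B', k1, k2, k3⟩ := aux b hb.1 hb.2
    obtain ⟨C, s, hC⟩ := h3.elimination k3 (fun e => by
      have : b ∈ insert f B := e ▸ Or.inr k2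
      exact this.elim (fun a => hf (a ▸ hb.1)) hn) f
    have hs : C ⊆ A ∩ K := fun w hw => by
      rcases (s hw).1 with (a | a) | (a | a)
      exacts [absurd a (s hw).2, h1 a, absurd a (s hw).2, k1 a]
    exact hyK (hs (hC.eq_of_subset_isCircuit hA (hs.trans inter_subset_left) ▸ hy)).2
  exact this ▸ h3

theorem Sep.p2' (h : Sep (Q ／ {f}) K) (hA : Q.IsCircuit A) (hf : f ∉ A) (hx : x ∈ A) (hK : x ∈ K)
    (hy : y ∈ A) (hyK : y ∉ K) : Q.IsCircuit (insert f (A \ K)) :=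
  h.compl'.p2 hA hf hy hyK hx fun e => e hK

theorem Sep.glue {P : Set α} (h : Sep (Q ／ {f}) K) (hA : Q.IsCircuit A) (hf : f ∈ A)
    (hAK : Disjoint A K) (hP : Q.IsCircuit P) (hfP : f ∈ P) (hPK : P ⊆ insert f K)
    (hne : Q.IsNonloop f) : Q.IsCircuit ((A ∪ P) \ {f}) := by
  obtain ⟨p, hp, hpf⟩ := ex_ne hP hne
  have hpK : p ∈ K := (hPK hp).resolve_left hpf
  obtain ⟨C, s, hC⟩ := hA.elimination hP (fun e => disjoint_left.1 hAK (e ▸ hp) hpK) f
  have hfC : f ∉ C := fun e => (s e).2 rfl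
  obtain ⟨x, hx, hxK⟩ : ∃ x ∈ C, x ∈ K := by
    by_contra hn
    push Not at hn
    have : C ⊆ A := fun w hw => (s hw).1.resolve_right fun a =>
      (hPK a).elim (s hw).2 (hn w hw)
    exact hfC (hC.eq_of_subset_isCircuit hA this ▸ hf)
  obtain ⟨y, hy, hyK⟩ : ∃ y ∈ C, y ∉ K := by
    by_contra hn
    push Not at hn
    have : C ⊆ P := fun w hw => (s hw).1.resolve_left fun a => disjoint_left.1 hAK a (hn w hw)
    exact hfC (hC.eq_of_subset_isCircuit hP this ▸ hfP)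
  have e1 := (h.p2 hC hfC hx hxK hy hyK).eq_of_subset_isCircuit hP (insert_subset hfP fun w hw =>
    (s hw.1).1.resolve_left fun a => disjoint_left.1 hAK a hw.2)
  have e2 := (h.p2' hC hfC hx hxK hy hyK).eq_of_subset_isCircuit hA (insert_subset hf fun w hw =>
    (s hw.1).1.resolve_right fun a => (hPK a).elim (s hw.1).2 hw.2)
  have : C = (A ∪ P) \ {f} := by
    refine subset_antisymm s fun w hw => ?_
    rcases hw.1 with a | a
    · rw [← e2] at a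
      exact (a.resolve_left hw.2).1
    · rw [← e1] at a
      exact (a.resolve_left hw.2).1
  exact this ▸ hC

theorem Sep.conn [Q.Finite] (h : Sep (Q ／ {f}) K) (hfK : f ∉ K) (hc : Conn Q) (hf : f ∈ Q.E) :
    Conn (Q ＼ K) := by
  refine conn_of_pt (f := f) fun u hu huf => ?_
  obtain ⟨A, hA, h1, h2⟩ := hc.circ hf hu.1 huf.symm
  refine ⟨A, delete_isCircuit_iff.2 ⟨hA, disjoint_left.2 fun w hw hK => ?_⟩, h1, h2⟩
  exact hu.2 (h.p1 hA h1 hw h2 (fun e => hfK (e ▸ hK)) huf hK)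

theorem cocirc_sub (hx : x ∈ Q.E) (hX : x ∈ X)
    (h : ∀ A, Q.IsCircuit A → x ∈ A → ∃ y ∈ A, y ≠ x ∧ y ∈ X) :
    ∃ C, Q.IsCocircuit C ∧ x ∈ C ∧ C ⊆ X := by
  obtain ⟨I, hI⟩ := Q.exists_isBasis (Q.E \ X)
  have hxI : x ∉ I := fun e => (hI.subset e).2 hX
  have h1 : x ∉ Q.closure I := by
    intro e
    obtain ⟨A, a1, a2, a3⟩ := exists_isCircuit_of_mem_closure e hxI
    obtain ⟨y, b1, b2, b3⟩ := h A a2 a3
    exact (hI.subset ((a1 b1).resolve_left b2)).2 b3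
  rw [hI.indep.notMem_closure_iff_of_notMem hxI hx] at h1
  obtain ⟨B, hB, hIB⟩ := h1.exists_isBase_superset
  have hxB : x ∈ B := hIB (Or.inl rfl)
  refine ⟨_, hB.compl_closure_sdiff_singleton_isCocircuit hxB,
    ⟨hx, hB.indep.notMem_closure_sdiff_of_mem hxB⟩, fun w hw => ?_⟩
  by_contra hn
  have hs : I ⊆ B \ {x} := fun v hv => ⟨hIB (Or.inr hv), fun e => hxI (e ▸ hv)⟩
  exact hw.2 (Q.closure_subset_closure hs (hI.subset_closure ⟨hw.1, hn⟩))

theorem cocirc_del (hC : Q.IsCocircuit C) (hx : x ∈ C) (hK : x ∉ K) :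
    ∃ C', (Q ＼ K).IsCocircuit C' ∧ x ∈ C' ∧ C' ⊆ C :=
  cocirc_sub ⟨hC.subset_ground hx, hK⟩ hx fun _ hA h => other hA.of_delete hC h hx

theorem Sep.c1 (h : Sep (Q ／ {f}) K) (hfK : f ∉ K) (hC : (Q ＼ K).IsCocircuit C) (hf : f ∉ C) :
    Q.IsCocircuit C := by
  obtain ⟨x, hx⟩ := hC.nonempty
  have hxE := hC.subset_ground hx
  have hxf : x ≠ f := fun e => hf (e ▸ hx)
  obtain ⟨C₀, h0, h1, h2⟩ := cocirc_sub hxE.1 hx fun A hA hxA => by
    by_cases hd : Disjoint A K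
    · exact other (delete_isCircuit_iff.2 ⟨hA, hd⟩) hC hxA hx
    obtain ⟨w, hw, hwK⟩ := not_disjoint_iff.1 hd
    have hfA : f ∉ A := fun e => hxE.2 (h.p1 hA e hw hxA (fun a => hfK (a ▸ hwK)) hxf hwK)
    obtain ⟨y, a, b, c⟩ := other (delete_isCircuit_iff.2 ⟨h.p2' hA hfA hw hwK hxA hxE.2,
      disjoint_left.2 fun v hv => hv.elim (fun e => e ▸ hfK) fun e => e.2⟩) hC
      (Or.inr ⟨hxA, hxE.2⟩) hx
    exact ⟨y, (a.resolve_left fun e => hf (e ▸ c)).1, b, c⟩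
  obtain ⟨C', k0, -, k2⟩ := cocirc_del h0 h1 hxE.2
  have := k0.isCircuit.eq_of_subset_isCircuit hC.isCircuit (k2.trans h2)
  have : C₀ = C := subset_antisymm h2 (this ▸ k2)
  exact this ▸ h0

theorem Sep.c2 {R : Set α} (h : Sep (Q ／ {f}) K) (hfK : f ∉ K) (hC : (Q ＼ K).IsCocircuit C)
    (hf : f ∈ C) (hR : (Q ＼ (insert f K)ᶜ).IsCocircuit R) (hfR : f ∈ R) :
    Q.IsCocircuit (C ∪ R) := by
  obtain ⟨C₀, h0, h1, h2⟩ := cocirc_sub (X := C ∪ R) (hC.subset_ground hf).1 (Or.inl hf)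
    fun A hA hfA => by
      by_cases hd : Disjoint A K
      · obtain ⟨y, a, b, c⟩ := other (delete_isCircuit_iff.2 ⟨hA, hd⟩) hC hfA hf
        exact ⟨y, a, b, Or.inl c⟩
      obtain ⟨w, hw, hwK⟩ := not_disjoint_iff.1 hd
      have hs : A ⊆ insert f K := fun v hv => by
        by_cases a : v = f
        · exact Or.inl a
        · exact Or.inr (h.p1 hA hfA hw hv (fun a => hfK (a ▸ hwK)) a hwK)
      obtain ⟨y, a, b, c⟩ := other (delete_isCircuit_iff.2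
        ⟨hA, disjoint_compl_right_iff_subset.2 hs⟩) hR hfA hfR
      exact ⟨y, a, b, Or.inr c⟩
  obtain ⟨C', k0, -, k2⟩ := cocirc_del h0 h1 hfK
  obtain ⟨R', j0, -, j2⟩ := cocirc_del (K := (insert f K)ᶜ) h0 h1 fun e => e (Or.inl rfl)
  have e1 := k0.isCircuit.eq_of_subset_isCircuit hC.isCircuit fun w hw =>
    (h2 (k2 hw)).elim id fun a => by
      have := not_not.1 (hR.subset_ground a).2
      exact this.elim (fun e => e ▸ hf) fun e => absurd e (k0.subset_ground hw).2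
  have e2 := j0.isCircuit.eq_of_subset_isCircuit hR.isCircuit fun w hw =>
    (h2 (j2 hw)).elim (fun a => by
      have := not_not.1 (j0.subset_ground hw).2
      exact this.elim (fun e => e ▸ hfR) fun e => absurd e (hC.subset_ground a).2) id
  have : C₀ = C ∪ R := subset_antisymm h2 (union_subset (e1 ▸ k2) (e2 ▸ j2))
  exact this ▸ h0

end Pool.Agent.Vert
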