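import Pool.Agent.P.MP_b00834_co.V1

/-! Ports sitting on a circuit. -/

set_option autoImplicit false

namespace Pool.Agent.Vert

open Set Matroid

variable {α : Type} {Q : Matroid α} {K C A D X : Set α} {x y z f g : α} {s t : ℕ}

theorem not_cl (hD : Q.IsCircuit D) (hf : f ∈ D) (hg : g ∈ D) (hfg : f ≠ g) (hx : x ∈ D)
    (hxf : x ≠ f) (hxg : x ≠ g) (h : Sep (Q ／ {g}) K) (hK : Disjoint D K) :
    f ∉ Q.closure (insert g K) := by
  intro e
  have hfK : f ∉ K := disjoint_left.1 hK hf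
  obtain ⟨A, a1, hA, a3⟩ := exists_isCircuit_of_mem_closure e fun a => a.elim hfg hfK
  have key : ∀ B, Q.IsCircuit B → (∀ w ∈ B, w = f ∨ w = g) → False := fun B hB hs => by
    have := hB.eq_of_subset_isCircuit hD fun w hw => (hs w hw).elim (fun a => a ▸ hf) fun a => a ▸ hg
    exact (hs x (this ▸ hx)).elim hxf hxg
  by_cases hd : Disjoint A K
  · exact key A hA fun w hw => (a1 hw).imp_right fun a => a.resolve_right (disjoint_left.1 hd hw)
  obtain ⟨w, hw, hwK⟩ := not_disjoint_iff.1 hd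
  by_cases hgA : g ∈ A
  · exact hfK (h.p1 hA hgA hw a3 (fun a => disjoint_left.1 hK hg (a ▸ hwK)) hfg hwK)
  · refine key _ (h.p2' hA hgA hw hwK a3 hfK) fun v hv => ?_
    rcases hv with a | a
    · exact Or.inr a
    · exact (a1 a.1).imp_right fun b => b.resolve_right a.2

theorem con_del_eq (hf : f ∈ Q.E) (h : f ∉ Q.closure X) : (Q ／ {f}) ＼ Xᶜ = Q ＼ Xᶜ := by
  have hfX : f ∉ X := fun e => h (Q.mem_closure_of_mem' e hf)
  have hnl : Q.IsNonloop f := by
    rw [← not_isLoop_iff hf]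
    exact fun e => h (e.mem_closure X)
  refine ext_indep ?_ fun I _ => ?_
  · ext w
    constructor
    · exact fun a => ⟨a.1.1, a.2⟩
    · exact fun a => ⟨⟨a.1, fun e => hfX (e ▸ not_not.1 a.2)⟩, a.2⟩
  rw [delete_indep_iff, delete_indep_iff, hnl.contractElem_indep_iff,
    disjoint_compl_right_iff_subset]
  constructor
  · exact fun a => ⟨a.1.2.subset (subset_insert _ _), a.2⟩
  · rintro ⟨a, b⟩
    have hfI : f ∉ I := fun e => hfX (b e)
    refine ⟨⟨hfI, ?_⟩, b⟩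
    rw [← a.notMem_closure_iff_of_notMem hfI hf]
    exact fun e => h (Q.closure_subset_closure b e)

theorem one_port [Q.Finite] {K : α → Set α} (hD : Q.IsCircuit D) (hf : f ∈ D)
    (hK : ∀ g ∈ D, Disjoint D (K g)) (hS : ∀ g ∈ D, Sep (Q ／ {g}) (K g)) :
    ∀ (n : ℕ) (A : Set α), (A \ D).ncard ≤ n → Q.IsCircuit A → f ∉ A →
      (∀ x ∈ A, x ∈ D ∨ ∃ g ∈ D, g ≠ f ∧ x ∈ K g) → ∃ g ∈ D, g ≠ f ∧ A ⊆ insert g (K g) := by
  intro n
  induction n using Nat.strong_induction_on with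
  | _ n ih =>
    intro A hn hA hfA hx
    by_cases hs : A ⊆ D
    · exact absurd (hA.eq_of_subset_isCircuit hD hs ▸ hf) hfA
    obtain ⟨u, hu, huD⟩ := not_subset.1 hs
    obtain ⟨g, hg, hgf, huK⟩ := (hx u hu).resolve_left huD
    by_cases hs2 : A ⊆ insert g (K g)
    · exact ⟨g, hg, hgf, hs2⟩
    obtain ⟨v, hv, hvK⟩ := not_subset.1 hs2
    have hgA : g ∉ A := fun e =>
      hvK (Or.inr ((hS g hg).p1 hA e hu hv (fun a => huD (a ▸ hg)) (fun a => hvK (Or.inl a)) huK))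
    have hA' := (hS g hg).p2' hA hgA hu huK hv fun a => hvK (Or.inr a)
    have hlt : (insert g (A \ K g) \ D).ncard < (A \ D).ncard := by
      refine ncard_lt_ncard ⟨fun w hw => ⟨(hw.1.resolve_left fun a => hw.2 (a ▸ hg)).1, hw.2⟩,
        fun e => ?_⟩ (hA.finite.subset sdiff_subset)
      exact (e ⟨hu, huD⟩).1.elim (fun a => huD (a ▸ hg)) fun a => a.2 huK
    obtain ⟨h, hh, -, hsub⟩ := ih _ (hlt.trans_le hn) _ le_rfl hA'
      (fun e => e.elim hgf.symm fun a => hfA a.1) fun w hw =>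
        hw.elim (fun a => Or.inl (a ▸ hg)) fun a => hx w a.1
    have e : g = h := (hsub (Or.inl rfl)).resolve_right (disjoint_left.1 (hK h hh) hg)
    exact absurd (e ▸ hsub (Or.inr ⟨hv, fun a => hvK (Or.inr a)⟩)) hvK

/-- some cocircuit through `f` of the restriction to `K + f` has more than `t` elements -/
def Big (Q : Matroid α) (f : α) (K : Set α) (t : ℕ) : Prop :=
  ∃ C, (Q ＼ (insert f K)ᶜ).IsCocircuit C ∧ f ∈ C ∧ t < C.ncard

theorem big_zero [Q.Finite] (hf : Q.IsNonloop f) : Big Q f K 0 := by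
  have : (Q ＼ (insert f K)ᶜ).IsNonloop f := delete_isNonloop_iff.2 ⟨hf, fun e => e (Or.inl rfl)⟩
  obtain ⟨C, hC, h⟩ := this.exists_mem_isCocircuit
  exact ⟨C, hC, h, (ncard_pos ((ground_finite _).subset hC.subset_ground)).2 ⟨f, h⟩⟩

theorem Big.empty (h : Big Q f ∅ t) : t = 0 := by
  obtain ⟨C, hC, -, h⟩ := h
  have : C ⊆ {f} := fun w hw => (not_not.1 (hC.subset_ground hw).2).resolve_right id
  have := ncard_le_ncard this (finite_singleton f)
  rw [ncard_singleton] at this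
  omega

theorem del_del_eq (h : Disjoint X A) : (Q ＼ X) ＼ Aᶜ = Q ＼ Aᶜ := by
  rw [delete_delete, union_eq_self_of_subset_left h.subset_compl_right]

theorem sep_del (h : Sep (Q ／ {g}) K) (hg : g ∉ X) : Sep ((Q ＼ X) ／ {g}) K := by
  rw [← contract_delete_comm _ (disjoint_singleton_left.2 hg)]
  exact h.delete X

theorem sep_con (h : Sep (Q ／ {g}) K) : Sep ((Q ／ X) ／ {g}) K := by
  rw [contract_comm]
  exact h.contract X

theorem aff [Q.Finite] {K' : Set α} (hD : Q.IsCircuit D) (hf : f ∈ D) (hg : g ∈ D) (hfg : f ≠ g)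
    (h : Sep (Q ／ {f}) K) (h' : Sep (Q ／ {g}) K') (hK : Disjoint D K) (hK' : Disjoint D K')
    (hd : Disjoint K K') (b : Big Q f K s) (b' : Big Q g K' t) :
    ∃ C, Q.IsCocircuit C ∧ C ∩ D = {f, g} ∧ s + t ≤ (C \ D).ncard := by
  obtain ⟨R, hR, fR, sR⟩ := b
  obtain ⟨R', hR', gR, tR⟩ := b'
  have hgK := disjoint_left.1 hK hg
  obtain ⟨B, hB, hBD⟩ := two_pts (M := Q ＼ K ＼ K')
    (delete_isCircuit_iff.2 ⟨delete_isCircuit_iff.2 ⟨hD, hK⟩, hK'⟩) hf hg hfg
  have fB : f ∈ B ∩ D := by rw [hBD]; exact Or.inl rfl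
  have gB : g ∈ B ∩ D := by rw [hBD]; exact Or.inr rfl
  have sR1 : R ⊆ insert f K := fun w hw => not_not.1 (hR.subset_ground hw).2
  have sR2 : R' ⊆ insert g K' := fun w hw => not_not.1 (hR'.subset_ground hw).2
  have fin1 : R.Finite := (ground_finite _).subset hR.subset_ground
  have fin2 : R'.Finite := (ground_finite _).subset hR'.subset_ground
  rw [← del_del_eq (X := K) (disjoint_insert_right.2 ⟨hgK, hd⟩)] at hR'
  have c1 := (sep_del h' hgK).c2 (disjoint_left.1 hK' hg) hB gB.1 hR' gR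
  have c2 := h.c2 (disjoint_left.1 hK hf) c1 (Or.inl fB.1) hR fR
  refine ⟨_, c2, ?_, ?_⟩
  · rw [← hBD]
    ext w
    refine ⟨fun a => ⟨?_, a.2⟩, fun a => ⟨Or.inl (Or.inl a.1), a.2⟩⟩
    rcases a.1 with (b | b) | b
    · exact b
    · exact (sR2 b).elim (fun e => e ▸ gB.1) fun e => absurd e (disjoint_left.1 hK' a.2)
    · exact (sR1 b).elim (fun e => e ▸ fB.1) fun e => absurd e (disjoint_left.1 hK a.2)
  · have k1 : R \ {f} ⊆ K := fun w hw => (sR1 hw.1).resolve_left hw.2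
    have k2 : R' \ {g} ⊆ K' := fun w hw => (sR2 hw.1).resolve_left hw.2
    have e1 := ncard_sdiff_singleton_add_one fR fin1
    have e2 := ncard_sdiff_singleton_add_one gR fin2
    have e3 := ncard_union_eq (hd.mono k1 k2) (fin1.subset sdiff_subset) (fin2.subset sdiff_subset)
    have e4 : (R \ {f} ∪ R' \ {g}).ncard ≤ ((B ∪ R' ∪ R) \ D).ncard := by
      refine ncard_le_ncard (union_subset (fun w hw => ⟨Or.inr hw.1, fun a => ?_⟩)
        fun w hw => ⟨Or.inl (Or.inr hw.1), fun a => ?_⟩)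
        ((Q.ground_finite.subset c2.subset_ground).subset sdiff_subset)
      exacts [disjoint_left.1 hK a (k1 hw), disjoint_left.1 hK' a (k2 hw)]
    omega

theorem par_loop (hD : Q.IsCircuit {y, z}) (hyz : y ≠ z) : (Q ／ {y}).IsCircuit {z} := by
  have := hD.contractElem_isCircuit (nontrivial_pair hyz) (Or.inl rfl)
  rwa [pair_sdiff_left hyz] at this

theorem par_sep (hD : Q.IsCircuit {y, z}) (hyz : y ≠ z) : Sep (Q ／ {y}) {z} :=
  sep_of_mem fun _ _ _ hC hx hy hK =>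
    (par_loop hD hyz).eq_of_subset_isCircuit hC (singleton_subset_iff.2 (hK ▸ hx)) ▸ hy

theorem par_con (hD : Q.IsCircuit {y, z}) (hyz : y ≠ z) : Q ／ {y, z} = Q ／ {y} ＼ {z} := by
  have := hD.sdiff_singleton_isBasis (e := z) (Or.inr rfl)
  rw [pair_sdiff_right hyz] at this
  rw [this.contract_eq_contract_delete, pair_sdiff_left hyz]

theorem par_port (hD : Q.IsCircuit {y, z}) (hyz : y ≠ z) (h : Sep (Q ／ {y}) K) :
    Sep (Q ／ {z}) ((Q.E \ {y, z}) \ K) := by
  have hD' : Q.IsCircuit {z, y} := by rwa [pair_comm]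
  refine sep_of_mem fun C u v hC hu hv hK => ?_
  have hy : y ∉ C := fun e => hK.1.2 (Or.inl ((par_sep hD' hyz.symm).mem hC e hu rfl))
  have h1 : (Q ／ {y} ＼ {z}).IsCircuit C := by
    rw [← par_con hD hyz, pair_comm, par_con hD' hyz.symm]
    exact delete_isCircuit_iff.2 ⟨hC, disjoint_singleton_right.2 hy⟩
  exact ⟨⟨(hC.subset_ground hv).1, fun e => e.elim (fun a => hy (a ▸ hv)) (hC.subset_ground hv).2⟩,
    fun e => hK.2 (h.mem h1.of_delete hv hu e)⟩

end Pool.Agent.Vert
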