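import Pool.Agent.P.MP_b00834_co.V2

/-! Trees of circuits. -/

set_option autoImplicit false

namespace Pool.Agent.Vert

open Set Matroid Classical

variable {α : Type} {Q Q' : Matroid α} {K C A D G P X : Set α} {x y z f g u : α}
  {L : Multiset (Set α)}

/-- `D` lies in the union of two distinct circuits whose union has nullity two -/
def Node (Q : Matroid α) (D D' D'' : Set α) : Prop :=
  Q.IsCircuit D ∧ Q.IsCircuit D' ∧ Q.IsCircuit D'' ∧ D' ≠ D'' ∧ D ⊆ D' ∪ D'' ∧
    ∃ a b, Q.Indep ((D' ∪ D'') \ {a, b})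

/-- trees of circuits with root and multiset of leaves -/
inductive Tree (Q : Matroid α) : Set α → Multiset (Set α) → Prop
  | leaf (D : Set α) : Q.IsCircuit D → Tree Q D {D}
  | node (D D' D'' : Set α) (L' L'' : Multiset (Set α)) :
      Node Q D D' D'' → Tree Q D' L' → Tree Q D'' L'' → Tree Q D (L' + L'')

theorem Tree.root (h : Tree Q D L) : Q.IsCircuit D := by
  cases h with
  | leaf _ h => exact h
  | node _ _ _ _ _ h _ _ => exact h.1

theorem Tree.circ (h : Tree Q D L) : ∀ A ∈ L, Q.IsCircuit A := by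
  induction h with
  | leaf D h => simpa using h
  | node D D' D'' L' L'' _ _ _ h1 h2 =>
    exact fun A hA => (Multiset.mem_add.1 hA).elim (h1 A) (h2 A)

/-- number of members containing `u` -/
noncomputable def cnt (u : α) (T : Multiset (Set α)) : ℕ := T.countP (u ∈ ·)

theorem cnt_add (u : α) (S T : Multiset (Set α)) : cnt u (S + T) = cnt u S + cnt u T :=
  Multiset.countP_add _ _ _

theorem cnt_map (φ : Set α → Set α) (h : ∀ A, u ∈ A → u ∈ φ A) (T : Multiset (Set α)) :
    cnt u T ≤ cnt u (T.map φ) := by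
  induction T using Multiset.induction_on with
  | empty => simp [cnt]
  | cons A T ih =>
    simp only [cnt, Multiset.map_cons, Multiset.countP_cons] at ih ⊢
    have := h A
    split_ifs <;> first | omega | tauto

theorem Tree.cov (h : Tree Q D L) : ∀ u ∈ D, 1 ≤ cnt u L := by
  induction h with
  | leaf D h => exact fun u hu => Multiset.countP_pos.2 ⟨D, by simp, hu⟩
  | node D D' D'' L' L'' h _ _ h1 h2 =>
    intro u hu
    rw [cnt_add]
    rcases h.2.2.2.2.1 hu with a | a
    · have := h1 u a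
      omega
    · have := h2 u a
      omega

theorem Tree.map (φ : Set α → Set α) (h1 : ∀ A, Q.IsCircuit A → Q'.IsCircuit (φ A))
    (h2 : ∀ D D' D'', Node Q D D' D'' → Node Q' (φ D) (φ D') (φ D'')) (h : Tree Q D L) :
    Tree Q' (φ D) (L.map φ) := by
  induction h with
  | leaf D h => exact Tree.leaf _ (h1 D h)
  | node D D' D'' L' L'' h _ _ k1 k2 =>
    rw [Multiset.map_add]
    exact Tree.node _ _ _ _ _ (h2 _ _ _ h) k1 k2

theorem Tree.of_delete (h : Tree (Q ＼ K) D L) : Tree Q D L := by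
  have := h.map (Q' := Q) id (fun _ a => a.of_delete) fun _ _ _ ⟨a, b, c, d, e, x, y, i⟩ =>
    ⟨a.of_delete, b.of_delete, c.of_delete, d, e, x, y, i.of_delete⟩
  rwa [Multiset.map_id] at this

/-- lift of a circuit of the contraction of `f` -/
noncomputable def lift (Q : Matroid α) (f : α) (A : Set α) : Set α :=
  if Q.IsCircuit (insert f A) then insert f A else A

theorem sub_lift : A ⊆ lift Q f A := by
  unfold lift
  split_ifs
  exacts [subset_insert _ _, subset_rfl]

theorem lift_sub : lift Q f A ⊆ insert f A := by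
  unfold lift
  split_ifs
  exacts [subset_rfl, subset_insert _ _]

theorem lift_circ (h : (Q ／ {f}).IsCircuit A) : Q.IsCircuit (lift Q f A) := by
  unfold lift
  split_ifs with e
  exacts [e, (circ_of_contract h).resolve_right e]

theorem null_two {D' D'' : Set α} {a b : α} (h1 : Q.IsCircuit D') (h2 : Q.IsCircuit D'')
    (hne : D' ≠ D'') (hi : Q.Indep ((D' ∪ D'') \ {a, b})) :
    a ∈ Q.closure ((D' ∪ D'') \ {a, b}) := by
  obtain ⟨C, s, hC⟩ := h1.elimination h2 hne b
  have ha : a ∈ C := by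
    by_contra hn
    exact hC.not_indep (hi.subset fun w hw => ⟨(s hw).1, fun e =>
      e.elim (fun k => hn (k ▸ hw)) (s hw).2⟩)
  have hs : C \ {a} ⊆ (D' ∪ D'') \ {a, b} :=
    fun w hw => ⟨(s hw.1).1, fun e => e.elim hw.2 (s hw.1).2⟩
  exact Q.closure_subset_closure hs (hC.mem_closure_sdiff_singleton_of_mem ha)

theorem Tree.lift (hf : Q.IsNonloop f) (h : Tree (Q ／ {f}) D L) :
    Tree Q (lift Q f D) (L.map (lift Q f)) := by
  refine h.map _ (fun _ => lift_circ) fun D D' D'' ⟨h0, h1, h2, hne, hs, a, b, hi⟩ => ?_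
  have n1 : f ∉ D' := fun e => (h1.subset_ground e).2 rfl
  have n2 : f ∉ D'' := fun e => (h2.subset_ground e).2 rfl
  rw [hf.contractElem_indep_iff] at hi
  refine ⟨lift_circ h0, lift_circ h1, lift_circ h2, fun e => hne ?_, fun w hw => ?_, a, b,
    hi.2.subset fun w hw => ?_⟩
  · ext w
    constructor
    · exact fun k => (lift_sub (e ▸ sub_lift k : w ∈ Vert.lift Q f D'')).resolve_left
        fun j => n1 (j ▸ k)
    · exact fun k => (lift_sub (e ▸ sub_lift k : w ∈ Vert.lift Q f D')).resolve_left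
        fun j => n2 (j ▸ k)
  · by_cases k : w ∈ D
    · exact (hs k).imp (fun j => sub_lift j) fun j => sub_lift j
    have e : w = f := (lift_sub hw).resolve_right k
    subst e
    by_contra hn
    have c1 : Q.IsCircuit D' := (circ_of_contract h1).resolve_right fun j =>
      hn (Or.inl (by rw [Vert.lift, if_pos j]; exact Or.inl rfl))
    have c2 : Q.IsCircuit D'' := (circ_of_contract h2).resolve_right fun j =>
      hn (Or.inr (by rw [Vert.lift, if_pos j]; exact Or.inl rfl))
    have hJ := hi.2.subset (subset_insert _ _)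
    have ha := null_two c1 c2 hne hJ
    have hb := null_two c1 c2 hne (a := b) (b := a) (by rwa [pair_comm])
    rw [pair_comm] at hb
    have hcl : D' ∪ D'' ⊆ Q.closure ((D' ∪ D'') \ {a, b}) := fun v hv => by
      by_cases j : v ∈ ({a, b} : Set α)
      · exact j.elim (fun i => i ▸ ha) fun i => i ▸ hb
      · exact Q.subset_closure _ hJ.subset_ground ⟨hv, j⟩
    have hw' : w ∈ Q.closure ((D' ∪ D'') \ {a, b}) :=
      Q.closure_subset_closure_of_subset_closure
        (fun v hv => hcl (hs ((lift_sub hv.1).resolve_left hv.2)))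
        ((lift_circ h0).mem_closure_sdiff_singleton_of_mem hw)
    exact (hJ.notMem_closure_iff_of_notMem hi.1 hf.mem_ground).2 hi.2 hw'
  · rcases hw.1 with j | j
    · exact (lift_sub j).imp_right fun i => ⟨Or.inl i, hw.2⟩
    · exact (lift_sub j).imp_right fun i => ⟨Or.inr i, hw.2⟩

/-- substitution of the path `P - f` for `f` -/
noncomputable def sub (f : α) (P A : Set α) : Set α := if f ∈ A then (A ∪ P) \ {f} else A

theorem mem_sub : x ∈ sub f P A ↔ x ≠ f ∧ (x ∈ A ∨ f ∈ A ∧ x ∈ P) := by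
  unfold sub
  split_ifs with e
  · simp only [mem_sdiff, mem_union, mem_singleton_iff, e, true_and]
    tauto
  · simp only [e, false_and, or_false]
    exact ⟨fun a => ⟨fun b => e (b ▸ a), a⟩, fun a => a.2⟩

theorem sub_circ (h : Sep (Q ／ {f}) K) (hP : Q.IsCircuit P) (hfP : f ∈ P)
    (hPK : P ⊆ insert f K) (hne : Q.IsNonloop f) (hA : (Q ＼ K).IsCircuit A) :
    Q.IsCircuit (sub f P A) := by
  unfold sub
  split_ifs with e
  exacts [h.glue hA.of_delete e (delete_isCircuit_iff.1 hA).2 hP hfP hPK hne, hA.of_delete]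

theorem Tree.sub (h : Sep (Q ／ {f}) K) (hP : Q.IsCircuit P) (hfP : f ∈ P)
    (hPK : P ⊆ insert f K) (hne : Q.IsNonloop f) (ht : Tree (Q ＼ K) D L) :
    Tree Q (sub f P D) (L.map (sub f P)) := by
  have hc := fun A => sub_circ (A := A) h hP hfP hPK hne
  refine ht.map _ hc fun D D' D'' ⟨h0, h1, h2, hn, hs, a, b, hi⟩ => ?_
  obtain ⟨p, hp, hpf⟩ := ex_ne hP hne
  have hpK : p ∈ K := (hPK hp).resolve_left hpf
  have inj : ∀ A B, (Q ＼ K).IsCircuit B → Vert.sub f P A = Vert.sub f P B →
      (Q ＼ K).IsCircuit A → A ⊆ B := by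
    intro A B hB e hA w hw
    by_cases k : w = f
    · have : p ∈ Vert.sub f P B := e ▸ mem_sub.2 ⟨hpf, Or.inr ⟨k ▸ hw, hp⟩⟩
      exact k ▸ ((mem_sub.1 this).2.resolve_left fun j => (hB.subset_ground j).2 hpK).1
    · have : w ∈ Vert.sub f P B := e ▸ mem_sub.2 ⟨k, Or.inl hw⟩
      exact (mem_sub.1 this).2.resolve_right fun j =>
        (hA.subset_ground hw).2 ((hPK j.2).resolve_left k)
  have mem : ∀ w, w ∈ Vert.sub f P D' ∪ Vert.sub f P D'' ↔ w ∈ Vert.sub f P (D' ∪ D'') := by
    intro w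
    simp only [mem_union, mem_sub]
    tauto
  refine ⟨hc _ h0, hc _ h1, hc _ h2, fun e => hn (subset_antisymm (inj _ _ h2 e h1)
    (inj _ _ h1 e.symm h2)), fun w hw => (mem w).2 ?_, if a = f then p else a,
    if b = f then p else b, ?_⟩
  · rw [mem_sub] at hw ⊢
    exact ⟨hw.1, hw.2.imp (fun j => hs j) fun j => ⟨hs j.1, j.2⟩⟩
  rw [indep_iff_forall_subset_not_isCircuit (sdiff_subset.trans
    (union_subset (hc _ h1).subset_ground (hc _ h2).subset_ground))]
  intro C hC hCc
  have m : ∀ w ∈ C, w ≠ f ∧ (w ∈ D' ∪ D'' ∨ f ∈ D' ∪ D'' ∧ w ∈ P) := fun w hw =>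
    mem_sub.1 ((mem w).1 (hC hw).1)
  have nK : ∀ w ∈ D' ∪ D'', w ∉ K := fun w hw =>
    hw.elim (fun j => (h1.subset_ground j).2) fun j => (h2.subset_ground j).2
  have out : ∀ w ∈ C, w ∉ K → w ∈ (D' ∪ D'') \ {a, b} := fun w hw k => by
    refine ⟨(m w hw).2.resolve_right fun j => k ((hPK j.2).resolve_left (m w hw).1), fun j => ?_⟩
    rcases j with j | j
    · exact (hC hw).2 (Or.inl (by rw [if_neg (j ▸ (m w hw).1)]; exact j))
    · exact (hC hw).2 (Or.inr (by rw [if_neg (j ▸ (m w hw).1)]; exact j))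
  have inn : ∀ w ∈ C, w ∈ K → f ∈ D' ∪ D'' ∧ w ∈ P := fun w hw k =>
    (m w hw).2.resolve_left fun j => nK w j k
  have hfC : f ∉ C := fun e => (m f e).1 rfl
  by_cases c1 : ∃ x ∈ C, x ∈ K
  swap
  · push Not at c1
    exact hCc.not_indep (hi.of_delete.subset fun w hw => out w hw (c1 w hw))
  obtain ⟨x, hx, hxK⟩ := c1
  by_cases c2 : ∃ y ∈ C, y ∉ K
  swap
  · push Not at c2
    exact hfC (hCc.eq_of_subset_isCircuit hP (fun w hw => (inn w hw (c2 w hw)).2) ▸ hfP)
  obtain ⟨y, hy, hyK⟩ := c2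
  have e1 := (h.p2 hCc hfC hx hxK hy hyK).eq_of_subset_isCircuit hP
    (insert_subset hfP fun w hw => (inn w hw.1 hw.2).2)
  have hpC : p ∈ C := by
    rw [← e1] at hp
    exact (hp.resolve_left hpf).1
  refine (h.p2' hCc hfC hx hxK hy hyK).not_indep (hi.of_delete.subset (insert_subset
    ⟨(inn x hx hxK).1, fun j => ?_⟩ fun w hw => out w hw.1 hw.2))
  rcases j with j | j
  · exact (hC hpC).2 (Or.inl (by rw [if_pos j.symm]))
  · exact (hC hpC).2 (Or.inr (by rw [if_pos j.symm]; rfl))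

end Pool.Agent.Vert
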