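import Pool.Agent.P.MP_b00834_co.V3

/-! Solutions of a list of demands and the ways to pull them back. -/

set_option autoImplicit false

namespace Pool.Agent.Vert

open Set Matroid Classical

variable {α : Type} {Q Q' : Matroid α} {K K' : α → Set α} {D D' G P S U V W : Set α}
  {x y z f g u e : α} {L T : Multiset (Set α)} {Ss Ss' : List (Set α)} {n m c w : ℕ}

/-- two trees with the same root -/
def Two (Q : Matroid α) (G : Set α) (L : Multiset (Set α)) : Prop :=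
  ∃ L' L'', Tree Q G L' ∧ Tree Q G L'' ∧ L = L' + L''

/-- `G` is obtained from `D` by expanding some elements of `S` into their ports -/
def Exp (D : Set α) (K : α → Set α) (S G : Set α) : Prop :=
  D \ S ⊆ G ∧ (∀ x ∈ G, x ∈ D ∨ ∃ f ∈ S, f ∈ D ∧ x ∈ K f) ∧ ∀ f ∈ D, ¬ G ⊆ insert f (K f)

/-- solution of a pair demand -/
def PSol (Q : Matroid α) (D : Set α) (K : α → Set α) (S : Set α) (L : Multiset (Set α)) : Prop :=
  ∃ G, Exp D K S G ∧ Two Q G L

/-- solution of a token of weight `w` -/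
def TSol (Q : Matroid α) (e : α) (w : ℕ) (L : Multiset (Set α)) : Prop :=
  L = Multiset.replicate w ∅ ∨ ∃ G, e ∈ G ∧ Two Q G L

/-- sums of solutions -/
inductive Sums {ι : Type} (R : ι → Multiset (Set α) → Prop) : List ι → Multiset (Set α) → Prop
  | nil : Sums R [] 0
  | cons (i : ι) (I : List ι) (L T : Multiset (Set α)) :
      R i L → Sums R I T → Sums R (i :: I) (L + T)

/-- sums of `n` solutions of one demand -/
def Rep (R : Multiset (Set α) → Prop) (n : ℕ) : Multiset (Set α) → Prop :=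
  Sums (fun _ : Unit => R) (List.replicate n ())

/-- same size, better cover -/
def Imp (U : Set α) (T T' : Multiset (Set α)) : Prop :=
  T'.card = T.card ∧ ∀ u ∈ U, cnt u T ≤ cnt u T'

/-- solution of all demands -/
def Sol (Q : Matroid α) (D : Set α) (K : α → Set α) (e : α) (Ss : List (Set α)) (n m c : ℕ)
    (U : Set α) : Prop :=
  ∃ A B C X, Sums (PSol Q D K) Ss A ∧ Rep (TSol Q e 1) n B ∧ Rep (TSol Q e 2) m C ∧
    (∀ G ∈ X, Q.IsCircuit G) ∧ A.card + B.card + C.card + X.card ≤ c ∧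
    ∀ u ∈ U, 2 ≤ cnt u A + cnt u B + cnt u C + cnt u X

theorem Imp.rfl : Imp U T T := ⟨Eq.refl _, fun _ _ => le_rfl⟩

theorem Imp.add {A B A' B' : Multiset (Set α)} (h : Imp U A A') (h' : Imp U B B') :
    Imp U (A + B) (A' + B') :=
  ⟨by rw [Multiset.card_add, Multiset.card_add, h.1, h'.1], fun u hu => by
    rw [cnt_add, cnt_add]
    exact Nat.add_le_add (h.2 u hu) (h'.2 u hu)⟩

theorem imp_map (φ : Set α → Set α) (h : ∀ u ∈ U, ∀ A, u ∈ A → u ∈ φ A) : Imp U T (T.map φ) :=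
  ⟨Multiset.card_map _ _, fun u hu => cnt_map φ (h u hu) T⟩

theorem Sums.imp {ι : Type} {R R' : ι → Multiset (Set α) → Prop} {I : List ι} (h : Sums R I T) :
    (∀ i ∈ I, ∀ L, R i L → ∃ L', R' i L' ∧ Imp U L L') → ∃ T', Sums R' I T' ∧ Imp U T T' := by
  induction h with
  | nil => exact fun _ => ⟨0, Sums.nil, Imp.rfl⟩
  | cons i I L T h _ ih =>
    intro k
    obtain ⟨L', a, b⟩ := k i List.mem_cons_self L h
    obtain ⟨T', a', b'⟩ := ih fun j hj => k j (List.mem_cons_of_mem _ hj)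
    exact ⟨_, Sums.cons _ _ _ _ a a', b.add b'⟩

theorem Sums.inv {ι : Type} {R : ι → Multiset (Set α) → Prop} {i : ι} {I : List ι}
    (h : Sums R (i :: I) T) : ∃ L T', R i L ∧ Sums R I T' ∧ T = L + T' := by
  cases h with
  | cons _ _ L T' a b => exact ⟨L, T', a, b, rfl⟩

theorem Sums.inv0 {ι : Type} {R : ι → Multiset (Set α) → Prop} (h : Sums R [] T) : T = 0 := by
  cases h
  rfl

theorem Two.root (h : Two Q G L) : Q.IsCircuit G := by
  obtain ⟨_, _, a, _⟩ := h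
  exact a.root

theorem Two.circ (h : Two Q G L) : ∀ A ∈ L, Q.IsCircuit A := by
  obtain ⟨_, _, a, b, rfl⟩ := h
  exact fun A hA => (Multiset.mem_add.1 hA).elim (a.circ A) (b.circ A)

theorem Two.cov (h : Two Q G L) (hu : u ∈ G) : 2 ≤ cnt u L := by
  obtain ⟨_, _, a, b, rfl⟩ := h
  have := a.cov u hu
  have := b.cov u hu
  rw [cnt_add]
  omega

theorem Two.of_delete (h : Two (Q ＼ W) G L) : Two Q G L := by
  obtain ⟨_, _, a, b, rfl⟩ := h
  exact ⟨_, _, a.of_delete, b.of_delete, rfl⟩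

theorem Two.lift (hf : Q.IsNonloop f) (h : Two (Q ／ {f}) G L) :
    Two Q (lift Q f G) (L.map (lift Q f)) := by
  obtain ⟨_, _, a, b, rfl⟩ := h
  exact ⟨_, _, a.lift hf, b.lift hf, Multiset.map_add _ _ _⟩

theorem Two.sub (h : Sep (Q ／ {f}) W) (hP : Q.IsCircuit P) (hfP : f ∈ P)
    (hPK : P ⊆ insert f W) (hne : Q.IsNonloop f) (ht : Two (Q ＼ W) G L) :
    Two Q (sub f P G) (L.map (sub f P)) := by
  obtain ⟨_, _, a, b, rfl⟩ := ht
  exact ⟨_, _, a.sub h hP hfP hPK hne, b.sub h hP hfP hPK hne, Multiset.map_add _ _ _⟩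

theorem two_leaf (h : Q.IsCircuit D) : Two Q D (Multiset.replicate 2 D) :=
  ⟨_, _, Tree.leaf D h, Tree.leaf D h, rfl⟩

theorem Sol.imp (φ : Set α → Set α) (h : Sol Q' D' K' e Ss' n m c U)
    (hP : ∀ A, Sums (PSol Q' D' K') Ss' A → ∃ A', Sums (PSol Q D K) Ss A' ∧ Imp U A A' ∧
      ∀ u ∈ V, u ∈ U ∨ 2 ≤ cnt u A')
    (h1 : ∀ A, A ⊆ φ A) (h2 : ∀ A, Q'.IsCircuit A → Q.IsCircuit (φ A))
    (h3 : ∀ G L, Two Q' G L → Two Q (φ G) (L.map φ)) : Sol Q D K e Ss n m c V := by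
  obtain ⟨A, B, C, X, a1, a2, a3, a4, a5, a6⟩ := h
  have ht : ∀ w L, TSol Q' e w L → ∃ L', TSol Q e w L' ∧ Imp U L L' := by
    rintro w L (a | ⟨G, a, b⟩)
    · exact ⟨L, Or.inl a, Imp.rfl⟩
    · exact ⟨_, Or.inr ⟨_, h1 G a, h3 G L b⟩, imp_map φ fun u _ A a => h1 A a⟩
  obtain ⟨A', p1, p2, p3⟩ := hP A a1
  obtain ⟨B', q1, q2⟩ := Sums.imp (R' := fun _ => TSol Q e 1) a2 fun _ _ => ht 1
  obtain ⟨C', r1, r2⟩ := Sums.imp (R' := fun _ => TSol Q e 2) a3 fun _ _ => ht 2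
  have s2 : Imp U X (X.map φ) := imp_map φ fun u _ A a => h1 A a
  refine ⟨A', B', C', X.map φ, p1, q1, r1, fun G hG => ?_, ?_, fun u hu => ?_⟩
  · obtain ⟨G', a, rfl⟩ := Multiset.mem_map.1 hG
    exact h2 _ (a4 _ a)
  · rwa [p2.1, q2.1, r2.1, s2.1]
  · rcases p3 u hu with a | a
    · have := a6 u a
      have := p2.2 u a
      have := q2.2 u a
      have := r2.2 u a
      have := s2.2 u a
      omega
    · omega

theorem Sol.cover (h : Sol Q D K e (S :: Ss) n m c U) :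
    Sol Q D K e (S :: Ss) n m c (U ∪ D \ S) := by
  obtain ⟨A, B, C, X, a1, a2, a3, a4, a5, a6⟩ := h
  refine ⟨A, B, C, X, a1, a2, a3, a4, a5, fun u hu => hu.elim (a6 u) fun k => ?_⟩
  obtain ⟨L, T, ⟨G, b1, b2⟩, -, rfl⟩ := a1.inv
  have := b2.cov (b1.1 k)
  rw [cnt_add]
  omega

theorem Sol.replN (h : Sol Q D K e (S :: Ss) n m c U) (he : e ∈ D \ S) :
    Sol Q D K e Ss (n + 1) m c U := by
  obtain ⟨A, B, C, X, a1, a2, a3, a4, a5, a6⟩ := h
  obtain ⟨L, T, ⟨G, b1, b2⟩, b3, rfl⟩ := a1.inv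
  refine ⟨T, L + B, C, X, b3, Sums.cons _ _ _ _ (Or.inr ⟨G, b1.1 he, b2⟩) a2, a3, a4, ?_,
    fun u hu => ?_⟩
  · rw [Multiset.card_add] at a5 ⊢
    omega
  · have := a6 u hu
    rw [cnt_add] at this ⊢
    omega

theorem Sol.replF (h : Sol Q D K e (S :: Ss) n m c U) (he : e ∈ D \ S) :
    Sol Q D K e Ss n (m + 1) c U := by
  obtain ⟨A, B, C, X, a1, a2, a3, a4, a5, a6⟩ := h
  obtain ⟨L, T, ⟨G, b1, b2⟩, b3, rfl⟩ := a1.inv
  refine ⟨T, B, L + C, X, b3, a2, Sums.cons _ _ _ _ (Or.inr ⟨G, b1.1 he, b2⟩) a3, a4, ?_,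
    fun u hu => ?_⟩
  · rw [Multiset.card_add] at a5 ⊢
    omega
  · have := a6 u hu
    rw [cnt_add] at this ⊢
    omega

theorem Sol.new (h : Sol Q D K e (S :: Ss) n m c U) : Sol Q D K e Ss n m c U := by
  obtain ⟨A, B, C, X, a1, a2, a3, a4, a5, a6⟩ := h
  obtain ⟨L, T, ⟨G, b1, b2⟩, b3, rfl⟩ := a1.inv
  refine ⟨T, B, C, L + X, b3, a2, a3,
    fun A hA => (Multiset.mem_add.1 hA).elim (b2.circ A) (a4 A), ?_, fun u hu => ?_⟩
  · rw [Multiset.card_add] at a5 ⊢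
    omega
  · have := a6 u hu
    rw [cnt_add] at this ⊢
    omega

theorem sums_const {ι : Type} {R : ι → Multiset (Set α) → Prop} (h : ∀ i, R i L) (I : List ι) :
    ∃ T, Sums R I T ∧ T.card = I.length * L.card := by
  induction I with
  | nil => exact ⟨0, Sums.nil, by simp⟩
  | cons i I ih =>
    obtain ⟨T, a, b⟩ := ih
    exact ⟨_, Sums.cons _ _ _ _ (h i) a, by rw [Multiset.card_add, b, List.length_cons]; ring⟩

theorem exp_self (hnt : D.Nontrivial) (hK : ∀ g ∈ D, Disjoint D (K g)) : Exp D K S D := by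
  refine ⟨sdiff_subset, fun _ a => Or.inl a, fun f hf k => ?_⟩
  obtain ⟨x, a, b⟩ := hnt.exists_ne f
  exact (k a).elim b (disjoint_left.1 (hK f hf) a)

theorem sol_base (hD : Q.IsCircuit D) (hnt : D.Nontrivial) (hK : ∀ g ∈ D, Disjoint D (K g))
    (hW : 2 * Ss.length + n + 2 * m ≤ c) : Sol Q D K e Ss n m c ∅ := by
  obtain ⟨A, a1, a2⟩ := sums_const (R := PSol Q D K)
    (fun S => ⟨D, exp_self hnt hK, two_leaf hD⟩) Ss
  obtain ⟨B, b1, b2⟩ := sums_const (R := fun _ : Unit => TSol Q e 1) (fun _ => Or.inl rfl)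
    (List.replicate n ())
  obtain ⟨C, c1, c2⟩ := sums_const (R := fun _ : Unit => TSol Q e 2) (fun _ => Or.inl rfl)
    (List.replicate m ())
  refine ⟨A, B, C, 0, a1, b1, c1, by simp, ?_, by simp⟩
  simp only [Multiset.card_replicate, List.length_replicate, Multiset.card_zero] at a2 b2 c2 ⊢
  omega

end Pool.Agent.Vert
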