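import Pool.Agent.P.MP_b00834_co.V4

/-! Pulling solutions back along the four reductions. -/

set_option autoImplicit false

namespace Pool.Agent.Vert

open Set Matroid Classical

variable {α : Type} {Q Q' : Matroid α} {K K' : α → Set α} {D D' G P S U V W X : Set α}
  {x y z f g u e : α} {L T : Multiset (Set α)} {Ss Ss' : List (Set α)} {n m c w : ℕ}

/-- number of members containing `f` -/
noncomputable def tie (f : α) (Ss : List (Set α)) : ℕ :=
  (Ss.map fun S => if f ∈ S then 1 else 0).sum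

/-- total size of the traces of `X` -/
noncomputable def wsum (X : Set α) (Ss : List (Set α)) : ℕ := (Ss.map fun S => (X ∩ S).ncard).sum

theorem tie_nil : tie f ([] : List (Set α)) = 0 := rfl

theorem tie_cons : tie f (S :: Ss) = (if f ∈ S then 1 else 0) + tie f Ss := by simp [tie]

theorem wsum_nil : wsum X ([] : List (Set α)) = 0 := rfl

theorem wsum_cons : wsum X (S :: Ss) = (X ∩ S).ncard + wsum X Ss := by simp [wsum]

theorem tie_zero (h : tie f Ss = 0) : ∀ S ∈ Ss, f ∉ S := by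
  induction Ss with
  | nil => simp
  | cons S Ss ih =>
    rw [tie_cons] at h
    intro S' hS' k
    rcases List.mem_cons.1 hS' with rfl | a
    · rw [if_pos k] at h
      omega
    · exact ih (by omega) S' a k

theorem tie_le : tie f Ss ≤ Ss.length := by
  induction Ss with
  | nil => simp [tie]
  | cons S Ss ih =>
    rw [tie_cons, List.length_cons]
    split_ifs <;> omega

theorem tie_map : tie g (Ss.map (· \ {f})) = if g = f then 0 else tie g Ss := by
  induction Ss with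
  | nil => simp [tie]
  | cons S Ss ih =>
    rw [List.map_cons, tie_cons, tie_cons, ih]
    by_cases a : g = f <;> simp [a]

theorem wsum_map (hX : X.Finite) :
    wsum X Ss = wsum X (Ss.map (· \ {f})) + if f ∈ X then tie f Ss else 0 := by
  induction Ss with
  | nil => simp [tie, wsum]
  | cons S Ss ih =>
    rw [List.map_cons, wsum_cons, wsum_cons, tie_cons, ih, ← inter_sdiff_assoc]
    by_cases a : f ∈ X ∩ S
    · have := ncard_sdiff_singleton_add_one a (hX.subset inter_subset_left)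
      rw [if_pos a.1, if_pos a.1, if_pos a.2]
      omega
    · rw [sdiff_singleton_eq_self a]
      split_ifs with b c
      · exact absurd ⟨b, c⟩ a
      all_goals omega

theorem wsum_pair (h : X ⊆ {f, g}) : wsum X Ss ≤ tie f Ss + tie g Ss := by
  have hX : X.Finite := (toFinite _).subset h
  rw [wsum_map (f := f) hX, wsum_map (f := g) hX]
  have : wsum X ((Ss.map (· \ {f})).map (· \ {g})) = 0 := by
    induction Ss with
    | nil => rfl
    | cons S Ss ih =>
      rw [List.map_cons, List.map_cons, wsum_cons, ih, add_zero, ncard_eq_zero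
        (hX.subset inter_subset_left)]
      exact eq_empty_of_forall_notMem fun w hw => (h hw.1).elim hw.2.1.2 hw.2.2
  rw [this, tie_map]
  split_ifs <;> omega

theorem Sol.asg (h : Sol Q D K' e Ss n m c U) (h1 : ∀ g, g ≠ f → K' g = K g) (h2 : K f = ∅)
    (h3 : tie f Ss = 0) : Sol Q D K e Ss n m c U := by
  refine h.imp id (fun A hA => ?_) (fun _ => subset_rfl) (fun _ a => a)
    fun G L a => by rwa [Multiset.map_id]
  obtain ⟨A', a, b⟩ := hA.imp (U := U) (R' := PSol Q D K) fun S hS L ⟨G, ⟨e1, e2, e3⟩, t⟩ => by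
    have hs : ∀ g, K g ⊆ K' g := fun g => by
      by_cases k : g = f
      · rw [k, h2]
        exact empty_subset _
      · rw [h1 g k]
    exact ⟨L, ⟨G, ⟨e1, fun x hx => (e2 x hx).imp_right fun ⟨g, a, b, c⟩ =>
      ⟨g, a, b, h1 g (fun k => tie_zero h3 S hS (k ▸ a)) ▸ c⟩,
      fun g hg k => e3 g hg (k.trans (insert_subset_insert (hs g)))⟩, t⟩, Imp.rfl⟩
  exact ⟨A', a, b, fun _ k => Or.inl k⟩

theorem Sol.con [Q.Finite] (h : Sol (Q ／ {f}) (D \ {f}) K e Ss n m c U) (hD : Q.IsCircuit D)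
    (hnt : D.Nontrivial) (hf : f ∈ D) (hK : ∀ g ∈ D, Disjoint D (K g))
    (hS : ∀ g ∈ D, Sep (Q ／ {g}) (K g)) (hKf : K f = ∅) : Sol Q D K e Ss n m c U := by
  have hnl := hD.isNonloop_of_mem hnt hf
  refine h.imp (lift Q f) (fun A hA => ?_) (fun _ => sub_lift) (fun _ => lift_circ)
    fun G L a => a.lift hnl
  obtain ⟨A', a, b⟩ := hA.imp (U := U) (R' := PSol Q D K) fun S hS' L ⟨G, ⟨e1, e2, e3⟩, t⟩ => by
    refine ⟨_, ⟨_, ?_, t.lift hnl⟩, imp_map _ fun _ _ _ a => sub_lift a⟩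
    have hG := t.root
    have hfG : f ∉ G := fun a => (hG.subset_ground a).2 rfl
    have hc : Q.IsCircuit (insert f G) := (circ_of_contract hG).resolve_left fun k => by
      obtain ⟨g, a, b, c⟩ := one_port hD hf hK hS _ G le_rfl k hfG fun x hx =>
        (e2 x hx).imp (fun a => a.1) fun ⟨g, _, b, c⟩ => ⟨g, b.1, b.2, c⟩
      exact e3 g ⟨a, b⟩ c
    rw [lift, if_pos hc]
    refine ⟨fun x hx => ?_, fun x hx => ?_, fun g hg k => ?_⟩
    · by_cases k : x = f
      exacts [Or.inl k, Or.inr (e1 ⟨⟨hx.1, k⟩, hx.2⟩)]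
    · rcases hx with k | k
      · exact Or.inl (k ▸ hf)
      · exact (e2 x k).imp (fun a => a.1) fun ⟨g, a, b, c⟩ => ⟨g, a, b.1, c⟩
    · by_cases j : g = f
      · obtain ⟨x, hx⟩ := hG.nonempty
        have := k (Or.inr hx)
        rw [j, hKf] at this
        exact this.elim (fun a => hfG (a ▸ hx)) id
      · exact e3 g ⟨hg, j⟩ ((subset_insert _ _).trans k)
  exact ⟨A', a, b, fun _ k => Or.inl k⟩

theorem fin_pairs (hf : f ∈ D) (hnl : Q.IsNonloop f) (hS : Sep (Q ／ {f}) (K f))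
    (hK : Disjoint D (K f)) (hd : ∀ g ∈ D, g ≠ f → Disjoint (K f) (K g))
    (h1 : ∀ g, g ≠ f → K' g = K g) : ∀ (Ss : List (Set α)) A (Ps : List (Set α)),
    Sums (PSol (Q ＼ K f) D K') (Ss.map (· \ {f})) A → Ps.length ≤ tie f Ss →
    (∀ P ∈ Ps, Q.IsCircuit P ∧ f ∈ P ∧ P ⊆ insert f (K f)) →
    ∃ A', Sums (PSol Q D K) Ss A' ∧ Imp {f}ᶜ A A' ∧ ∀ P ∈ Ps, ∀ u ∈ P, u ≠ f → 2 ≤ cnt u A' := by
  intro Ss
  induction Ss with
  | nil =>
    intro A Ps hA hl _
    rw [tie_nil, Nat.le_zero, List.length_eq_zero_iff] at hl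
    rw [hA.inv0, hl]
    exact ⟨0, Sums.nil, Imp.rfl, by simp⟩
  | cons S Ss ih =>
    intro A Ps hA hl hP
    obtain ⟨L, T, ⟨G, ⟨e1, e2, e3⟩, t⟩, hT, rfl⟩ := Sums.inv hA
    have hGK : ∀ x ∈ G, x ∉ K f := fun x hx => (t.root.subset_ground hx).2
    have e2' : ∀ x ∈ G, x ∈ D ∨ ∃ g ∈ S, g ∈ D ∧ x ∈ K g := fun x hx =>
      (e2 x hx).imp_right fun ⟨g, a, b, c⟩ => ⟨g, a.1, b, h1 g a.2 ▸ c⟩
    have e3' : ∃ x ∈ G, x ∉ insert f (K f) := by
      obtain ⟨x, a, b⟩ := not_subset.1 (e3 f hf)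
      exact ⟨x, a, fun k => k.elim (fun j => b (Or.inl j)) (hGK x a)⟩
    rw [tie_cons] at hl
    by_cases k : f ∈ S ∧ Ps ≠ []
    · obtain ⟨P, Ps, rfl⟩ := List.exists_cons_of_ne_nil k.2
      rw [if_pos k.1, List.length_cons] at hl
      obtain ⟨T', a1, a2, a3⟩ := ih T Ps hT (by omega) fun P a => hP P (List.mem_cons_of_mem _ a)
      obtain ⟨p1, p2, p3⟩ := hP P List.mem_cons_self
      have fG : f ∈ G := e1 ⟨hf, fun a => a.2 rfl⟩
      have t' := t.sub hS p1 p2 p3 hnl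
      refine ⟨_, Sums.cons _ _ _ _ ⟨_, ⟨fun x hx => ?_, fun x hx => ?_, fun g hg j => ?_⟩, t'⟩ a1,
        (imp_map _ fun u hu A a => mem_sub.2 ⟨hu, Or.inl a⟩).add a2, fun P' hP' u hu huf => ?_⟩
      · exact mem_sub.2 ⟨fun a => hx.2 (a ▸ k.1), Or.inl (e1 ⟨hx.1, fun a => hx.2 a.1⟩)⟩
      · rw [mem_sub] at hx
        rcases hx.2 with a | a
        · exact e2' x a
        · exact Or.inr ⟨f, k.1, hf, (p3 a.2).resolve_left hx.1⟩
      · by_cases i : g = f
        · obtain ⟨x, a, b⟩ := e3'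
          exact b (i ▸ j (mem_sub.2 ⟨fun i => b (Or.inl i), Or.inl a⟩))
        · obtain ⟨p, a, b⟩ := ex_ne p1 hnl
          have pK := (p3 a).resolve_left b
          exact (j (mem_sub.2 ⟨b, Or.inr ⟨fG, a⟩⟩)).elim
            (fun i => disjoint_left.1 hK hg (i ▸ pK)) (disjoint_left.1 (hd g hg i) pK)
      · rw [cnt_add]
        rcases List.mem_cons.1 hP' with rfl | a
        · have := t'.cov (mem_sub.2 ⟨huf, Or.inr ⟨fG, hu⟩⟩)
          omega
        · have := a3 P' a u hu huf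
          omega
    · obtain ⟨T', a1, a2, a3⟩ := ih T Ps hT (by
        by_cases i : f ∈ S
        · rw [not_not.1 fun j => k ⟨i, j⟩]
          exact Nat.zero_le _
        · rw [if_neg i] at hl
          omega) hP
      refine ⟨_, Sums.cons _ _ _ _ ⟨G, ⟨fun x hx => e1 ⟨hx.1, fun a => hx.2 a.1⟩, e2',
        fun g hg j => ?_⟩, t.of_delete⟩ a1, Imp.rfl.add a2, fun P' hP' u hu huf => ?_⟩
      · by_cases i : g = f
        · obtain ⟨x, a, b⟩ := e3'
          exact b (i ▸ j a)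
        · exact e3 g hg (h1 g i ▸ j)
      · have := a3 P' hP' u hu huf
        rw [cnt_add]
        omega

theorem root_pairs (hD : Q.IsCircuit {y, z}) (hyz : y ≠ z)
    (hK : ∀ g ∈ ({y, z} : Set α), Disjoint {y, z} (K g)) (hz : K z = ∅)
    (hE : Q.E ⊆ {y, z} ∪ K y) : ∀ (Ss : List (Set α)) B C,
    Rep (TSol (Q ＼ {z}) y 1) (2 * (Ss.length - tie y Ss)) B →
    Rep (TSol (Q ＼ {z}) y 2) (tie y Ss) C →
    ∃ A, Sums (PSol Q {y, z} K) Ss A ∧ Imp {y}ᶜ (B + C) A := by
  have hS := par_sep hD hyz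
  have hy := hD.isNonloop_of_mem (nontrivial_pair hyz) (Or.inl rfl)
  have hz' := hD.isNonloop_of_mem (nontrivial_pair hyz) (Or.inr rfl)
  have im : ∀ L, Imp {y}ᶜ L (L.map (sub y {y, z})) :=
    fun L => imp_map _ fun u hu A a => mem_sub.2 ⟨hu, Or.inl a⟩
  have im0 : ∀ k, Imp {y}ᶜ (Multiset.replicate k ∅) (Multiset.replicate k {y, z}) := fun k => by
    refine ⟨by simp, fun u _ => ?_⟩
    rw [cnt, Multiset.countP_eq_zero.2 fun a ha => by simp [Multiset.eq_of_mem_replicate ha]]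
    exact Nat.zero_le _
  have hN : ∀ L, TSol (Q ＼ {z}) y 1 L → ∃ L', Tree Q {y, z} L' ∧ Imp {y}ᶜ L L' := by
    rintro L (rfl | ⟨G, hG, L', L'', t', t'', rfl⟩)
    · exact ⟨_, Tree.leaf _ hD, im0 1⟩
    have t2 := t''.sub hS hD (Or.inl rfl) subset_rfl hy
    refine ⟨_, Tree.node _ _ _ _ _ ⟨hD, t'.root.of_delete, t2.root, fun e => ?_, ?_, y, z, ?_⟩
      t'.of_delete t2, Imp.rfl.add (im _)⟩
    · exact (mem_sub.1 (e ▸ hG : y ∈ sub y {y, z} G)).1 rfl
    · exact insert_subset (Or.inl hG) (singleton_subset_iff.2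
        (Or.inr (mem_sub.2 ⟨hyz.symm, Or.inr ⟨hG, Or.inr rfl⟩⟩)))
    · refine (t'.root.of_delete.sdiff_singleton_indep hG).subset fun w hw => ⟨?_,
        fun a => hw.2 (Or.inl a)⟩
      exact hw.1.elim id fun a => (mem_sub.1 a).2.resolve_right fun b => hw.2 b.2
  intro Ss
  induction Ss with
  | nil =>
    intro B C hB hC
    rw [Sums.inv0 hB, Sums.inv0 hC]
    exact ⟨0, Sums.nil, Imp.rfl⟩
  | cons S Ss ih =>
    intro B C hB hC
    have := tie_le (f := y) (Ss := Ss)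
    rw [tie_cons] at hB hC
    rw [List.length_cons] at hB
    by_cases k : y ∈ S
    · rw [if_pos k] at hB hC
      rw [show Ss.length + 1 - (1 + tie y Ss) = Ss.length - tie y Ss by omega] at hB
      rw [add_comm] at hC
      obtain ⟨L, T, a, b, rfl⟩ := Sums.inv hC
      obtain ⟨A, a1, a2⟩ := ih B T hB b
      obtain ⟨L', c1, c2⟩ : ∃ L', PSol Q {y, z} K S L' ∧ Imp {y}ᶜ L L' := by
        rcases a with rfl | ⟨G, hG, t⟩
        · exact ⟨_, ⟨_, exp_self (nontrivial_pair hyz) hK, two_leaf hD⟩, im0 2⟩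
        have t' := t.sub hS hD (Or.inl rfl) subset_rfl hy
        have zG : z ∈ sub y {y, z} G := mem_sub.2 ⟨hyz.symm, Or.inr ⟨hG, Or.inr rfl⟩⟩
        refine ⟨_, ⟨_, ⟨fun x hx => ?_, fun x hx => ?_, fun g hg j => ?_⟩, t'⟩, im _⟩
        · exact (hx.1.resolve_left fun a => hx.2 (a ▸ k)) ▸ zG
        · exact (hE (t'.root.subset_ground hx)).imp_right fun a => ⟨y, k, Or.inl rfl, a⟩
        · rcases hg with rfl | rfl
          · exact (j zG).elim hyz.symm (disjoint_left.1 (hK _ (Or.inl rfl)) (Or.inr rfl))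
          · obtain ⟨p, a, b⟩ := ex_ne t'.root hz'
            have := j a
            rw [hz] at this
            exact this.elim b id
      refine ⟨_, Sums.cons _ _ _ _ c1 a1, ?_⟩
      rw [add_left_comm]
      exact c2.add a2
    · rw [if_neg k, zero_add] at hB hC
      rw [show 2 * (Ss.length + 1 - tie y Ss) = 2 * (Ss.length - tie y Ss) + 1 + 1 by omega] at hB
      obtain ⟨L₁, T₁, a, b, rfl⟩ := Sums.inv hB
      obtain ⟨L₂, T, a', b', rfl⟩ := Sums.inv b
      obtain ⟨A, a1, a2⟩ := ih T C b' hC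
      obtain ⟨M₁, c1, c2⟩ := hN _ a
      obtain ⟨M₂, d1, d2⟩ := hN _ a'
      refine ⟨_, Sums.cons _ _ _ _ ⟨_, exp_self (nontrivial_pair hyz) hK, _, _, c1, d1, rfl⟩ a1, ?_⟩
      rw [← add_assoc, add_assoc _ T]
      exact (c2.add d2).add a2

theorem Sol.root (hD : Q.IsCircuit {y, z}) (hyz : y ≠ z)
    (hK : ∀ g ∈ ({y, z} : Set α), Disjoint {y, z} (K g)) (hz : K z = ∅)
    (hE : Q.E ⊆ {y, z} ∪ K y) (hV : y ∉ V) (hUV : V ⊆ U)
    (h : Sol (Q ＼ {z}) D' K' y [] (2 * (Ss.length - tie y Ss)) (tie y Ss) c U) :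
    Sol Q {y, z} K e Ss 0 0 c V := by
  obtain ⟨A, B, C, X, a1, a2, a3, a4, a5, a6⟩ := h
  obtain ⟨A', b1, b2, b3⟩ := root_pairs hD hyz hK hz hE Ss B C a2 a3
  rw [a1.inv0] at a5 a6
  refine ⟨A', 0, 0, X, b1, Sums.nil, Sums.nil, fun G hG => (a4 G hG).of_delete, ?_,
    fun u hu => ?_⟩
  · rw [Multiset.card_add] at b2
    rw [Multiset.card_zero] at a5 ⊢
    omega
  · have := a6 u (hUV hu)
    have := b3 u fun a => hV (a ▸ hu)
    rw [cnt_add] at this
    have : cnt u 0 = 0 := rfl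
    omega

end Pool.Agent.Vert
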