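import Pool.Agent.P.MP_b00834_co.V5

/-! States and their transitions. -/

set_option autoImplicit false

namespace Pool.Agent.Vert

open Set Matroid Classical Function

variable {α : Type} {Q : Matroid α} {K : α → Set α} {C D D' S W : Set α}
  {x y z f g u e : α} {Ss : List (Set α)} {n m n' m' c : ℕ}

/-- the hypotheses carried along the induction -/
structure St (Q : Matroid α) (D : Set α) (K : α → Set α) (e : α) (Ss : List (Set α))
    (n m c : ℕ) : Prop where
  conn : Conn Q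
  circ : Q.IsCircuit D
  nt : D.Nontrivial
  sub : ∀ g ∈ D, K g ⊆ Q.E
  dis : ∀ g ∈ D, Disjoint D (K g)
  sep : ∀ g ∈ D, Sep (Q ／ {g}) (K g)
  pw : ∀ f ∈ D, ∀ g ∈ D, g ≠ f → Disjoint (K f) (K g)
  ne : Ss ≠ []
  tok : n + m ≠ 0 → e ∈ D ∧ K e = ∅
  big : ∀ f ∈ D, Big Q f (K f) (tie f Ss)
  wt : 2 * Ss.length + n + 2 * m ≤ c
  b0 : ∀ C, Q.IsCocircuit C → Disjoint C D → C.ncard ≤ c
  b1 : ∀ C, Q.IsCocircuit C → (C ∩ D).Nonempty →
    (C \ D).ncard + 2 * Ss.length + (if e ∈ C then n + m else 0) ≤ c + wsum (C ∩ D) Ss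

theorem two_le [Q.Finite] (hD : Q.IsCircuit D) (hC : Q.IsCocircuit C) (h : (C ∩ D).Nonempty) :
    2 ≤ (C ∩ D).ncard := by
  rw [inter_comm] at h ⊢
  exact (one_lt_ncard_iff_nontrivial_and_finite).2
    ⟨hD.isCocircuit_inter_nontrivial hC h, hD.finite.subset inter_subset_left⟩

theorem St.nl (h : St Q D K e Ss n m c) (hf : f ∈ D) : Q.IsNonloop f :=
  h.circ.isNonloop_of_mem h.nt hf

theorem St.fin [Q.Finite] (h : St Q D K e Ss n m c) (hf : f ∈ D) :
    St (Q ＼ K f) D (update K f ∅) e (Ss.map (· \ {f})) n m c := by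
  have hfK : f ∉ K f := disjoint_left.1 (h.dis f hf) hf
  have hD : (Q ＼ K f).IsCircuit D := delete_isCircuit_iff.2 ⟨h.circ, h.dis f hf⟩
  have up : ∀ g, update K f ∅ g ⊆ K g := fun g => by
    by_cases k : g = f
    · rw [k, update_self]
      exact empty_subset _
    · rw [update_of_ne k]
  refine ⟨(h.sep f hf).conn hfK h.conn (h.circ.subset_ground hf), hD, h.nt, fun g hg => ?_,
    fun g hg => (h.dis g hg).mono_right (up g), fun g hg => ?_,
    fun a ha b hb k => (h.pw a ha b hb k).mono (up a) (up b), by simpa using h.ne,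
    fun k => ⟨(h.tok k).1, subset_eq_empty (up e) (h.tok k).2⟩, fun g hg => ?_,
    by simpa using h.wt, fun C hC k => ?_, fun C hC k => ?_⟩
  · by_cases k : g = f
    · rw [k, update_self]
      exact empty_subset _
    · rw [update_of_ne k]
      exact subset_sdiff.2 ⟨h.sub g hg, (h.pw f hf g hg k).symm⟩
  · by_cases k : g = f
    · rw [k, update_self]
      exact sep_empty
    · rw [update_of_ne k]
      exact sep_del (h.sep g hg) (disjoint_left.1 (h.dis f hf) hg)
  · rw [tie_map]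
    split_ifs with k
    · exact big_zero (hD.isNonloop_of_mem h.nt hg)
    · rw [update_of_ne k, Big, del_del_eq (disjoint_insert_right.2
        ⟨disjoint_left.1 (h.dis f hf) hg, h.pw f hf g hg k⟩)]
      exact h.big g hg
  · exact h.b0 C ((h.sep f hf).c1 hfK hC fun a => disjoint_left.1 k a hf) k
  have fin : (C ∩ D).Finite := h.circ.finite.subset inter_subset_right
  rw [List.length_map]
  by_cases a : f ∈ C
  swap
  · have := h.b1 C ((h.sep f hf).c1 hfK hC a) k
    rwa [wsum_map (f := f) fin, if_neg (show f ∉ C ∩ D from fun b => a b.1), add_zero] at this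
  obtain ⟨R, hR, fR, tR⟩ := h.big f hf
  have sR : R ⊆ insert f (K f) := fun w hw => not_not.1 (hR.subset_ground hw).2
  have c2 := (h.sep f hf).c2 hfK hC a hR fR
  have e1 : (C ∪ R) ∩ D = C ∩ D := by
    ext w
    refine ⟨fun b => ⟨b.1.elim id fun j => (sR j).elim (fun i => i ▸ a)
      fun i => absurd i (disjoint_left.1 (h.dis f hf) b.2), b.2⟩, fun b => ⟨Or.inl b.1, b.2⟩⟩
  have finU : (C ∪ R).Finite := Q.ground_finite.subset c2.subset_ground
  have k1 : R \ {f} ⊆ K f := fun w hw => (sR hw.1).resolve_left hw.2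
  have e2 := ncard_sdiff_singleton_add_one fR (finU.subset subset_union_right)
  have e3 := ncard_union_eq (s := C \ D) (t := R \ {f})
    (disjoint_left.2 fun w a b => (hC.subset_ground a.1).2 (k1 b))
    (finU.subset (sdiff_subset.trans subset_union_left))
    (finU.subset (sdiff_subset.trans subset_union_right))
  have e4 : (C \ D ∪ R \ {f}).ncard ≤ ((C ∪ R) \ D).ncard :=
    ncard_le_ncard (union_subset (fun w hw => ⟨Or.inl hw.1, hw.2⟩) fun w hw =>
      ⟨Or.inr hw.1, fun b => disjoint_left.1 (h.dis f hf) b (k1 hw)⟩) (finU.subset sdiff_subset)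
  have := h.b1 _ c2 (by rwa [e1])
  rw [e1, wsum_map (f := f) fin, if_pos (show f ∈ C ∩ D from ⟨a, hf⟩)] at this
  by_cases j : e ∈ C
  · rw [if_pos (show e ∈ C ∪ R from Or.inl j)] at this
    rw [if_pos j]
    omega
  · rw [if_neg j]
    omega

theorem St.asg [Q.Finite] (h : St Q D K e Ss n m c) (hf : f ∈ D) (hK : K f = ∅)
    (he : n + m ≠ 0 → f ≠ e) (w1 : W ⊆ Q.E) (w2 : Disjoint D W) (w3 : Sep (Q ／ {f}) W)
    (w4 : ∀ g ∈ D, g ≠ f → Disjoint W (K g)) : St Q D (update K f W) e Ss n m c := by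
  have key : ∀ p : α → Set α → Prop, p f W → (∀ g ∈ D, g ≠ f → p g (K g)) →
      ∀ g ∈ D, p g (update K f W g) := fun p a b g hg => by
    by_cases k : g = f
    · rwa [k, update_self]
    · rw [update_of_ne k]
      exact b g hg k
  refine ⟨h.conn, h.circ, h.nt, key (fun _ X => X ⊆ Q.E) w1 fun g a _ => h.sub g a,
    key (fun _ X => Disjoint D X) w2 fun g a _ => h.dis g a,
    key (fun g X => Sep (Q ／ {g}) X) w3 fun g a _ => h.sep g a, fun a ha b hb k => ?_, h.ne,
    fun k => ⟨(h.tok k).1, by rw [update_of_ne (he k).symm, (h.tok k).2]⟩,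
    key (fun g X => Big Q g X (tie g Ss)) ?_ fun g a _ => h.big g a, h.wt, h.b0, h.b1⟩
  · by_cases i : a = f
    · rw [i, update_self, update_of_ne (i ▸ k)]
      exact w4 b hb (i ▸ k)
    · rw [update_of_ne i]
      by_cases j : b = f
      · rw [j, update_self]
        exact (w4 a ha i).symm
      · rw [update_of_ne j]
        exact h.pw a ha b hb k
  · have := h.big f hf
    rw [hK] at this
    rw [this.empty]
    exact big_zero (h.nl hf)

theorem St.res (h : St Q D K e Ss n m c) (hf : f ∈ D) (hnt : (D \ {f}).Nontrivial)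
    (hg : g ∈ D \ {f}) : (Q ／ {f}) ＼ (insert g (K g))ᶜ = Q ＼ (insert g (K g))ᶜ := by
  obtain ⟨x, a, b⟩ := hnt.exists_ne g
  exact con_del_eq (h.circ.subset_ground hf)
    (not_cl h.circ hf hg.1 (Ne.symm hg.2) a.1 a.2 b (h.sep g hg.1) (h.dis g hg.1))

theorem St.con (h : St Q D K e Ss n m c) (hf : f ∈ D) (he : n + m ≠ 0 → f ≠ e)
    (hnt : (D \ {f}).Nontrivial) (hc : Conn (Q ／ {f})) : St (Q ／ {f}) (D \ {f}) K e Ss n m c := by
  refine ⟨hc, h.circ.contractElem_isCircuit h.nt hf, hnt, fun g hg => subset_sdiff.2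
    ⟨h.sub g hg.1, disjoint_singleton_right.2 (disjoint_left.1 (h.dis g hg.1) hf)⟩,
    fun g hg => (h.dis g hg.1).mono_left sdiff_subset, fun g hg => sep_con (h.sep g hg.1),
    fun a ha b hb k => h.pw a ha.1 b hb.1 k, h.ne,
    fun k => ⟨⟨(h.tok k).1, (he k).symm⟩, (h.tok k).2⟩, fun g hg => ?_, h.wt,
    fun C hC k => ?_, fun C hC k => ?_⟩
  · rw [Big, h.res hf hnt hg]
    exact h.big g hg.1
  · exact h.b0 C hC.of_contract (disjoint_left.2 fun w a b =>
      disjoint_left.1 k a ⟨b, (hC.subset_ground a).2⟩)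
  · have e1 : C ∩ (D \ {f}) = C ∩ D := by
      ext w
      exact ⟨fun a => ⟨a.1, a.2.1⟩, fun a => ⟨a.1, a.2, (hC.subset_ground a.1).2⟩⟩
    have e2 : C \ (D \ {f}) = C \ D := by
      ext w
      exact ⟨fun a => ⟨a.1, fun b => a.2 ⟨b, (hC.subset_ground a.1).2⟩⟩,
        fun a => ⟨a.1, fun b => a.2 b.1⟩⟩
    rw [e1] at k
    rw [e1, e2]
    exact h.b1 C hC.of_contract k

theorem St.free [Q.Finite] (h : St Q D K e Ss n m c) (hf : f ∈ D) (hnt : (D \ {f}).Nontrivial)
    (hc : ¬ Conn (Q ／ {f})) : ∃ W : Set α, W.Nonempty ∧ W ⊆ Q.E ∧ Disjoint D W ∧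
      Sep (Q ／ {f}) W ∧ ∀ g ∈ D, g ≠ f → Disjoint W (K g) := by
  have hD := h.circ.contractElem_isCircuit h.nt hf
  have key : ∀ X, Sep (Q ／ {f}) X → ((Q ／ {f}).E ∩ X).Nonempty → Disjoint (D \ {f}) X →
      ∃ W : Set α, W.Nonempty ∧ W ⊆ Q.E ∧ Disjoint D W ∧
      Sep (Q ／ {f}) W ∧ ∀ g ∈ D, g ≠ f → Disjoint W (K g) := by
    refine fun X h1 h2 h3 => ⟨_, h2, fun w hw => hw.1.1, disjoint_left.2 fun w a b =>
      disjoint_left.1 h3 ⟨a, b.1.2⟩ b.2, h1.inter, fun g hg k => disjoint_left.2 fun u a b => ?_⟩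
    have hgE := h.circ.subset_ground hg
    have hcn := (h.sep g hg).hat.conn (fun i => i (Or.inl rfl)) h.conn hgE
    obtain ⟨A, hA, i, j⟩ := hcn.circ (x := u) (y := g) ⟨a.1.1, fun i => i (Or.inr b)⟩
      ⟨hgE, fun i => i (Or.inl rfl)⟩ fun i => disjoint_left.1 (h.dis g hg) hg (i ▸ b)
    rw [← h.res hf hnt ⟨hg, k⟩] at hA
    exact disjoint_left.1 h3 ⟨hg, k⟩ (h1.mem hA.of_delete i j a.2)
  simp only [Conn, not_forall, not_or] at hc
  obtain ⟨X, hX, h1, h2⟩ := hc
  rcases hX _ hD with a | a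
  · exact key Xᶜ hX.compl' (not_subset.1 h1) (disjoint_compl_right_iff_subset.2 a)
  · exact key X hX (not_disjoint_iff.1 h2) a

theorem St.aff [Q.Finite] (h : St Q D K e Ss n m c) (hf : f ∈ D) (hg : g ∈ D) (hfg : f ≠ g)
    {s t : ℕ} (b : Big Q f (K f) s) (b' : Big Q g (K g) t) :
    s + t + 2 * Ss.length + (if e = f then n + m else 0) ≤ c + tie f Ss + tie g Ss := by
  obtain ⟨C, hC, e1, e2⟩ := Vert.aff h.circ hf hg hfg (h.sep f hf) (h.sep g hg) (h.dis f hf)
    (h.dis g hg) (h.pw f hf g hg hfg.symm) b b'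
  have fC : f ∈ C ∩ D := by rw [e1]; exact Or.inl rfl
  have h1 := h.b1 C hC ⟨f, fC⟩
  have h2 := wsum_pair (Ss := Ss) e1.subset
  by_cases j : e = f
  · rw [if_pos (j ▸ fC.1 : e ∈ C)] at h1
    rw [if_pos j]
    omega
  · rw [if_neg j]
    omega

theorem St.new [Q.Finite] (h : St Q D K e Ss 0 0 c) (hb : ∀ f ∈ D, Big Q f (K f) (tie f Ss + 1)) :
    St Q D K e (D :: Ss) 0 0 c := by
  refine ⟨h.conn, h.circ, h.nt, h.sub, h.dis, h.sep, h.pw, by simp, h.tok, fun f hf => ?_, ?_,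
    h.b0, fun C hC k => ?_⟩
  · rw [tie_cons, if_pos hf, add_comm]
    exact hb f hf
  · obtain ⟨f, hf, g, hg, k⟩ := h.nt
    have := h.aff hf hg k (hb f hf) (hb g hg)
    rw [List.length_cons]
    omega
  · have := h.b1 C hC k
    have := two_le h.circ hC k
    rw [List.length_cons, wsum_cons, inter_assoc, inter_self]
    omega

theorem St.place [Q.Finite] (h : St Q D K e Ss n m c)
    (hb : ∀ f ∈ D, f ≠ e → Big Q f (K f) (tie f Ss + 1))
    (hn : (n' = n ∧ m' + 1 = m) ∨ (n' + 1 = n ∧ m' = 0 ∧ m = 0)) :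
    St Q D K e ((D \ {e}) :: Ss) n' m' c := by
  have ht := h.tok (by omega)
  refine ⟨h.conn, h.circ, h.nt, h.sub, h.dis, h.sep, h.pw, by simp, fun _ => ht, fun f hf => ?_,
    ?_, h.b0, fun C hC k => ?_⟩
  · rw [tie_cons]
    split_ifs with k
    · rw [add_comm]
      exact hb f hf k.2
    · rw [zero_add]
      exact h.big f hf
  · obtain ⟨f, hf, k⟩ := h.nt.exists_ne e
    have h1 := h.aff ht.1 hf k.symm (h.big e ht.1) (hb f hf k)
    have := h.wt
    rw [if_pos rfl] at h1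
    rw [List.length_cons]
    omega
  · have h1 := h.b1 C hC k
    have h2 := two_le h.circ hC k
    rw [List.length_cons, wsum_cons, ← inter_sdiff_assoc, inter_assoc, inter_self]
    split_ifs at h1 ⊢ with i
    · have := ncard_sdiff_singleton_add_one (show e ∈ C ∩ D from ⟨i, ht.1⟩)
        (h.circ.finite.subset inter_subset_right)
      omega
    · rw [sdiff_singleton_eq_self fun j => i j.1]
      omega

theorem St.root [Q.Finite] (h : St Q {y, z} K e Ss 0 0 c) (hyz : y ≠ z) (hz : K z = ∅)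
    (hD : (Q ＼ {z}).IsCircuit D') (hnt : D'.Nontrivial) (hy : y ∈ D')
    (hn : (n' = 2 * (Ss.length - tie y Ss) ∧ m' + 1 = tie y Ss) ∨
      (n' + 1 = 2 * (Ss.length - tie y Ss) ∧ m' = 0 ∧ tie y Ss = 0)) :
    St (Q ＼ {z}) D' (fun _ => ∅) y [∅] n' m' c := by
  have tz : tie z Ss = 0 := by
    have := h.big z (Or.inr rfl)
    rw [hz] at this
    exact this.empty
  have hS := par_sep h.circ hyz
  have tl := tie_le (f := y) (Ss := Ss)
  have hw := h.wt
  have key : ∀ C, (Q ＼ {z}).IsCocircuit C → y ∈ C →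
      C.ncard + 2 * Ss.length ≤ c + tie y Ss + 1 := by
    intro C hC k
    obtain ⟨C', a1, a2, a3⟩ := cocirc_delete hC
    have h1 := h.b1 C' a1 ⟨y, a2 k, Or.inl rfl⟩
    have h2 := wsum_pair (Ss := Ss) (inter_subset_right : C' ∩ {y, z} ⊆ _)
    have fin : C'.Finite := Q.ground_finite.subset a1.subset_ground
    have h3 := ncard_sdiff_singleton_add_one k (fin.subset a2)
    have h4 : (C \ {y}).ncard ≤ (C' \ {y, z}).ncard := ncard_le_ncard
      (fun w hw => ⟨a2 hw.1, fun i => i.elim hw.2 (hC.subset_ground hw.1).2⟩)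
      (fin.subset sdiff_subset)
    omega
  have key0 : ∀ C, (Q ＼ {z}).IsCocircuit C → y ∉ C → C.ncard ≤ c := fun C hC k =>
    h.b0 C (hS.c1 hyz hC k) (disjoint_left.2 fun w a b =>
      b.elim (fun i => k (i ▸ a)) (hC.subset_ground a).2)
  have split : ∀ C, (Q ＼ {z}).IsCocircuit C → (C ∩ D').Nonempty →
      (C \ D').ncard + 2 ≤ C.ncard := fun C hC k => by
    have := two_le hD hC k
    have := ncard_inter_add_ncard_sdiff_eq_ncard C D' ((ground_finite _).subset hC.subset_ground)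
    omega
  refine ⟨hS.conn hyz h.conn (h.circ.subset_ground (Or.inl rfl)), hD, hnt,
    fun _ _ => empty_subset _, fun _ _ => disjoint_empty _, fun _ _ => sep_empty,
    fun _ _ _ _ _ => disjoint_empty _, by simp, fun _ => ⟨hy, rfl⟩, fun f hf => ?_, ?_,
    fun C hC k => key0 C hC fun a => disjoint_left.1 k a hy, fun C hC k => ?_⟩
  · rw [tie_cons, if_neg (notMem_empty f), tie_nil]
    exact big_zero (hD.isNonloop_of_mem hnt hf)
  · obtain ⟨C, hC, k⟩ := (hD.isNonloop_of_mem hnt hy).exists_mem_isCocircuit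
    have := key C hC k
    have := split C hC ⟨y, k, hy⟩
    rw [List.length_singleton]
    omega
  · have := split C hC k
    rw [List.length_singleton]
    split_ifs with i
    · have := key C hC i
      omega
    · have := key0 C hC i
      omega

end Pool.Agent.Vert
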