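import Pool.Agent.P.MP_b00834_co.V6

/-! The main induction and the double cover. -/

set_option autoImplicit false

namespace Pool.Agent.Vert

open Set Matroid Classical Function

variable {α : Type}

theorem Sol.mono {Q : Matroid α} {K : α → Set α} {D U V : Set α} {e : α} {Ss : List (Set α)}
    {n m c : ℕ} (h : Sol Q D K e Ss n m c U) (hV : V ⊆ U) : Sol Q D K e Ss n m c V := by
  obtain ⟨A, B, C, X, a1, a2, a3, a4, a5, a6⟩ := h
  exact ⟨A, B, C, X, a1, a2, a3, a4, a5, fun u hu => a6 u (hV hu)⟩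

theorem main (c : ℕ) : ∀ (N : ℕ) (Q : Matroid α) [Q.Finite], Q.E.ncard = N →
    ∀ (k : ℕ) (D : Set α) (K : α → Set α) (e : α) (Ss : List (Set α)) (n m : ℕ),
    {f ∈ D | K f = ∅}.ncard + (c - (2 * Ss.length + n + 2 * m)) + (n + m) = k →
    St Q D K e Ss n m c → Sol Q D K e Ss n m c (Q.E \ D) := by
  intro N
  induction N using Nat.strong_induction_on with
  | _ N ihN =>
  intro Q _ hN k
  induction k using Nat.strong_induction_on with
  | _ k ihk =>
  intro D K e Ss n m hk h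
  have small : ∀ X : Set α, (X ∩ Q.E).Nonempty → (Q.E \ X).ncard < N := fun X ⟨x, a, b⟩ =>
    hN ▸ ncard_lt_ncard ⟨sdiff_subset, fun i => (i b).2 a⟩ Q.ground_finite
  by_cases hE : Q.E ⊆ D
  · rw [sdiff_eq_empty.2 hE]
    exact sol_base h.circ h.nt h.dis h.wt
  by_cases hfin : ∃ f ∈ D, K f ≠ ∅ ∧ ¬ Big Q f (K f) (tie f Ss + 1)
  · obtain ⟨f, hf, hK, hb⟩ := hfin
    obtain ⟨x, hx⟩ := nonempty_iff_ne_empty.2 hK
    have hfK : f ∉ K f := disjoint_left.1 (h.dis f hf) hf
    have hfE := h.circ.subset_ground hf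
    have s := ihN _ (small (K f) ⟨x, hx, h.sub f hf hx⟩) (Q ＼ K f) rfl _ _ _ _ _ _ _ rfl (h.fin hf)
    obtain ⟨Ps, p1, p2, p3⟩ := lemos f _ (Q ＼ (insert f (K f))ᶜ) (K f) (tie f Ss) le_rfl
      ((h.sep f hf).hat.conn (fun i => i (Or.inl rfl)) h.conn hfE) ⟨hfE, fun i => i (Or.inl rfl)⟩
      (fun w hw => ⟨⟨h.sub f hf hw, fun i => i (Or.inr hw)⟩, fun i => hfK (i ▸ hw)⟩)
      fun C hC fC => by
        have fin : C.Finite := (ground_finite _).subset hC.subset_ground
        have h1 : ¬ tie f Ss + 1 < C.ncard := fun i => hb ⟨C, hC, fC, i⟩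
        have h2 : (C ∩ K f).ncard < C.ncard :=
          ncard_lt_ncard ⟨inter_subset_left, fun i => hfK (i fC).2⟩ fin
        omega
    refine s.imp id (fun A hA => ?_) (fun _ => subset_rfl) (fun _ a => a.of_delete)
      fun G L a => by rw [Multiset.map_id]; exact a.of_delete
    obtain ⟨A', a1, a2, a3⟩ := fin_pairs hf (h.nl hf) (h.sep f hf) (h.dis f hf) (h.pw f hf)
      (fun g i => update_of_ne i _ _) Ss A Ps hA p1 fun P hP => ⟨(p2 P hP).1.of_delete, (p2 P hP).2,
        fun w hw => not_not.1 ((p2 P hP).1.subset_ground hw).2⟩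
    refine ⟨A', a1, ⟨a2.1, fun u hu => a2.2 u fun i => hu.2 (i ▸ hf)⟩, fun u hu => ?_⟩
    by_cases i : u ∈ K f
    · obtain ⟨P, j1, j2⟩ := p3 u i
      exact Or.inr (a3 P j1 u j2 fun j => hfK (j ▸ i))
    · exact Or.inl ⟨⟨hu.1, i⟩, hu.2⟩
  push Not at hfin
  by_cases hz : ∃ f ∈ D, K f = ∅ ∧ (n + m ≠ 0 → f ≠ e)
  · obtain ⟨f, hf, hK, he⟩ := hz
    have tf : tie f Ss = 0 := by
      have := h.big f hf
      rw [hK] at this
      exact this.empty
    have asg : ∀ W : Set α, W.Nonempty → W ⊆ Q.E → Disjoint D W → Sep (Q ／ {f}) W →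
        (∀ g ∈ D, g ≠ f → Disjoint W (K g)) → Sol Q D K e Ss n m c (Q.E \ D) := by
      intro W w0 w1 w2 w3 w4
      refine Sol.asg (ihk _ ?_ _ _ _ _ _ _ rfl (h.asg hf hK he w1 w2 w3 w4))
        (fun g i => update_of_ne i _ _) hK tf
      have : {g ∈ D | update K f W g = ∅}.ncard < {g ∈ D | K g = ∅}.ncard := by
        refine ncard_lt_ncard ⟨fun g hg => ⟨hg.1, ?_⟩, fun i => ?_⟩
          (h.circ.finite.subset fun _ a => a.1)
        · by_cases i : g = f
          · exact i ▸ hK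
          · exact update_of_ne i W K ▸ hg.2
        · have := (i ⟨hf, hK⟩).2
          rw [update_self] at this
          exact w0.ne_empty this
      omega
    by_cases hnt : (D \ {f}).Nontrivial
    · by_cases hc : Conn (Q ／ {f})
      · have s := ihN _ (small {f} ⟨f, rfl, h.circ.subset_ground hf⟩) (Q ／ {f}) rfl _ _ _ _ _ _ _
          rfl (h.con hf he hnt hc)
        exact (s.con h.circ h.nt hf h.dis h.sep hK).mono fun u hu =>
          ⟨⟨hu.1, fun i => hu.2 (i ▸ hf)⟩, fun i => hu.2 i.1⟩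
      · obtain ⟨W, w0, w1, w2, w3, w4⟩ := h.free hf hnt hc
        exact asg W w0 w1 w2 w3 w4
    obtain ⟨y, hy, hyf⟩ := h.nt.exists_ne f
    have hD : D = {y, f} := by
      refine subset_antisymm (fun w hw => ?_) (insert_subset hy (singleton_subset_iff.2 hf))
      by_cases i : w = f
      · exact Or.inr i
      · exact Or.inl (not_nontrivial_iff.1 hnt ⟨hw, i⟩ ⟨hy, hyf⟩)
    subst hD
    by_cases hW : ((Q.E \ {y, f}) \ K y).Nonempty
    · refine asg _ hW (fun w a => a.1.1) (disjoint_left.2 fun w a b => b.1.2 a)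
        (par_port h.circ hyf (h.sep y hy)) fun g hg i => ?_
      rw [hg.resolve_right i]
      exact disjoint_sdiff_left
    have hE' : Q.E ⊆ {y, f} ∪ K y := fun w a => by
      by_contra i
      exact hW ⟨w, ⟨a, fun j => i (Or.inl j)⟩, fun j => i (Or.inr j)⟩
    obtain ⟨u, hu, huD⟩ := not_subset.1 hE
    have huK : u ∈ K y := (hE' hu).resolve_left huD
    have t0 : n + m = 0 := by
      by_contra i
      obtain ⟨a, b⟩ := h.tok i
      rw [a.resolve_right (he i).symm] at b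
      rw [b] at huK
      exact huK
    obtain ⟨rfl, rfl⟩ : n = 0 ∧ m = 0 := by omega
    have hc := (par_sep h.circ hyf).conn hyf h.conn (h.circ.subset_ground hy)
    have huy : y ≠ u := fun i => huD (Or.inl i.symm)
    obtain ⟨D', d1, d2, d3⟩ := hc.circ ⟨h.circ.subset_ground hy, hyf⟩
      ⟨hu, fun i => huD (Or.inr i)⟩ huy
    have go := fun n' m' hn => (ihN _ (small {f} ⟨f, rfl, h.circ.subset_ground hf⟩) (Q ＼ {f}) rfl
      _ _ _ _ _ n' m' rfl (h.root hyf hK d1 ⟨y, d2, u, d3, huy⟩ d2 hn)).cover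
    refine Sol.root (D' := D') (K' := fun _ => ∅) h.circ hyf h.dis hK hE' (fun i => i.2 hy)
      (U := (Q ＼ {f}).E \ D' ∪ D' \ ∅) (fun w hw => ?_) ?_
    · by_cases i : w ∈ D'
      exacts [Or.inr ⟨i, id⟩, Or.inl ⟨⟨hw.1, fun j => hw.2 (Or.inr j)⟩, i⟩]
    · have hl := List.length_pos_iff.2 h.ne
      rcases Nat.eq_zero_or_pos (tie y Ss) with i | i
      · have := (go (2 * (Ss.length - tie y Ss) - 1) 0 (Or.inr ⟨by omega, rfl, i⟩)).replN ⟨d2, id⟩
        rwa [Nat.sub_add_cancel (by omega), ← i] at this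
      · have := (go _ (tie y Ss - 1) (Or.inl ⟨rfl, by omega⟩)).replF ⟨d2, id⟩
        rwa [Nat.sub_add_cancel i] at this
  push Not at hz
  have hw := h.wt
  by_cases t0 : n + m = 0
  · obtain ⟨rfl, rfl⟩ : n = 0 ∧ m = 0 := by omega
    have h' := h.new fun f hf => hfin f hf (nonempty_iff_ne_empty.2 fun i => (hz f hf i).1 rfl)
    have := h'.wt
    refine (ihk _ ?_ _ _ _ _ _ _ rfl h').new
    rw [List.length_cons] at this ⊢
    omega
  have hb : ∀ f ∈ D, f ≠ e → Big Q f (K f) (tie f Ss + 1) :=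
    fun f hf j => hfin f hf (nonempty_iff_ne_empty.2 fun i => j (hz f hf i).2)
  have he : e ∈ D \ (D \ {e}) := ⟨(h.tok t0).1, fun i => i.2 rfl⟩
  rcases m with _ | m
  · obtain ⟨n, rfl⟩ := Nat.exists_eq_succ_of_ne_zero t0
    have h' := h.place (n' := n) hb (Or.inr ⟨rfl, rfl, rfl⟩)
    have := h'.wt
    refine (ihk _ ?_ _ _ _ _ _ _ rfl h').replN he
    rw [List.length_cons] at this ⊢
    omega
  · have h' := h.place (m' := m) hb (Or.inl ⟨rfl, rfl⟩)
    refine (ihk _ ?_ _ _ _ _ _ _ rfl h').replF he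
    rw [List.length_cons]
    omega

theorem double_cover (Q : Matroid α) [Q.Finite] (hc : Conn Q) (hE : Q.E.Nontrivial) (c : ℕ)
    (h : ∀ C, Q.IsCocircuit C → C.ncard ≤ c) : ∃ T : Multiset (Set α),
    (∀ G ∈ T, Q.IsCircuit G) ∧ T.card ≤ c ∧ ∀ u ∈ Q.E, 2 ≤ cnt u T := by
  obtain ⟨x, hx, y, hy, hxy⟩ := hE
  obtain ⟨D, hD, d1, d2⟩ := hc.circ hx hy hxy
  have hnt : D.Nontrivial := ⟨x, d1, y, d2, hxy⟩
  have split : ∀ C, Q.IsCocircuit C → (C ∩ D).Nonempty → (C \ D).ncard + 2 ≤ c := fun C hC k => by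
    have := two_le hD hC k
    have := ncard_inter_add_ncard_sdiff_eq_ncard C D (Q.ground_finite.subset hC.subset_ground)
    have := h C hC
    omega
  have s : St Q D (fun _ => ∅) x [∅] 0 0 c := by
    refine ⟨hc, hD, hnt, fun _ _ => empty_subset _, fun _ _ => disjoint_empty _,
      fun _ _ => sep_empty, fun _ _ _ _ _ => disjoint_empty _, by simp, fun _ => ⟨d1, rfl⟩,
      fun f hf => ?_, ?_, fun C hC _ => h C hC, fun C hC k => ?_⟩
    · rw [tie_cons, if_neg (notMem_empty f), tie_nil]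
      exact big_zero (hD.isNonloop_of_mem hnt hf)
    · obtain ⟨C, hC, k⟩ := (hD.isNonloop_of_mem hnt d1).exists_mem_isCocircuit
      have := split C hC ⟨x, k, d1⟩
      rw [List.length_singleton]
      omega
    · have := split C hC k
      rw [List.length_singleton]
      split_ifs <;> omega
  obtain ⟨A, B, C, X, a1, a2, a3, a4, a5, a6⟩ := (main c _ Q rfl _ _ _ _ _ _ _ rfl s).cover.new
  rw [a1.inv0, Sums.inv0 a2, Sums.inv0 a3] at a5 a6
  refine ⟨X, a4, by simpa using a5, fun u hu => ?_⟩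
  have := a6 u (by
    by_cases i : u ∈ D
    exacts [Or.inr ⟨i, id⟩, Or.inl ⟨hu, i⟩])
  have : cnt u 0 = 0 := rfl
  omega

theorem two_idx {β : Type} (p : β → Prop) : ∀ l : List β, 2 ≤ l.countP (fun b => decide (p b)) →
    ∃ i j : Fin l.length, i ≠ j ∧ p (l.get i) ∧ p (l.get j) := by
  intro l
  induction l with
  | nil => simp
  | cons b l ih =>
    intro h
    rw [List.countP_cons] at h
    split_ifs at h with k
    · obtain ⟨a, ha, hp⟩ := List.countP_pos_iff.1 (show 0 < l.countP (fun b => decide (p b)) by omega)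
      obtain ⟨j, rfl⟩ := List.get_of_mem ha
      exact ⟨0, j.succ, (Fin.succ_ne_zero j).symm, by simpa using k, by simpa using hp⟩
    · obtain ⟨i, j, a1, a2, a3⟩ := ih (by omega)
      exact ⟨i.succ, j.succ, fun e => a1 (Fin.succ_injective _ e), a2, a3⟩

theorem vertigan (M : Matroid α) [M.Finite] (h2 : 2 ≤ M.E.ncard)
    (hc : ∀ e ∈ M.E, ∀ f ∈ M.E, ∃ C : Set α, M.IsCircuit C ∧ e ∈ C ∧ f ∈ C) (c : ℕ)
    (h : ∀ C : Set α, M.IsCircuit C → C.ncard ≤ c) : ∃ D : Fin c → Set α,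
    (∀ i, M.IsCocircuit (D i)) ∧ ∀ e ∈ M.E, ∃ i j : Fin c, i ≠ j ∧ e ∈ D i ∧ e ∈ D j := by
  have hE : M.E.Nontrivial := (one_lt_ncard_iff_nontrivial_and_finite.1 h2).1
  obtain ⟨x, hx⟩ := hE.nonempty
  obtain ⟨T, t1, t2, t3⟩ := double_cover M✶ (conn_of_pt fun u hu _ => hc x hx u hu).dual hE c
    fun C hC => h C (dual_isCocircuit_iff.1 hC)
  obtain ⟨G, hG, -⟩ := Multiset.countP_pos.1 (show 0 < cnt x T by
    have := t3 x hx
    omega)
  obtain ⟨l, hl⟩ := Quot.exists_rep (T + Multiset.replicate (c - T.card) G)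
  have hl : (l : Multiset (Set α)) = T + Multiset.replicate (c - T.card) G := hl
  have len : l.length = c := by
    rw [← Multiset.coe_card, hl, Multiset.card_add, Multiset.card_replicate]
    omega
  subst len
  refine ⟨l.get, fun i => ?_, fun e he => two_idx (e ∈ ·) l ?_⟩
  · have : l.get i ∈ (l : Multiset (Set α)) := List.get_mem l i
    rw [hl] at this
    exact (Multiset.mem_add.1 this).elim (t1 _) fun a => Multiset.eq_of_mem_replicate a ▸ t1 G hG
  · have h1 : cnt e (l : Multiset (Set α)) = l.countP (fun b => decide (e ∈ b)) :=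
      Multiset.coe_countP _ _
    have := t3 e he
    rw [← h1, hl, cnt_add]
    omega

end Pool.Agent.Vert
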